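import Pool.Agent.Helper45.Turan.Clique

/-! The final inequality `(r^r - r) ∏ a + ∑ a^r ≤ (∑ a)^r`. -/

namespace Pool.Agent.Helper45.Turan

open Finset

/-- non-constant functions -/
def nonconst (r : ℕ) : Finset (Fin r → Fin r) := univ.filter (fun g => ¬ ∃ c, g = fun _ => c)

lemma card_fix (r : ℕ) (j c : Fin r) :
    (univ.filter (fun g : Fin r → Fin r => g j = c)).card = r ^ (r - 1) := by
  have h : univ.filter (fun g : Fin r → Fin r => g j = c) =
      Fintype.piFinset (fun i => if i = j then {c} else univ) := by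
    ext g
    simp only [mem_filter, mem_univ, true_and, Fintype.mem_piFinset]
    constructor
    · intro h i
      by_cases hi : i = j
      · subst hi; simp [h]
      · simp [hi]
    · intro h
      have := h j
      simpa using this
  rw [h, Fintype.card_piFinset]
  have h2 : ∀ i : Fin r, (if i = j then ({c} : Finset (Fin r)) else univ).card =
      if i = j then 1 else r := by
    intro i; split_ifs <;> simp
  simp_rw [h2]
  rw [← mul_prod_erase univ _ (mem_univ j)]
  simp only [if_true, one_mul]
  rw [prod_congr rfl (g := fun _ => r) (fun i hi => if_neg (ne_of_mem_erase hi)), prod_const,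
    card_erase_of_mem (mem_univ j), card_univ, Fintype.card_fin]

lemma card_fix_nonconst (r : ℕ) (j c : Fin r) :
    ((nonconst r).filter (fun g => g j = c)).card = r ^ (r - 1) - 1 := by
  have h : (nonconst r).filter (fun g => g j = c) =
      (univ.filter (fun g : Fin r → Fin r => g j = c)).erase (fun _ => c) := by
    ext g
    simp only [nonconst, mem_filter, mem_univ, true_and, mem_erase]
    constructor
    · rintro ⟨h1, h2⟩
      exact ⟨fun hh => h1 ⟨c, hh⟩, h2⟩
    · rintro ⟨h1, h2⟩
      refine ⟨?_, h2⟩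
      rintro ⟨c', rfl⟩
      exact h1 (by rw [← h2])
  rw [h, card_erase_of_mem (by simp), card_fix]

lemma card_nonconst (r : ℕ) (hr : 1 ≤ r) : (nonconst r).card = r ^ r - r := by
  have h : nonconst r = univ \ (univ.image (fun c : Fin r => (fun _ : Fin r => c))) := by
    ext g
    simp only [nonconst, mem_filter, mem_univ, true_and, mem_sdiff, mem_image]
    constructor
    · intro h ⟨c, hc⟩; exact h ⟨c, hc.symm⟩
    · intro h ⟨c, hc⟩; exact h ⟨c, hc.symm⟩
  have hinj : Function.Injective (fun c : Fin r => (fun _ : Fin r => c)) := by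
    intro a b hab
    exact congrFun hab ⟨0, hr⟩
  rw [h, card_sdiff_of_subset (subset_univ _), card_image_of_injective _ hinj]
  simp

theorem final_ineq (r : ℕ) (hr : 2 ≤ r) (a : Fin r → ℝ) (ha : ∀ i, 0 ≤ a i) :
    ((r : ℝ) ^ r - r) * ∏ i, a i + ∑ i, a i ^ r ≤ (∑ i, a i) ^ r := by
  classical
  have hpos : r < r ^ r := by
    calc r = r ^ 1 := (pow_one r).symm
      _ < r ^ r := Nat.pow_lt_pow_right (by omega) (by omega)
  -- expansion
  have hexp : (∑ i, a i) ^ r = ∑ g : Fin r → Fin r, ∏ j, a (g j) := by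
    have := Finset.prod_univ_sum (fun _ : Fin r => (univ : Finset (Fin r))) (fun _ j => a j)
    rw [Fintype.piFinset_univ] at this
    rw [← this, prod_const, card_univ, Fintype.card_fin]
  have hsplit : ∑ g : Fin r → Fin r, ∏ j, a (g j) =
      ∑ g ∈ nonconst r, ∏ j, a (g j) + ∑ i, a i ^ r := by
    rw [← sum_filter_add_sum_filter_not univ (fun g : Fin r → Fin r => ¬ ∃ c, g = fun _ => c)]
    congr 1
    have hinj : Function.Injective (fun c : Fin r => (fun _ : Fin r => c)) := by
      intro a b hab
      exact congrFun hab ⟨0, by omega⟩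
    have : univ.filter (fun g : Fin r → Fin r => ¬¬ ∃ c, g = fun _ => c) =
        univ.image (fun c : Fin r => (fun _ : Fin r => c)) := by
      ext g
      simp only [mem_filter, mem_univ, true_and, not_not, mem_image]
      constructor
      · rintro ⟨c, hc⟩; exact ⟨c, hc.symm⟩
      · rintro ⟨c, hc⟩; exact ⟨c, hc.symm⟩
    rw [this, sum_image (fun x _ y _ h => hinj h)]
    refine sum_congr rfl fun c _ => ?_
    rw [prod_const, card_univ, Fintype.card_fin]
  rw [hexp, hsplit]
  have hAG := amgm (nonconst r) (fun g => ∏ j, a (g j)) (fun g _ => prod_nonneg fun j _ => ha _)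
  have hprod : ∏ g ∈ nonconst r, ∏ j, a (g j) = (∏ i, a i) ^ (r ^ r - r) := by
    rw [prod_comm]
    have h1 : ∀ j : Fin r, ∏ g ∈ nonconst r, a (g j) = ∏ c, a c ^ (r ^ (r - 1) - 1) := by
      intro j
      rw [← prod_fiberwise_of_maps_to (t := univ) (g := fun g : Fin r → Fin r => g j)
        (fun g _ => mem_univ _)]
      refine prod_congr rfl fun c _ => ?_
      rw [prod_congr rfl (g := fun _ => a c) (fun g hg => by rw [(mem_filter.mp hg).2]),
        prod_const, card_fix_nonconst]
    rw [prod_congr rfl (fun j _ => h1 j), prod_const, card_univ, Fintype.card_fin, prod_pow,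
      ← pow_mul]
    congr 1
    rw [Nat.sub_mul, one_mul, ← pow_succ, Nat.sub_add_cancel (by omega)]
  rw [hprod, card_nonconst r (by omega)] at hAG
  set M := r ^ r - r with hM
  have hMpos : M ≠ 0 := by omega
  have hMcast : (M : ℝ) = (r : ℝ) ^ r - r := by
    rw [hM, Nat.cast_sub hpos.le]; push_cast; rfl
  rw [← hMcast]
  have h5 : ((M : ℝ) * ∏ i, a i) ^ M ≤ (∑ g ∈ nonconst r, ∏ j, a (g j)) ^ M := by
    rw [mul_pow]; exact hAG
  have h6 : (M : ℝ) * ∏ i, a i ≤ ∑ g ∈ nonconst r, ∏ j, a (g j) :=
    le_of_pow_le_pow_left₀ hMpos (sum_nonneg fun g _ => prod_nonneg fun j _ => ha _) h5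
  linarith

end Pool.Agent.Helper45.Turan
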