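import Mathlib

/-! Blow-up lemma. -/

namespace Pool.Agent.Helper45.Turan

open Finset

open Classical in
/-- number of elements with a property -/
noncomputable def num {X : Type*} [Fintype X] (P : X → Prop) : ℕ := (univ.filter P).card

lemma num_eq_sum {X : Type*} [Fintype X] (P : X → Prop) [DecidablePred P] :
    num P = ∑ x, if P x then 1 else 0 := by
  unfold num
  rw [card_filter]
  congr!

lemma num_congr {X : Type*} [Fintype X] {P Q : X → Prop} (h : ∀ x, P x ↔ Q x) :
    num P = num Q := by
  have : P = Q := funext fun x => propext (h x)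
  rw [this]

lemma num_cons {X : Type*} [Fintype X] {m : ℕ} (P : (Fin (m + 1) → X) → Prop) :
    num P = ∑ x, num (fun g : Fin m → X => P (Fin.cons x g)) := by
  classical
  rw [num_eq_sum]
  rw [← (Fin.consEquiv (fun _ : Fin (m + 1) => X)).sum_comp, Fintype.sum_prod_type]
  refine sum_congr rfl fun x _ => ?_
  rw [num_eq_sum]
  rfl

lemma num_swap {X Y : Type*} [Fintype X] [Fintype Y] (P : X → Y → Prop) :
    ∑ x, num (fun y => P x y) = ∑ y, num (fun x => P x y) := by
  classical
  simp_rw [num_eq_sum]
  exact sum_comm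

lemma num_pow {X : Type*} [Fintype X] (b : ℕ) (Q : X → Prop) :
    num (fun u : Fin b → X => ∀ j, Q (u j)) = num Q ^ b := by
  classical
  unfold num
  rw [← Fintype.card_piFinset_const]
  congr 1
  ext u
  simp [Fintype.mem_piFinset]

open Classical in
lemma one_le_num {X : Type*} [Fintype X] {P : X → Prop} (x : X) (h : P x) : 1 ≤ num P := by
  unfold num
  exact card_pos.mpr ⟨x, mem_filter.mpr ⟨mem_univ _, h⟩⟩

theorem blowup {V : Type*} [Fintype V] (b : ℕ) (m : ℕ) :
    ∀ P : (Fin m → V) → Prop,
    num P ^ (b + 1) ^ m * Fintype.card V ^ (m * (b + 1)) ≤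
      num (fun Θ : Fin m → Fin (b + 1) → V => ∀ s : Fin m → Fin (b + 1), P (fun i => Θ i (s i))) *
        Fintype.card V ^ (m * (b + 1) ^ m) := by
  classical
  set n := Fintype.card V with hn
  induction m with
  | zero =>
    intro P
    simp only [pow_zero, pow_one, zero_mul, mul_one]
    by_cases h : P (fun i => Fin.elim0 i)
    · have h1 : num P ≤ 1 := by
        unfold num
        refine le_trans (card_filter_le _ _) ?_
        rw [card_univ]
        simp
      refine le_trans h1 (one_le_num (fun i => Fin.elim0 i) fun s => ?_)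
      have he : (fun i : Fin 0 => (fun i => Fin.elim0 i : Fin 0 → Fin (b + 1) → V) i (s i)) =
          fun i => Fin.elim0 i := funext fun i => Fin.elim0 i
      rw [he]
      exact h
    · have h1 : num P = 0 := by
        unfold num
        rw [card_eq_zero, filter_eq_empty_iff]
        intro g _ hg
        apply h
        have : g = fun i => Fin.elim0 i := funext fun i => Fin.elim0 i
        rw [this] at hg
        exact hg
      rw [h1]
      exact Nat.zero_le _
  | succ m ih =>
    intro P
    -- blow-ups of the fibres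
    have hB : num (fun Θ : Fin (m + 1) → Fin (b + 1) → V =>
          ∀ s : Fin (m + 1) → Fin (b + 1), P (fun i => Θ i (s i))) =
        ∑ u : Fin (b + 1) → V, num (fun Θ : Fin m → Fin (b + 1) → V =>
          ∀ s : Fin m → Fin (b + 1), ∀ j, P (Fin.cons (u j) (fun i => Θ i (s i)))) := by
      rw [num_cons]
      refine sum_congr rfl fun u _ => num_congr fun Θ => ?_
      constructor
      · intro h s j
        have h1 := h (Fin.cons j s)
        convert h1 using 1
        funext i
        refine Fin.cases ?_ (fun i => ?_) i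
        · simp
        · simp
      · intro h s
        have h1 := h (fun i => s i.succ) (s 0)
        convert h1 using 1
        funext i
        refine Fin.cases ?_ (fun i => ?_) i
        · simp
        · simp
    rw [hB]
    obtain ⟨K, hK⟩ : ∃ K, (b + 1) ^ m = K + 1 :=
      ⟨(b + 1) ^ m - 1, by have : 0 < (b + 1) ^ m := by positivity
                           omega⟩
    -- the induction hypothesis
    have hIH : (∑ u : Fin (b + 1) → V, num (fun g : Fin m → V => ∀ j, P (Fin.cons (u j) g)) ^
          (K + 1)) * n ^ (m * (b + 1)) ≤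
        (∑ u : Fin (b + 1) → V, num (fun Θ : Fin m → Fin (b + 1) → V =>
          ∀ s : Fin m → Fin (b + 1), ∀ j, P (Fin.cons (u j) (fun i => Θ i (s i))))) *
          n ^ (m * (K + 1)) := by
      rw [sum_mul, sum_mul]
      refine sum_le_sum fun u _ => ?_
      have := ih (fun g : Fin m → V => ∀ j, P (Fin.cons (u j) g))
      rw [hK] at this
      exact this
    -- Jensen
    have hJ1 : (∑ u : Fin (b + 1) → V, num (fun g : Fin m → V => ∀ j, P (Fin.cons (u j) g))) ^
        (K + 1) ≤ (n ^ (b + 1)) ^ K *
          ∑ u : Fin (b + 1) → V, num (fun g : Fin m → V => ∀ j, P (Fin.cons (u j) g)) ^ (K + 1) := by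
      have := pow_sum_le_card_mul_sum_pow (s := (univ : Finset (Fin (b + 1) → V)))
        (f := fun u => (num (fun g : Fin m → V => ∀ j, P (Fin.cons (u j) g)) : ℕ))
        (fun _ _ => Nat.zero_le _) K
      rw [card_univ, Fintype.card_pi, prod_const, card_univ, Fintype.card_fin, ← hn] at this
      exact this
    have hsum : ∑ u : Fin (b + 1) → V, num (fun g : Fin m → V => ∀ j, P (Fin.cons (u j) g)) =
        ∑ g : Fin m → V, num (fun v => P (Fin.cons v g)) ^ (b + 1) := by
      rw [num_swap]
      refine sum_congr rfl fun g _ => ?_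
      exact num_pow (b + 1) (fun v => P (Fin.cons v g))
    have hJ2 : num P ^ (b + 1) ≤ (n ^ m) ^ b *
        ∑ g : Fin m → V, num (fun v => P (Fin.cons v g)) ^ (b + 1) := by
      have h1 : num P = ∑ g : Fin m → V, num (fun v => P (Fin.cons v g)) := by
        rw [num_cons, num_swap]
      rw [h1]
      have := pow_sum_le_card_mul_sum_pow (s := (univ : Finset (Fin m → V)))
        (f := fun g => (num (fun v => P (Fin.cons v g)) : ℕ)) (fun _ _ => Nat.zero_le _) b
      rw [card_univ, Fintype.card_pi, prod_const, card_univ, Fintype.card_fin, ← hn] at this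
      exact this
    rw [hsum] at hJ1
    have h1 : (num P ^ (b + 1)) ^ (K + 1) ≤ ((n ^ m) ^ b) ^ (K + 1) * ((n ^ (b + 1)) ^ K *
        ∑ u : Fin (b + 1) → V, num (fun g : Fin m → V => ∀ j, P (Fin.cons (u j) g)) ^ (K + 1)) := by
      refine le_trans (Nat.pow_le_pow_left hJ2 _) ?_
      rw [mul_pow]
      exact Nat.mul_le_mul_left _ hJ1
    have hpow : (b + 1) ^ (m + 1) = (b + 1) * (K + 1) := by rw [pow_succ, hK]; ring
    rw [hpow, pow_mul]
    calc (num P ^ (b + 1)) ^ (K + 1) * n ^ ((m + 1) * (b + 1))
        ≤ (((n ^ m) ^ b) ^ (K + 1) * ((n ^ (b + 1)) ^ K *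
          ∑ u : Fin (b + 1) → V, num (fun g : Fin m → V => ∀ j, P (Fin.cons (u j) g)) ^ (K + 1))) *
            n ^ ((m + 1) * (b + 1)) := Nat.mul_le_mul_right _ h1
      _ = ((n ^ m) ^ b) ^ (K + 1) * (n ^ (b + 1)) ^ K * n ^ (b + 1) *
          ((∑ u : Fin (b + 1) → V, num (fun g : Fin m → V => ∀ j, P (Fin.cons (u j) g)) ^
            (K + 1)) * n ^ (m * (b + 1))) := by ring
      _ ≤ ((n ^ m) ^ b) ^ (K + 1) * (n ^ (b + 1)) ^ K * n ^ (b + 1) *
          ((∑ u : Fin (b + 1) → V, num (fun Θ : Fin m → Fin (b + 1) → V =>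
          ∀ s : Fin m → Fin (b + 1), ∀ j, P (Fin.cons (u j) (fun i => Θ i (s i))))) *
          n ^ (m * (K + 1))) := Nat.mul_le_mul_left _ hIH
      _ = _ := by ring

end Pool.Agent.Helper45.Turan
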