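import Mathlib

/-! Weighted clique counting in graphs without large cliques. -/

namespace Pool.Agent.Helper45.Turan

open Finset

/-- AM-GM in polynomial form. -/
lemma amgm {ι : Type*} (S : Finset ι) (z : ι → ℝ) (hz : ∀ i ∈ S, 0 ≤ z i) :
    (S.card : ℝ) ^ S.card * ∏ i ∈ S, z i ≤ (∑ i ∈ S, z i) ^ S.card := by
  rcases S.eq_empty_or_nonempty with rfl | hS
  · simp
  have hc : (0 : ℝ) < S.card := by exact_mod_cast hS.card_pos
  have h := Real.geom_mean_le_arith_mean S (fun _ => (1 : ℝ)) z (fun _ _ => zero_le_one)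
    (by simpa using hc) hz
  simp only [Real.rpow_one, sum_const, nsmul_eq_mul, mul_one, one_mul] at h
  have hprod : 0 ≤ ∏ i ∈ S, z i := prod_nonneg hz
  have h2 := pow_le_pow_left₀ (Real.rpow_nonneg hprod _) h S.card
  rw [Real.rpow_inv_natCast_pow hprod (by simpa using hS.card_pos.ne'), div_pow,
    le_div_iff₀ (by positivity)] at h2
  linarith [h2]

variable {V : Type*} [Fintype V] [DecidableEq V]

/-- the weight of a family of sets -/
def fw (x : V → ℝ) (F : Finset (Finset V)) : ℝ := ∑ Q ∈ F, ∏ v ∈ Q, x v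

lemma fw_nonneg (x : V → ℝ) (hx : ∀ v, 0 ≤ x v) (F : Finset (Finset V)) : 0 ≤ fw x F :=
  sum_nonneg fun _ _ => prod_nonneg fun v _ => hx v

lemma fw_lin (x : V → ℝ) (hx : ∀ v, 0 ≤ x v) (F : Finset (Finset V)) (u v : V) (huv : u ≠ v)
    (h : ∀ Q ∈ F, ¬ (u ∈ Q ∧ v ∈ Q)) :
    ∃ A B C : ℝ, 0 ≤ A ∧ 0 ≤ B ∧ 0 ≤ C ∧ ∀ a b : ℝ,
      fw (Function.update (Function.update x u a) v b) F = A + B * a + C * b := by
  refine ⟨∑ Q ∈ F.filter (fun Q => u ∉ Q ∧ v ∉ Q), ∏ w ∈ Q, x w,
    ∑ Q ∈ F.filter (fun Q => u ∈ Q), ∏ w ∈ Q.erase u, x w,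
    ∑ Q ∈ F.filter (fun Q => v ∈ Q), ∏ w ∈ Q.erase v, x w,
    sum_nonneg fun _ _ => prod_nonneg fun v _ => hx v,
    sum_nonneg fun _ _ => prod_nonneg fun v _ => hx v,
    sum_nonneg fun _ _ => prod_nonneg fun v _ => hx v, ?_⟩
  intro a b
  unfold fw
  rw [sum_filter, sum_filter, sum_filter, sum_mul, sum_mul, ← sum_add_distrib, ← sum_add_distrib]
  refine sum_congr rfl fun Q hQ => ?_
  have hQ' := h Q hQ
  by_cases hu : u ∈ Q
  · have hv : v ∉ Q := fun hv => hQ' ⟨hu, hv⟩
    simp only [hu, hv, not_true_eq_false, not_false_eq_true, false_and, if_false, if_true,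
      zero_mul, add_zero, zero_add]
    rw [← mul_prod_erase Q _ hu, mul_comm]
    congr 1
    · refine prod_congr rfl fun w hw => ?_
      have h1 : w ≠ u := (mem_erase.mp hw).1
      have h2 : w ≠ v := fun hh => hv (hh ▸ (mem_erase.mp hw).2)
      rw [Function.update_of_ne h2, Function.update_of_ne h1]
    · rw [Function.update_of_ne huv, Function.update_self]
  · by_cases hv : v ∈ Q
    · simp only [hu, hv, not_true_eq_false, and_false, if_false, if_true,
        zero_mul, zero_add]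
      rw [← mul_prod_erase Q _ hv, mul_comm]
      congr 1
      · refine prod_congr rfl fun w hw => ?_
        have h1 : w ≠ v := (mem_erase.mp hw).1
        have h2 : w ≠ u := fun hh => hu (hh ▸ (mem_erase.mp hw).2)
        rw [Function.update_of_ne h1, Function.update_of_ne h2]
      · rw [Function.update_self]
    · simp only [hu, hv, not_false_eq_true, and_self, if_false, if_true,
        zero_mul, add_zero]
      refine prod_congr rfl fun w hw => ?_
      have h1 : w ≠ v := fun hh => hv (hh ▸ hw)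
      have h2 : w ≠ u := fun hh => hu (hh ▸ hw)
      rw [Function.update_of_ne h1, Function.update_of_ne h2]

/-- one symmetrization step -/
lemma reduce_step (x : V → ℝ) (hx : ∀ v, 0 ≤ x v) (F₁ F₂ : Finset (Finset V)) (u v : V)
    (huv : u ≠ v) (h₁ : ∀ Q ∈ F₁, ¬ (u ∈ Q ∧ v ∈ Q)) (h₂ : ∀ Q ∈ F₂, ¬ (u ∈ Q ∧ v ∈ Q)) :
    ∃ y : V → ℝ, (∀ w, 0 ≤ y w) ∧ (∀ w, w ≠ u → w ≠ v → y w = x w) ∧ (y u = 0 ∨ y v = 0) ∧
      fw x F₁ ≤ fw y F₁ ∧ fw y F₂ ≤ fw x F₂ := by
  obtain ⟨A₁, B₁, C₁, hA₁, hB₁, hC₁, e₁⟩ := fw_lin x hx F₁ u v huv h₁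
  obtain ⟨A₂, B₂, C₂, hA₂, hB₂, hC₂, e₂⟩ := fw_lin x hx F₂ u v huv h₂
  have hx1 : fw x F₁ = A₁ + B₁ * x u + C₁ * x v := by
    rw [← e₁]; congr 1; simp
  have hx2 : fw x F₂ = A₂ + B₂ * x u + C₂ * x v := by
    rw [← e₂]; congr 1; simp
  have key : ∃ a b : ℝ, 0 ≤ a ∧ 0 ≤ b ∧ (a = 0 ∨ b = 0) ∧
      B₁ * x u + C₁ * x v ≤ B₁ * a + C₁ * b ∧ B₂ * a + C₂ * b ≤ B₂ * x u + C₂ * x v := by
    rcases le_total (B₂ * C₁) (C₂ * B₁) with hle | hle
    · rcases eq_or_lt_of_le hB₁ with h0 | hpos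
      · refine ⟨0, x v, le_refl _, hx v, Or.inl rfl, ?_, ?_⟩
        · rw [← h0]; simp
        · have := mul_nonneg hB₂ (hx u); linarith
      · refine ⟨x u + C₁ / B₁ * x v, 0, ?_, le_refl _, Or.inr rfl, ?_, ?_⟩
        · have := hx u; have := hx v; positivity
        · have : B₁ * (x u + C₁ / B₁ * x v) = B₁ * x u + C₁ * x v := by field_simp
          linarith
        · have h3 : B₂ * (C₁ / B₁) ≤ C₂ := by
            rw [mul_div_assoc', div_le_iff₀ hpos]; exact hle
          have := mul_le_mul_of_nonneg_right h3 (hx v)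
          nlinarith
    · rcases eq_or_lt_of_le hC₁ with h0 | hpos
      · refine ⟨x u, 0, hx u, le_refl _, Or.inr rfl, ?_, ?_⟩
        · rw [← h0]; simp
        · have := mul_nonneg hC₂ (hx v); linarith
      · refine ⟨0, x v + B₁ / C₁ * x u, le_refl _, ?_, Or.inl rfl, ?_, ?_⟩
        · have := hx u; have := hx v; positivity
        · have : C₁ * (x v + B₁ / C₁ * x u) = B₁ * x u + C₁ * x v := by field_simp; ring
          linarith
        · have h3 : C₂ * (B₁ / C₁) ≤ B₂ := by
            rw [mul_div_assoc', div_le_iff₀ hpos]; exact hle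
          have := mul_le_mul_of_nonneg_right h3 (hx u)
          nlinarith
  obtain ⟨a, b, ha, hb, hab, k₁, k₂⟩ := key
  refine ⟨Function.update (Function.update x u a) v b, ?_, ?_, ?_, ?_, ?_⟩
  · intro w
    by_cases hwv : w = v
    · subst hwv; rw [Function.update_self]; exact hb
    · rw [Function.update_of_ne hwv]
      by_cases hwu : w = u
      · subst hwu; rw [Function.update_self]; exact ha
      · rw [Function.update_of_ne hwu]; exact hx w
  · intro w hwu hwv
    rw [Function.update_of_ne hwv, Function.update_of_ne hwu]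
  · rw [Function.update_of_ne huv, Function.update_self, Function.update_self]
    exact hab
  · rw [e₁, hx1]; linarith
  · rw [e₂, hx2]; linarith

/-- Symmetrization down to a weight supported on a clique. -/
theorem exists_clique_support (G : SimpleGraph V) [DecidableRel G.Adj] (s j : ℕ) :
    ∀ (n : ℕ) (x : V → ℝ), (∀ v, 0 ≤ x v) → (univ.filter (fun v => x v ≠ 0)).card = n →
    ∃ y : V → ℝ, (∀ v, 0 ≤ y v) ∧ (∀ v, x v = 0 → y v = 0) ∧
      (∀ u v, u ≠ v → y u ≠ 0 → y v ≠ 0 → G.Adj u v) ∧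
      fw x (G.cliqueFinset s) ≤ fw y (G.cliqueFinset s) ∧
      fw y (G.cliqueFinset j) ≤ fw x (G.cliqueFinset j) := by
  intro n
  induction n using Nat.strong_induction_on with
  | _ n ih =>
    intro x hx hn
    by_cases hall : ∀ u v, u ≠ v → x u ≠ 0 → x v ≠ 0 → G.Adj u v
    · exact ⟨x, hx, fun _ h => h, hall, le_refl _, le_refl _⟩
    · push Not at hall
      obtain ⟨u, v, huv, hxu, hxv, hadj⟩ := hall
      have hno : ∀ m, ∀ Q ∈ G.cliqueFinset m, ¬ (u ∈ Q ∧ v ∈ Q) := by
        rintro m Q hQ ⟨h1, h2⟩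
        rw [SimpleGraph.mem_cliqueFinset_iff] at hQ
        exact hadj (hQ.isClique h1 h2 huv)
      obtain ⟨y, hy0, hyx, hyz, hy1, hy2⟩ :=
        reduce_step x hx (G.cliqueFinset s) (G.cliqueFinset j) u v huv (hno s) (hno j)
      have hsupp : ∀ w, x w = 0 → y w = 0 := by
        intro w hw
        have h1 : w ≠ u := fun h => hxu (h ▸ hw)
        have h2 : w ≠ v := fun h => hxv (h ▸ hw)
        rw [hyx w h1 h2, hw]
      have hlt : (univ.filter (fun v => y v ≠ 0)).card < n := by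
        rw [← hn]
        apply card_lt_card
        rw [ssubset_iff_of_subset]
        · rcases hyz with h | h
          · exact ⟨u, by simp [hxu], by simp [h]⟩
          · exact ⟨v, by simp [hxv], by simp [h]⟩
        · intro w hw
          simp only [mem_filter, mem_univ, true_and] at hw ⊢
          exact fun h => hw (hsupp w h)
      obtain ⟨z, hz0, hzs, hzc, hz1, hz2⟩ := ih _ hlt y hy0 rfl
      exact ⟨z, hz0, fun w hw => hzs w (hsupp w hw), hzc, le_trans hy1 hz1, le_trans hz2 hy2⟩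

lemma fw_clique_one (G : SimpleGraph V) [DecidableRel G.Adj] (x : V → ℝ) :
    fw x (G.cliqueFinset 1) = ∑ v, x v := by
  unfold fw
  symm
  refine sum_bij (fun v _ => {v}) ?_ ?_ ?_ ?_
  · intro v _
    rw [SimpleGraph.mem_cliqueFinset_iff]
    exact ⟨by simp [SimpleGraph.IsClique], by simp⟩
  · intro a _ b _ h
    simpa using h
  · intro Q hQ
    rw [SimpleGraph.mem_cliqueFinset_iff] at hQ
    obtain ⟨v, hv⟩ := card_eq_one.mp hQ.card_eq
    exact ⟨v, mem_univ _, hv.symm⟩
  · intro v _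
    simp

/-- data extracted from the symmetrization: a clique `S` with at most `s` vertices -/
lemma clique_data (G : SimpleGraph V) [DecidableRel G.Adj] (s j : ℕ) (x : V → ℝ)
    (hx : ∀ v, 0 ≤ x v)
    (hfree : ∀ Q : Finset V, G.IsNClique (s + 1) Q → ∃ v ∈ Q, x v = 0) :
    ∃ (y : V → ℝ) (S : Finset V), (∀ v, 0 ≤ y v) ∧ S.card ≤ s ∧ (∀ v, v ∉ S → y v = 0) ∧
      G.IsClique (S : Set V) ∧
      fw x (G.cliqueFinset s) ≤ (if S.card = s then ∏ v ∈ S, y v else 0) ∧
      fw y (G.cliqueFinset j) ≤ fw x (G.cliqueFinset j) := by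
  obtain ⟨y, hy0, hys, hyc, hy1, hy2⟩ := exists_clique_support G s j _ x hx rfl
  let S := univ.filter (fun v => y v ≠ 0)
  have hSc : G.IsClique (S : Set V) := by
    intro u hu v hv huv
    simp only [S, coe_filter, mem_univ, true_and, Set.mem_ofPred_eq] at hu hv
    exact hyc u v huv hu hv
  have hcard : S.card ≤ s := by
    by_contra hlt
    push Not at hlt
    obtain ⟨Q, hQS, hQ⟩ := exists_subset_card_eq (show s + 1 ≤ S.card from hlt)
    obtain ⟨v, hv, hv0⟩ := hfree Q ⟨hSc.subset (by exact_mod_cast hQS), hQ⟩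
    have := hQS hv
    simp only [S, mem_filter, mem_univ, true_and] at this
    exact this (hys v hv0)
  have hout : ∀ v, v ∉ S → y v = 0 := by
    intro v hv
    by_contra h
    exact hv (by simp [S, h])
  refine ⟨y, S, hy0, hcard, hout, hSc, ?_, hy2⟩
  refine le_trans hy1 ?_
  have hterm : ∀ Q ∈ G.cliqueFinset s, Q ≠ S → ∏ v ∈ Q, y v = 0 := by
    intro Q hQ hne
    rw [SimpleGraph.mem_cliqueFinset_iff] at hQ
    have : ¬ Q ⊆ S := by
      intro hsub
      exact hne (eq_of_subset_of_card_le hsub (by rw [hQ.card_eq]; exact hcard))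
    rw [not_subset] at this
    obtain ⟨v, hv, hvS⟩ := this
    exact prod_eq_zero hv (hout v hvS)
  by_cases hSs : S.card = s
  · rw [if_pos hSs]
    unfold fw
    have hSmem : S ∈ G.cliqueFinset s := by
      rw [SimpleGraph.mem_cliqueFinset_iff]; exact ⟨hSc, hSs⟩
    rw [sum_eq_single_of_mem S hSmem hterm]
  · rw [if_neg hSs]
    unfold fw
    refine le_of_eq (sum_eq_zero fun Q hQ => hterm Q hQ ?_)
    rintro rfl
    rw [SimpleGraph.mem_cliqueFinset_iff] at hQ
    exact hSs hQ.card_eq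

/-- Lemma (a): weighted Zykov/Turan bound. -/
theorem clique_bound_one (G : SimpleGraph V) [DecidableRel G.Adj] (s : ℕ) (x : V → ℝ)
    (hx : ∀ v, 0 ≤ x v)
    (hfree : ∀ Q : Finset V, G.IsNClique (s + 1) Q → ∃ v ∈ Q, x v = 0) :
    (s : ℝ) ^ s * fw x (G.cliqueFinset s) ≤ (∑ v, x v) ^ s := by
  obtain ⟨y, S, hy0, hcard, hout, hSc, h1, h2⟩ := clique_data G s 1 x hx hfree
  rw [fw_clique_one, fw_clique_one] at h2
  have hsum : ∑ v ∈ S, y v = ∑ v, y v := sum_subset (subset_univ _) (fun v _ hv => hout v hv)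
  by_cases hSs : S.card = s
  · rw [if_pos hSs] at h1
    calc (s : ℝ) ^ s * fw x (G.cliqueFinset s) ≤ (s : ℝ) ^ s * ∏ v ∈ S, y v :=
          mul_le_mul_of_nonneg_left h1 (by positivity)
      _ ≤ (∑ v ∈ S, y v) ^ s := by
          have := amgm S y (fun v _ => hy0 v)
          rwa [hSs] at this
      _ ≤ (∑ v, x v) ^ s := by
          rw [hsum]
          exact pow_le_pow_left₀ (sum_nonneg fun v _ => hy0 v) h2 s
  · rw [if_neg hSs] at h1
    have h3 : (s : ℝ) ^ s * fw x (G.cliqueFinset s) ≤ 0 :=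
      mul_nonpos_of_nonneg_of_nonpos (by positivity) h1
    exact le_trans h3 (pow_nonneg (sum_nonneg fun v _ => hx v) s)

/-- Lemma (b): weighted clique bound in terms of the number of edges. -/
theorem clique_bound_two (G : SimpleGraph V) [DecidableRel G.Adj] (s : ℕ) (hs : 2 ≤ s)
    (x : V → ℝ) (hx : ∀ v, 0 ≤ x v)
    (hfree : ∀ Q : Finset V, G.IsNClique (s + 1) Q → ∃ v ∈ Q, x v = 0) :
    ((s.choose 2 : ℕ) : ℝ) ^ s * (fw x (G.cliqueFinset s)) ^ 2 ≤
      (fw x (G.cliqueFinset 2)) ^ s := by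
  obtain ⟨y, S, hy0, hcard, hout, hSc, h1, h2⟩ := clique_data G s 2 x hx hfree
  have hfx : 0 ≤ fw x (G.cliqueFinset s) := fw_nonneg x hx _
  by_cases hSs : S.card = s
  · rw [if_pos hSs] at h1
    let T := S.powersetCard 2
    have hTcard : T.card = s.choose 2 := by simp [T, hSs]
    have hTsub : T ⊆ G.cliqueFinset 2 := by
      intro Q hQ
      rw [mem_powersetCard] at hQ
      rw [SimpleGraph.mem_cliqueFinset_iff]
      exact ⟨hSc.subset (by exact_mod_cast hQ.1), hQ.2⟩
    have hX : ∑ Q ∈ T, ∏ v ∈ Q, y v ≤ fw y (G.cliqueFinset 2) :=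
      sum_le_sum_of_subset_of_nonneg hTsub (fun Q _ _ => prod_nonneg fun v _ => hy0 v)
    have hprodT : ∏ Q ∈ T, ∏ v ∈ Q, y v = (∏ v ∈ S, y v) ^ (s - 1) := by
      have h3 : ∏ Q ∈ T, ∏ v ∈ Q, y v = ∏ v ∈ S, y v ^ (T.filter (fun Q => v ∈ Q)).card := by
        have : ∀ Q ∈ T, ∏ v ∈ Q, y v = ∏ v ∈ S, if v ∈ Q then y v else 1 := by
          intro Q hQ
          rw [mem_powersetCard] at hQ
          rw [← prod_filter]
          congr 1
          ext v
          simp only [mem_filter]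
          exact ⟨fun h => ⟨hQ.1 h, h⟩, fun h => h.2⟩
        rw [prod_congr rfl this, prod_comm]
        refine prod_congr rfl fun v _ => ?_
        rw [← prod_filter, prod_const]
      rw [h3, ← prod_pow]
      refine prod_congr rfl fun v hv => ?_
      congr 1
      have h4 : (T.filter (fun Q => v ∈ Q)) = (S.erase v).image (fun w => {v, w}) := by
        ext Q
        simp only [T, mem_filter, mem_powersetCard, mem_image, mem_erase]
        constructor
        · rintro ⟨⟨hQS, hQ2⟩, hvQ⟩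
          obtain ⟨a, b, hab, rfl⟩ := card_eq_two.mp hQ2
          simp only [mem_insert, mem_singleton] at hvQ
          rcases hvQ with rfl | rfl
          · exact ⟨b, ⟨hab.symm, hQS (by simp)⟩, rfl⟩
          · exact ⟨a, ⟨hab, hQS (by simp)⟩, pair_comm _ _⟩
        · rintro ⟨w, ⟨hwv, hwS⟩, rfl⟩
          refine ⟨⟨?_, card_pair hwv.symm⟩, by simp⟩
          intro a ha
          simp only [mem_insert, mem_singleton] at ha
          rcases ha with rfl | rfl <;> assumption
      rw [h4, card_image_of_injOn, card_erase_of_mem hv, hSs]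
      intro a ha b hb hab
      simp only [coe_erase, Set.mem_sdiff, mem_coe, Set.mem_singleton_iff] at ha hb
      have : a ∈ ({v, b} : Finset V) := by
        have hab' : ({v, a} : Finset V) = {v, b} := hab
        rw [← hab']; simp
      simp only [mem_insert, mem_singleton] at this
      rcases this with h | h
      · exact absurd h ha.2
      · exact h
    have hA := amgm T (fun Q => ∏ v ∈ Q, y v) (fun Q _ => prod_nonneg fun v _ => hy0 v)
    rw [hprodT, hTcard] at hA
    set X := ∑ Q ∈ T, ∏ v ∈ Q, y v with hXdef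
    have hX0 : 0 ≤ X := sum_nonneg fun Q _ => prod_nonneg fun v _ => hy0 v
    set p := ∏ v ∈ S, y v with hp
    have hp0 : 0 ≤ p := prod_nonneg fun v _ => hy0 v
    -- square and take roots
    have hchoose : s.choose 2 * 2 = s * (s - 1) := by
      rw [Nat.choose_two_right, Nat.div_mul_cancel]
      exact (Nat.even_mul_pred_self s).two_dvd
    have hB : (((s.choose 2 : ℕ) : ℝ) ^ s * p ^ 2) ^ (s - 1) ≤ (X ^ s) ^ (s - 1) := by
      have h5 := pow_le_pow_left₀ (by positivity) hA 2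
      calc (((s.choose 2 : ℕ) : ℝ) ^ s * p ^ 2) ^ (s - 1)
          = (((s.choose 2 : ℕ) : ℝ) ^ (s.choose 2) * p ^ (s - 1)) ^ 2 := by
            rw [mul_pow, mul_pow, ← pow_mul, ← pow_mul, ← pow_mul, ← pow_mul, hchoose,
              mul_comm 2 (s - 1)]
        _ ≤ (X ^ (s.choose 2)) ^ 2 := h5
        _ = (X ^ s) ^ (s - 1) := by rw [← pow_mul, ← pow_mul, hchoose]
    have hC : ((s.choose 2 : ℕ) : ℝ) ^ s * p ^ 2 ≤ X ^ s :=
      le_of_pow_le_pow_left₀ (by omega) (by positivity) hB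
    calc ((s.choose 2 : ℕ) : ℝ) ^ s * (fw x (G.cliqueFinset s)) ^ 2
        ≤ ((s.choose 2 : ℕ) : ℝ) ^ s * p ^ 2 := by
          refine mul_le_mul_of_nonneg_left ?_ (by positivity)
          exact pow_le_pow_left₀ hfx h1 2
      _ ≤ X ^ s := hC
      _ ≤ (fw x (G.cliqueFinset 2)) ^ s :=
          pow_le_pow_left₀ hX0 (le_trans hX h2) s
  · rw [if_neg hSs] at h1
    have h3 : fw x (G.cliqueFinset s) = 0 := le_antisymm h1 hfx
    rw [h3]
    simp only [ne_eq, OfNat.ofNat_ne_zero, not_false_eq_true, zero_pow, mul_zero]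
    exact pow_nonneg (fw_nonneg x hx _) s

end Pool.Agent.Helper45.Turan
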