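import Pool.Agent.Helper45.Turan.Near

/-! For every vertex a large set of vertices near one hub. -/

namespace Pool.Agent.Helper45.Turan

open Finset

variable {V : Type*} [Fintype V] [DecidableEq V] {E : Finset (Finset V)} {r : ℕ}

/-- the second neighbourhood of `u` in the shadow of the link of `v` -/
noncomputable def BB (E : Finset (Finset V)) (v u : V) : Finset V := by
  classical
  exact univ.filter (fun w => ∃ a, (Lnk E v).Adj u a ∧ (Lnk E v).Adj w a)

lemma mem_BB (v u w : V) : w ∈ BB E v u ↔ ∃ a, (Lnk E v).Adj u a ∧ (Lnk E v).Adj w a := by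
  unfold BB
  simp

lemma near_BB {v u w : V} (h : w ∈ BB E v u) : Near E v u 2 v w := by
  obtain ⟨a, ⟨h1, h2, h3, e, he, hve, hue, hae⟩, ⟨h4, h5, h6, f, hf, hvf, hwf, haf⟩⟩ :=
    (mem_BB v u w).mp h
  have n1 : Near E v u 1 v a := near_step (k := 0) ⟨rfl, rfl⟩ he hve hue hve hae h3.symm
  exact near_step n1 hf hvf haf hvf hwf h5.symm

lemma near_BB' {v u w w' : V} (h : w ∈ BB E v u) (hadj : (Lnk E v).Adj w w') :
    Near E v u 3 w w' := by
  obtain ⟨h1, h2, h3, e, he, hve, hwe, hwe'⟩ := hadj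
  exact near_step (near_BB h) he hve hwe hwe hwe' h1

lemma ne_of_mem_BB {v u w : V} (h : w ∈ BB E v u) : w ≠ v := by
  obtain ⟨a, _, h4⟩ := (mem_BB v u w).mp h
  exact h4.2.1

lemma hub_ne {v u w : V} (h : w ∈ BB E v u) : v ≠ u := by
  obtain ⟨a, h4, _⟩ := (mem_BB v u w).mp h
  exact h4.2.1.symm

section

variable (hr : r = 20) (hE : ∀ e ∈ E, e.card = r) (hS : Star E r 10)
  (x : V → ℝ) (hx : ∀ v, 0 < x v) (hsum : ∑ v, x v = 1)
  (hL : ∀ v, (1 / (r : ℝ)) ^ (r - 1) < LL E x v)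

include hr hE hS hx hsum hL

/-- the vertex `u` with large neighbourhood in the link of `v` -/
lemma exists_hub (v : V) : ∃ u, u ≠ v ∧ 1 - 3 / (r : ℝ) ≤ ∑ a ∈ NN E v u, x a := by
  by_contra hcon
  push Not at hcon
  have hx0 : ∀ v, 0 ≤ x v := fun v => (hx v).le
  have h1 := LL2_sum hE x v
  have h2 : ∀ u ∈ univ.erase v, x u * LL2 E x v u ≤ x u * ((1 - 3 / (r : ℝ)) / (r - 2)) ^ (r - 2) := by
    intro u hu
    refine mul_le_mul_of_nonneg_left ?_ (hx0 u)
    have h3 := LL2_le (by omega) hE (by norm_num) hS x hx0 v u (ne_of_mem_erase hu)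
    have h4 : (∑ a ∈ NN E v u, x a) ^ (r - 2) ≤ (1 - 3 / (r : ℝ)) ^ (r - 2) :=
      pow_le_pow_left₀ (sum_nonneg fun a _ => hx0 a) (hcon u (ne_of_mem_erase hu)).le _
    rw [div_pow, le_div_iff₀ (by subst hr; norm_num)]
    have hcast : (((r - 2 : ℕ) : ℝ)) = (r : ℝ) - 2 := by
      rw [Nat.cast_sub (by omega)]; norm_num
    rw [hcast] at h3
    linarith
  have h5 := sum_le_sum h2
  rw [h1, ← sum_mul] at h5
  have h6 : ∑ u ∈ univ.erase v, x u ≤ 1 := by
    rw [← hsum]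
    exact sum_le_sum_of_subset_of_nonneg (subset_univ _) (fun a _ _ => hx0 a)
  have h7 : (0 : ℝ) ≤ ((1 - 3 / (r : ℝ)) / (r - 2)) ^ (r - 2) := by subst hr; norm_num
  have h8 : ((r : ℝ) - 1) * (1 / (r : ℝ)) ^ (r - 1) < ((r : ℝ) - 1) * LL E x v :=
    mul_lt_mul_of_pos_left (hL v) (by subst hr; norm_num)
  have h9 : ((1 - 3 / (r : ℝ)) / (r - 2)) ^ (r - 2) ≤ ((r : ℝ) - 1) * (1 / (r : ℝ)) ^ (r - 1) := by
    subst hr; norm_num
  have h10 : (∑ u ∈ univ.erase v, x u) * ((1 - 3 / (r : ℝ)) / (r - 2)) ^ (r - 2) ≤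
      1 * ((1 - 3 / (r : ℝ)) / (r - 2)) ^ (r - 2) := mul_le_mul_of_nonneg_right h6 h7
  linarith

/-- many `(r-1)`-cliques of the link inside `BB` -/
lemma clique_BB (v u : V) (huv : u ≠ v) (hu : 1 - 3 / (r : ℝ) ≤ ∑ a ∈ NN E v u, x a) :
    LL E x v - (3 / ((r : ℝ) * (r - 2))) ^ (r - 2) ≤
      fw (rw' x (BB E v u)) ((Lnk E v).cliqueFinset (r - 1)) := by
  have hx0 : ∀ v, 0 ≤ x v := fun v => (hx v).le
  have hsplit : LL E x v =
      ∑ e ∈ (E.filter (fun e => v ∈ e)).filter (fun e => e.erase v ⊆ BB E v u), ∏ w ∈ e.erase v, x w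
      + ∑ e ∈ (E.filter (fun e => v ∈ e)).filter (fun e => ¬ e.erase v ⊆ BB E v u),
        ∏ w ∈ e.erase v, x w := by
    unfold LL
    rw [sum_filter_add_sum_filter_not]
  have hbad : ∑ e ∈ (E.filter (fun e => v ∈ e)).filter (fun e => ¬ e.erase v ⊆ BB E v u),
        ∏ w ∈ e.erase v, x w ≤ (3 / ((r : ℝ) * (r - 2))) ^ (r - 2) := by
    have h1 : ∑ e ∈ (E.filter (fun e => v ∈ e)).filter (fun e => ¬ e.erase v ⊆ BB E v u),
        ∏ w ∈ e.erase v, x w ≤
        ∑ w ∈ (univ.erase v).filter (fun w => w ∉ BB E v u), x w * LL2 E x v w := by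
      have h2 : ∀ w ∈ (univ.erase v).filter (fun w => w ∉ BB E v u), x w * LL2 E x v w =
          ∑ e ∈ E.filter (fun e => v ∈ e), if w ∈ e then ∏ w ∈ e.erase v, x w else 0 := by
        intro w hw
        unfold LL2
        rw [mul_sum, ← sum_filter, filter_filter]
        refine sum_congr rfl fun e he => ?_
        have hw' : w ≠ v := ne_of_mem_erase (mem_filter.mp hw).1
        have hwe : w ∈ e.erase v := mem_erase.mpr ⟨hw', (mem_filter.mp he).2.2⟩
        rw [mul_prod_erase _ _ hwe]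
      rw [sum_congr rfl h2, sum_comm, sum_filter]
      refine sum_le_sum fun e he => ?_
      have hp : 0 ≤ ∏ w ∈ e.erase v, x w := prod_nonneg fun w _ => hx0 w
      by_cases hsub : e.erase v ⊆ BB E v u
      · rw [if_neg (not_not.mpr hsub)]
        exact sum_nonneg fun w _ => by split_ifs; exact hp; exact le_refl _
      · rw [if_pos hsub]
        rw [not_subset] at hsub
        obtain ⟨w, hw, hwB⟩ := hsub
        have hmem : w ∈ (univ.erase v).filter (fun w => w ∉ BB E v u) :=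
          mem_filter.mpr ⟨mem_erase.mpr ⟨ne_of_mem_erase hw, mem_univ _⟩, hwB⟩
        have h3 := single_le_sum (f := fun w => if w ∈ e then ∏ w ∈ e.erase v, x w else 0)
          (fun w _ => by split_ifs; exact hp; exact le_refl _) hmem
        simp only [mem_of_mem_erase hw, if_true] at h3
        exact h3
    refine le_trans h1 ?_
    have h4 : ∀ w ∈ (univ.erase v).filter (fun w => w ∉ BB E v u), x w * LL2 E x v w ≤
        x w * (3 / ((r : ℝ) * (r - 2))) ^ (r - 2) := by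
      intro w hw
      rw [mem_filter] at hw
      refine mul_le_mul_of_nonneg_left ?_ (hx0 w)
      have h3 := LL2_le (by omega) hE (by norm_num) hS x hx0 v w (ne_of_mem_erase hw.1)
      have hdisj : Disjoint (NN E v u) (NN E v w) := by
        rw [disjoint_left]
        intro a ha hb
        rw [mem_NN] at ha hb
        exact hw.2 ((mem_BB v u w).mpr ⟨a, ha, hb⟩)
      have h5 : ∑ a ∈ NN E v u, x a + ∑ a ∈ NN E v w, x a ≤ 1 := by
        rw [← sum_union hdisj, ← hsum]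
        exact sum_le_sum_of_subset_of_nonneg (subset_univ _) (fun a _ _ => hx0 a)
      have h6 : ∑ a ∈ NN E v w, x a ≤ 3 / (r : ℝ) := by linarith
      have h7 : (∑ a ∈ NN E v w, x a) ^ (r - 2) ≤ (3 / (r : ℝ)) ^ (r - 2) :=
        pow_le_pow_left₀ (sum_nonneg fun a _ => hx0 a) h6 _
      have hcast : (((r - 2 : ℕ) : ℝ)) = (r : ℝ) - 2 := by
        rw [Nat.cast_sub (by omega)]; norm_num
      rw [hcast] at h3
      have h8 : (3 / ((r : ℝ) * (r - 2))) ^ (r - 2) = (3 / (r : ℝ)) ^ (r - 2) / ((r : ℝ) - 2) ^ (r - 2) := by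
        rw [← div_pow, div_div]
      rw [h8, le_div_iff₀ (by subst hr; norm_num)]
      linarith
    refine le_trans (sum_le_sum h4) ?_
    rw [← sum_mul]
    have h9 : ∑ w ∈ (univ.erase v).filter (fun w => w ∉ BB E v u), x w ≤ 1 := by
      rw [← hsum]
      exact sum_le_sum_of_subset_of_nonneg (subset_univ _) (fun a _ _ => hx0 a)
    have h10 : (0 : ℝ) ≤ (3 / ((r : ℝ) * (r - 2))) ^ (r - 2) := by subst hr; norm_num
    nlinarith
  have hgood : ∑ e ∈ (E.filter (fun e => v ∈ e)).filter (fun e => e.erase v ⊆ BB E v u),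
      ∏ w ∈ e.erase v, x w ≤ fw (rw' x (BB E v u)) ((Lnk E v).cliqueFinset (r - 1)) := by
    have hinj : Set.InjOn (fun e : Finset V => e.erase v)
        ((E.filter (fun e => v ∈ e)).filter (fun e => e.erase v ⊆ BB E v u)) := by
      intro e he f hf hef
      simp only [coe_filter, mem_filter, Set.mem_ofPred_eq] at he hf
      have hef' : e.erase v = f.erase v := hef
      rw [← insert_erase he.1.2, ← insert_erase hf.1.2, hef']
    have := fam_le (Lnk E v) (r - 1) x hx0 (BB E v u)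
      (((E.filter (fun e => v ∈ e)).filter (fun e => e.erase v ⊆ BB E v u)).image
        (fun e : Finset V => e.erase v)) (by
        intro Q hQ
        rw [mem_image] at hQ
        obtain ⟨e, he, rfl⟩ := hQ
        rw [mem_filter, mem_filter] at he
        obtain ⟨⟨he, hve⟩, hsub⟩ := he
        refine ⟨⟨?_, ?_⟩, hsub⟩
        · intro a ha b hb hab
          simp only [coe_erase, Set.mem_sdiff, mem_coe, Set.mem_singleton_iff] at ha hb
          exact ⟨hab, ha.2, hb.2, e, he, hve, ha.1, hb.1⟩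
        · rw [card_erase_of_mem hve, hE e he])
    rwa [sum_image hinj] at this
  linarith

omit hr hE hx hsum hL in
/-- no `r`-clique of the link inside `BB` -/
lemma free_BB (v u : V) (Q : Finset V) (hQ : (Lnk E v).IsNClique (r - 1 + 1) Q) (hr1 : 1 ≤ r) :
    ∃ w ∈ Q, rw' x (BB E v u) w = 0 := by
  by_contra hcon
  push Not at hcon
  have hQB : ∀ w ∈ Q, w ∈ BB E v u := by
    intro w hw
    have := hcon w hw
    unfold rw' at this
    by_contra h
    rw [if_neg h] at this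
    exact this rfl
  have hcardQ : Q.card = r := by rw [hQ.card_eq]; omega
  obtain ⟨w₀, hw₀⟩ : Q.Nonempty := by
    rw [← card_pos, hcardQ]; omega
  have hv : v ∉ Q := fun h => ne_of_mem_BB (hQB v h) rfl
  refine hS v u (hub_ne (hQB w₀ hw₀)) (insert v Q) ?_ ?_
  · rw [card_insert_of_notMem hv, hcardQ]
  · intro a ha b hb hab
    rw [mem_insert] at ha hb
    rcases ha with rfl | ha <;> rcases hb with rfl | hb
    · exact absurd rfl hab
    · exact near_mono (by norm_num) (by norm_num) (near_BB (hQB b hb))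
    · exact near_mono (by norm_num) (by norm_num) (near_symm (by norm_num) (near_BB (hQB a ha)))
    · exact near_mono (by norm_num) (by norm_num) (near_BB' (hQB a ha) (hQ.isClique ha hb hab))

/-- `BB` has measure close to `1 - 1/r` -/
lemma measure_BB (v u : V) (huv : u ≠ v) (hu : 1 - 3 / (r : ℝ) ≤ ∑ a ∈ NN E v u, x a) :
    1 - 1 / (r : ℝ) - 1 / 1000000 ≤ ∑ a ∈ BB E v u, x a := by
  have hx0 : ∀ v, 0 ≤ x v := fun v => (hx v).le
  by_contra hcon
  push Not at hcon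
  have h1 := clique_BB hr hE hS x hx hsum hL v u huv hu
  have h2 := clique_bound_one (Lnk E v) (r - 1) (rw' x (BB E v u)) (rw'_nonneg x hx0 _)
    (fun Q hQ => free_BB hS x v u Q hQ (by omega))
  rw [sum_rw'] at h2
  have h3 : (∑ a ∈ BB E v u, x a) ^ (r - 1) ≤ (1 - 1 / (r : ℝ) - 1 / 1000000) ^ (r - 1) :=
    pow_le_pow_left₀ (sum_nonneg fun a _ => hx0 a) hcon.le _
  have h4 := hL v
  have hcast : (((r - 1 : ℕ) : ℝ)) = (r : ℝ) - 1 := by
    rw [Nat.cast_sub (by omega)]; norm_num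
  rw [hcast] at h2
  have hp : (0 : ℝ) < ((r : ℝ) - 1) ^ (r - 1) := by subst hr; norm_num
  have h5 : ((r : ℝ) - 1) ^ (r - 1) * ((1 / (r : ℝ)) ^ (r - 1) - (3 / ((r : ℝ) * (r - 2))) ^ (r - 2))
      < ((r : ℝ) - 1) ^ (r - 1) * fw (rw' x (BB E v u)) ((Lnk E v).cliqueFinset (r - 1)) :=
    mul_lt_mul_of_pos_left (by linarith) hp
  have h6 : (1 - 1 / (r : ℝ) - 1 / 1000000) ^ (r - 1) ≤
      ((r : ℝ) - 1) ^ (r - 1) *
        ((1 / (r : ℝ)) ^ (r - 1) - (3 / ((r : ℝ) * (r - 2))) ^ (r - 2)) := by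
    subst hr; norm_num
  linarith

/-- the link of `v` has edge measure more than `1/4` inside `BB` -/
lemma edges_BB (v u : V) (huv : u ≠ v) (hu : 1 - 3 / (r : ℝ) ≤ ∑ a ∈ NN E v u, x a) :
    1 / 4 < fw (rw' x (BB E v u)) ((Lnk E v).cliqueFinset 2) := by
  have hx0 : ∀ v, 0 ≤ x v := fun v => (hx v).le
  by_contra hcon
  push Not at hcon
  have h1 := clique_BB hr hE hS x hx hsum hL v u huv hu
  have h2 := clique_bound_two (Lnk E v) (r - 1) (by omega) (rw' x (BB E v u))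
    (rw'_nonneg x hx0 _) (fun Q hQ => free_BB hS x v u Q hQ (by omega))
  have h3 : fw (rw' x (BB E v u)) ((Lnk E v).cliqueFinset 2) ^ (r - 1) ≤ (1 / 4) ^ (r - 1) :=
    pow_le_pow_left₀ (fw_nonneg _ (rw'_nonneg x hx0 _) _) hcon _
  have h4 := hL v
  have h5 : (1 / (r : ℝ)) ^ (r - 1) - (3 / ((r : ℝ) * (r - 2))) ^ (r - 2) ≤
      fw (rw' x (BB E v u)) ((Lnk E v).cliqueFinset (r - 1)) := by linarith
  have h6 : (0 : ℝ) ≤ (1 / (r : ℝ)) ^ (r - 1) - (3 / ((r : ℝ) * (r - 2))) ^ (r - 2) := by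
    subst hr; norm_num
  have h7 := pow_le_pow_left₀ h6 h5 2
  have h8 : (((r - 1).choose 2 : ℕ) : ℝ) ^ (r - 1) *
      ((1 / (r : ℝ)) ^ (r - 1) - (3 / ((r : ℝ) * (r - 2))) ^ (r - 2)) ^ 2 ≤ (1 / 4) ^ (r - 1) := by
    refine le_trans (mul_le_mul_of_nonneg_left h7 (by positivity)) (le_trans h2 h3)
  have h9 : (1 / 4 : ℝ) ^ (r - 1) < (((r - 1).choose 2 : ℕ) : ℝ) ^ (r - 1) *
      ((1 / (r : ℝ)) ^ (r - 1) - (3 / ((r : ℝ) * (r - 2))) ^ (r - 2)) ^ 2 := by
    subst hr; norm_num [Nat.choose]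
  linarith

end

end Pool.Agent.Helper45.Turan
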