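import Mathlib

/-! Counting words with pairwise different letters. -/

namespace Pool.Agent.Helper45.Turan

open Finset

variable {ι : Type} [Fintype ι] [DecidableEq ι] {r : ℕ}

open Classical in
/-- number of words injective on `I` and avoiding the letters in `A` on `I` -/
noncomputable def FF (I : Finset ι) (A : Finset (Fin r)) : ℕ :=
  ((univ : Finset (ι → Fin r)).filter
    (fun z => Set.InjOn z (I : Set ι) ∧ ∀ i ∈ I, z i ∉ A)).card

/-- a property not depending on the coordinate `i` is independent of this coordinate -/
lemma card_indep (i : ι) (a : Fin r) (P : (ι → Fin r) → Prop) [DecidablePred P]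
    (hP : ∀ z b, P (Function.update z i b) ↔ P z) :
    r * ((univ : Finset (ι → Fin r)).filter (fun z => z i = a ∧ P z)).card =
      ((univ : Finset (ι → Fin r)).filter P).card := by
  have h1 : r * ((univ : Finset (ι → Fin r)).filter (fun z => z i = a ∧ P z)).card =
      ((univ : Finset (Fin r)) ×ˢ
        (univ : Finset (ι → Fin r)).filter (fun z => z i = a ∧ P z)).card := by
    rw [card_product, card_univ, Fintype.card_fin]
  rw [h1]
  refine card_nbij' (fun bz => Function.update bz.2 i bz.1)
    (fun z => (z i, Function.update z i a)) ?_ ?_ ?_ ?_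
  · rintro ⟨b, z⟩ hz
    simp only [coe_product, coe_univ, coe_filter, mem_univ, true_and, Set.mem_prod, Set.mem_univ,
      Set.mem_ofPred_eq] at hz ⊢
    exact (hP z b).mpr hz.2
  · intro z hz
    simp only [coe_product, coe_univ, coe_filter, mem_univ, true_and, Set.mem_prod, Set.mem_univ,
      Set.mem_ofPred_eq] at hz ⊢
    exact ⟨Function.update_self _ _ _, (hP z a).mpr hz⟩
  · rintro ⟨b, z⟩ hz
    simp only [coe_product, coe_univ, coe_filter, mem_univ, true_and, Set.mem_prod, Set.mem_univ,
      Set.mem_ofPred_eq] at hz
    simp only [Function.update_self, Function.update_idem, Prod.mk.injEq, true_and]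
    rw [← hz.1, Function.update_eq_self]
  · intro z _
    simp only [Function.update_idem, Function.update_eq_self]

theorem FF_eq (I : Finset ι) : ∀ A : Finset (Fin r),
    FF I A * r ^ I.card = (r - A.card).descFactorial I.card * r ^ Fintype.card ι := by
  classical
  induction I using Finset.induction_on with
  | empty =>
    intro A
    unfold FF
    simp
  | insert i I hi ih =>
    intro A
    have h1 : FF (insert i I) A = ∑ a ∈ univ \ A,
        ((univ : Finset (ι → Fin r)).filter (fun z => z i = a ∧
          (Set.InjOn z (I : Set ι) ∧ ∀ j ∈ I, z j ∉ insert a A))).card := by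
      unfold FF
      rw [← card_biUnion]
      · congr 1
        ext z
        simp only [mem_filter, mem_univ, true_and, mem_biUnion, mem_sdiff, mem_insert, not_or]
        constructor
        · rintro ⟨h1, h2⟩
          refine ⟨z i, h2 i (Or.inl rfl), rfl, ?_, ?_⟩
          · exact h1.mono (by intro j hj; simp only [coe_insert, Set.mem_insert_iff]; right; exact hj)
          · intro j hj
            refine ⟨?_, h2 j (Or.inr hj)⟩
            intro h
            have := h1 (by simp [hj]) (by simp) h
            exact hi (this ▸ hj)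
        · rintro ⟨a, ha, rfl, h1, h2⟩
          refine ⟨?_, ?_⟩
          · rw [coe_insert, Set.injOn_insert (by simpa using hi)]
            refine ⟨h1, ?_⟩
            rintro ⟨j, hj, hji⟩
            exact (h2 j hj).1 hji
          · rintro j (rfl | hj)
            · exact ha
            · exact (h2 j hj).2
      · intro a _ b _ hab
        rw [Function.onFun, disjoint_left]
        intro z hz hz'
        simp only [mem_filter, mem_univ, true_and] at hz hz'
        exact hab (hz.1.symm.trans hz'.1)
    have h2 : ∀ a ∈ univ \ A, r * ((univ : Finset (ι → Fin r)).filter (fun z => z i = a ∧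
          (Set.InjOn z (I : Set ι) ∧ ∀ j ∈ I, z j ∉ insert a A))).card = FF I (insert a A) := by
      intro a _
      rw [card_indep i a]
      · rfl
      · intro z b
        have hne : ∀ j ∈ I, Function.update z i b j = z j := by
          intro j hj
          have hji : j ≠ i := fun h => hi (h ▸ hj)
          exact Function.update_of_ne hji _ _
        constructor
        · rintro ⟨h3, h4⟩
          refine ⟨?_, ?_⟩
          · intro j hj k hk hjk
            exact h3 hj hk (by rw [hne j hj, hne k hk]; exact hjk)
          · intro j hj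
            rw [← hne j hj]
            exact h4 j hj
        · rintro ⟨h3, h4⟩
          refine ⟨?_, ?_⟩
          · intro j hj k hk hjk
            rw [hne j hj, hne k hk] at hjk
            exact h3 hj hk hjk
          · intro j hj
            rw [hne j hj]
            exact h4 j hj
    rw [card_insert_of_notMem hi, h1, sum_mul]
    have h3 : ∀ a ∈ univ \ A, ((univ : Finset (ι → Fin r)).filter (fun z => z i = a ∧
          (Set.InjOn z (I : Set ι) ∧ ∀ j ∈ I, z j ∉ insert a A))).card * r ^ (I.card + 1) =
        (r - A.card - 1).descFactorial I.card * r ^ Fintype.card ι := by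
      intro a ha
      have h4 : (insert a A).card = A.card + 1 := by
        rw [card_insert_of_notMem]
        exact (mem_sdiff.mp ha).2
      have h5 := ih (insert a A)
      rw [← h2 a ha, h4] at h5
      rw [show r - A.card - 1 = r - (A.card + 1) by omega, ← h5, pow_succ]
      ring
    rw [sum_congr rfl h3, sum_const, smul_eq_mul, card_univ_sdiff, Fintype.card_fin]
    rcases Nat.eq_zero_or_pos (r - A.card) with h0 | h0
    · rw [h0]; simp
    · obtain ⟨m, hm⟩ : ∃ m, r - A.card = m + 1 := ⟨r - A.card - 1, by omega⟩
      rw [hm, Nat.succ_descFactorial_succ, Nat.succ_sub_one]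
      ring

/-- words equal to `a` on `I` -/
lemma card_eq_on (I : Finset ι) (a : Fin r) :
    ((univ : Finset (ι → Fin r)).filter (fun z => ∀ i ∈ I, z i = a)).card * r ^ I.card =
      r ^ Fintype.card ι := by
  have h1 : (univ : Finset (ι → Fin r)).filter (fun z => ∀ i ∈ I, z i = a) =
      Fintype.piFinset (fun i => if i ∈ I then {a} else univ) := by
    ext z
    simp only [mem_filter, mem_univ, true_and, Fintype.mem_piFinset]
    refine forall_congr' fun i => ?_
    by_cases hi : i ∈ I <;> simp [hi]
  rw [h1, Fintype.card_piFinset, ← prod_sdiff (subset_univ I)]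
  have h2 : ∏ i ∈ I, (if i ∈ I then ({a} : Finset (Fin r)) else univ).card = 1 := by
    refine prod_eq_one fun i hi => ?_
    rw [if_pos hi, card_singleton]
  have h3 : ∏ i ∈ univ \ I, (if i ∈ I then ({a} : Finset (Fin r)) else univ).card =
      r ^ (Fintype.card ι - I.card) := by
    rw [← card_univ_sdiff, ← prod_const]
    refine prod_congr rfl fun i hi => ?_
    rw [if_neg (mem_sdiff.mp hi).2, card_univ, Fintype.card_fin]
  rw [h2, h3, mul_one, ← pow_add]
  congr 1
  have := card_le_univ I
  omega

/-- words constant on `I` -/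
lemma card_const (I : Finset ι) (hI : I.Nonempty) :
    ((univ : Finset (ι → Fin r)).filter (fun z => ∀ a ∈ I, ∀ b ∈ I, z a = z b)).card *
      r ^ (I.card - 1) = r ^ Fintype.card ι := by
  obtain ⟨i, hi⟩ := hI
  have h1 : (univ : Finset (ι → Fin r)).filter (fun z => ∀ a ∈ I, ∀ b ∈ I, z a = z b) =
      (univ : Finset (Fin r)).biUnion
        (fun c => (univ : Finset (ι → Fin r)).filter (fun z => ∀ i ∈ I, z i = c)) := by
    ext z
    simp only [mem_filter, mem_univ, true_and, mem_biUnion]
    constructor
    · intro h
      exact ⟨z i, fun j hj => h j hj i hi⟩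
    · rintro ⟨c, hc⟩ a ha b hb
      rw [hc a ha, hc b hb]
  rw [h1, card_biUnion]
  · rw [sum_mul]
    have hc : I.card = (I.card - 1) + 1 := by
      have : 0 < I.card := card_pos.mpr ⟨i, hi⟩
      omega
    rcases Nat.eq_zero_or_pos r with hr | hr
    · subst hr
      rw [show (univ : Finset (Fin 0)) = ∅ from rfl, sum_empty]
      have : 0 < Fintype.card ι := Fintype.card_pos_iff.mpr ⟨i⟩
      rw [zero_pow (by omega)]
    have h2 : ∀ c ∈ (univ : Finset (Fin r)),
        r * (((univ : Finset (ι → Fin r)).filter (fun z => ∀ i ∈ I, z i = c)).card *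
          r ^ (I.card - 1)) = r ^ Fintype.card ι := by
      intro c _
      rw [← card_eq_on I c]
      conv_rhs => rw [hc, pow_succ]
      ring
    have h3 : r * ∑ c : Fin r, ((univ : Finset (ι → Fin r)).filter
        (fun z => ∀ i ∈ I, z i = c)).card * r ^ (I.card - 1) = r * r ^ Fintype.card ι := by
      rw [mul_sum, sum_congr rfl h2, sum_const, card_univ, Fintype.card_fin, smul_eq_mul]
    exact Nat.eq_of_mul_eq_mul_left hr h3
  · intro a _ b _ hab
    rw [Function.onFun, disjoint_left]
    intro z hz hz'
    simp only [mem_filter, mem_univ, true_and] at hz hz'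
    exact hab ((hz i hi).symm.trans (hz' i hi))

/-- forced letters -/
def lett (S : Finset ι) (c : ι → Fin r) (z : ι → Fin r) (i : ι) : Fin r :=
  if i ∈ S then c i else z i

lemma injOn_lett (S : Finset ι) (c z : ι → Fin r) (I : Finset ι)
    (hc : Set.InjOn c ((I ∩ S : Finset ι) : Set ι)) :
    Set.InjOn (lett S c z) (I : Set ι) ↔
      (Set.InjOn z ((I \ S : Finset ι) : Set ι) ∧ ∀ i ∈ I \ S, z i ∉ (I ∩ S).image c) := by
  constructor
  · intro h
    refine ⟨?_, ?_⟩
    · intro a ha b hb hab
      rw [mem_coe, mem_sdiff] at ha hb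
      apply h ha.1 hb.1
      simp only [lett, if_neg ha.2, if_neg hb.2, hab]
    · intro i hi hi'
      rw [mem_sdiff] at hi
      rw [mem_image] at hi'
      obtain ⟨j, hj, hji⟩ := hi'
      rw [mem_inter] at hj
      have := h hj.1 hi.1 (by simp only [lett, if_pos hj.2, if_neg hi.2, hji])
      exact hi.2 (this ▸ hj.2)
  · rintro ⟨h1, h2⟩ a ha b hb hab
    rw [mem_coe] at ha hb
    by_cases ha' : a ∈ S <;> by_cases hb' : b ∈ S
    · simp only [lett, if_pos ha', if_pos hb'] at hab
      exact hc (by simp [ha, ha']) (by simp [hb, hb']) hab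
    · simp only [lett, if_pos ha', if_neg hb'] at hab
      exact absurd (mem_image.mpr ⟨a, mem_inter.mpr ⟨ha, ha'⟩, hab⟩)
        (h2 b (mem_sdiff.mpr ⟨hb, hb'⟩))
    · simp only [lett, if_neg ha', if_pos hb'] at hab
      exact absurd (mem_image.mpr ⟨b, mem_inter.mpr ⟨hb, hb'⟩, hab.symm⟩)
        (h2 a (mem_sdiff.mpr ⟨ha, ha'⟩))
    · simp only [lett, if_neg ha', if_neg hb'] at hab
      exact h1 (by simp [ha, ha']) (by simp [hb, hb']) hab

open Classical in
/-- number of words with different letters on `I` -/
noncomputable def AA (S : Finset ι) (c : ι → Fin r) (I : Finset ι) : ℕ :=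
  ((univ : Finset (ι → Fin r)).filter (fun z => Set.InjOn (lett S c z) (I : Set ι))).card

open Classical in
/-- number of words with equal letters on `I` -/
noncomputable def BBc (S : Finset ι) (c : ι → Fin r) (I : Finset ι) : ℕ :=
  ((univ : Finset (ι → Fin r)).filter
    (fun z => ∀ a ∈ I, ∀ b ∈ I, lett S c z a = lett S c z b)).card

lemma AA_eq (S : Finset ι) (c : ι → Fin r) (I : Finset ι)
    (hc : Set.InjOn c ((I ∩ S : Finset ι) : Set ι)) :
    AA S c I * r ^ (I \ S).card =
      (r - (I ∩ S).card).descFactorial (I \ S).card * r ^ Fintype.card ι := by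
  have h1 : AA S c I = FF (I \ S) ((I ∩ S).image c) := by
    unfold AA FF
    congr 1
    ext z
    simp only [mem_filter, mem_univ, true_and]
    exact injOn_lett S c z I hc
  rw [h1, FF_eq, card_image_of_injOn hc]

lemma BB_eq_zero (S : Finset ι) (c : ι → Fin r) (I : Finset ι) (hI : I.Nonempty)
    (hS : I ∩ S = ∅) : BBc S c I * r ^ (I.card - 1) = r ^ Fintype.card ι := by
  rw [← card_const I hI]
  unfold BBc
  congr 2
  ext z
  simp only [mem_filter, mem_univ, true_and]
  have h : ∀ a ∈ I, lett S c z a = z a := by
    intro a ha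
    have : a ∉ S := fun h => by
      have := mem_inter.mpr ⟨ha, h⟩
      rw [hS] at this
      exact absurd this (notMem_empty _)
    simp only [lett, if_neg this]
  constructor
  · intro h1 a ha b hb
    have := h1 a ha b hb
    rwa [h a ha, h b hb] at this
  · intro h1 a ha b hb
    rw [h a ha, h b hb]
    exact h1 a ha b hb

lemma BB_eq_one (S : Finset ι) (c : ι → Fin r) (I : Finset ι) (s : ι)
    (hS : I ∩ S = {s}) : BBc S c I * r ^ (I.card - 1) = r ^ Fintype.card ι := by
  have hs : s ∈ I ∧ s ∈ S := by
    have : s ∈ I ∩ S := by rw [hS]; exact mem_singleton_self s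
    exact mem_inter.mp this
  have hcard : (I \ S).card = I.card - 1 := by
    have := card_sdiff_add_card_inter I S
    rw [hS, card_singleton] at this
    omega
  rw [← hcard, ← card_eq_on (I \ S) (c s)]
  unfold BBc
  congr 2
  ext z
  simp only [mem_filter, mem_univ, true_and]
  constructor
  · intro h1 i hi
    rw [mem_sdiff] at hi
    have := h1 i hi.1 s hs.1
    simpa only [lett, if_neg hi.2, if_pos hs.2] using this
  · intro h1
    have h2 : ∀ a ∈ I, lett S c z a = c s := by
      intro a ha
      by_cases haS : a ∈ S
      · have : a ∈ I ∩ S := mem_inter.mpr ⟨ha, haS⟩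
        rw [hS, mem_singleton] at this
        subst this
        simp only [lett, if_pos haS]
      · simp only [lett, if_neg haS]
        exact h1 a (mem_sdiff.mpr ⟨ha, haS⟩)
    intro a ha b hb
    rw [h2 a ha, h2 b hb]

end Pool.Agent.Helper45.Turan
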