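import Mathlib

namespace Pool.Agent.Helper45.Turan

/-- `E` (a set of finite sets of vertices) is the edge set of an `r`-graph. -/
def IsRGraph {V : Type} (r : ℕ) (E : Set (Finset V)) : Prop := ∀ e ∈ E, e.card = r

/-- `E` is the edge set of a `t`-partite `r`-graph, where `part v` is the index of the part
containing the vertex `v`: all the `t` parts are nonempty, every edge has `r` vertices, and every
edge meets every part in at most one vertex. -/
def IsPartite {V : Type} (r : ℕ) {t : ℕ} (part : V → Fin t) (E : Set (Finset V)) : Prop :=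
  Function.Surjective part ∧ ∀ e ∈ E, e.card = r ∧ Set.InjOn part (e : Set V)

/-- The density on the set `I` of parts: the number of edges meeting all the parts in `I`
divided by the product of the sizes of these parts. -/
noncomputable def density {V : Type} {t : ℕ} (part : V → Fin t) (E : Set (Finset V))
    (I : Finset (Fin t)) : ℝ :=
  ({e ∈ E | ∀ i ∈ I, ∃ v ∈ e, part v = i}.ncard : ℝ) / ∏ i ∈ I, ((part ⁻¹' {i}).ncard : ℝ)

/-- The hypergraph `E` contains a copy of the hypergraph `H`. -/
def Contains {W V : Type} (H : Set (Finset W)) (E : Set (Finset V)) : Prop :=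
  ∃ φ : W ↪ V, ∀ e ∈ H, e.map φ ∈ E

/-- `d_t(H)` for the `r`-graph `H`. -/
noncomputable def dt {W : Type} (r t : ℕ) (H : Set (Finset W)) : ℝ :=
  sInf {α : ℝ | 0 ≤ α ∧ α ≤ 1 ∧ ∀ (V : Type) [Finite V] (part : V → Fin t) (E : Set (Finset V)),
    IsPartite r part E → (∀ I : Finset (Fin t), I.card = r → α ≤ density part E I) →
      Contains H E}

/-- The variant of `d_t(H)` in which only the `t`-partite `r`-graphs all of whose parts have at
least `N` vertices are considered. -/
noncomputable def dtLarge {W : Type} (N r t : ℕ) (H : Set (Finset W)) : ℝ :=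
  sInf {α : ℝ | 0 ≤ α ∧ α ≤ 1 ∧ ∀ (V : Type) [Finite V] (part : V → Fin t) (E : Set (Finset V)),
    IsPartite r part E → (∀ i, N ≤ (part ⁻¹' {i}).ncard) →
      (∀ I : Finset (Fin t), I.card = r → α ≤ density part E I) → Contains H E}

end Pool.Agent.Helper45.Turan
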