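import Pool.Agent.Helper45.Turan.Upper

/-! Conclusion. -/

namespace Pool.Agent.Helper45.Turan

open Finset

lemma dt_eq {W : Type} (r t : ℕ) (H : Set (Finset W)) : dt r t H = dtLarge 0 r t H := by
  unfold dt dtLarge
  congr 1
  ext α
  simp

/-- density one forces a copy when there are enough parts -/
lemma one_mem {W : Type} [Fintype W] {r t : ℕ} (H : Set (Finset W))
    (hH : IsRGraph r H) (ht : Fintype.card W ≤ t) (V : Type) [Finite V] (part : V → Fin t)
    (E : Set (Finset V)) (hP : IsPartite r part E)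
    (hden : ∀ I : Finset (Fin t), I.card = r → 1 ≤ density part E I) : Contains H E := by
  classical
  have : Fintype V := Fintype.ofFinite V
  have hall : ∀ g ∈ Trv part, ∀ I : Finset (Fin t), I.card = r → I.image g ∈ E := by
    intro g hg I hI
    have h1 := tcount_eq part E hP I hI
    have h2 : ((Trv part).card : ℝ) ≤ tcount part E I := by
      rw [h1]
      have := mul_le_mul_of_nonneg_right (hden I hI) (Nat.cast_nonneg (Trv part).card)
      linarith
    have h3 : (Trv part).card ≤ tcount part E I := by exact_mod_cast h2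
    have h4 : (Trv part).filter (fun g => I.image g ∈ E) = Trv part := by
      apply eq_of_subset_of_card_le (filter_subset _ _)
      refine le_trans h3 (le_of_eq ?_)
      unfold tcount
      congr!
    rw [← h4, mem_filter] at hg
    exact hg.2
  obtain ⟨g, hg⟩ := card_pos.mp (Trv_pos part hP.1)
  have hginj : Function.Injective g := by
    intro i j hij
    have hg' := (mem_Trv part g).mp hg
    rw [← hg' i, ← hg' j, hij]
  obtain ⟨ι⟩ : Nonempty (W ↪ Fin t) := by
    rw [Function.Embedding.nonempty_iff_card_le, Fintype.card_fin]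
    exact ht
  refine ⟨ι.trans ⟨g, hginj⟩, fun e he => ?_⟩
  rw [← map_map, map_eq_image (⟨g, hginj⟩ : Fin t ↪ V)]
  exact hall g hg _ (by rw [card_map]; exact hH e he)

lemma set_nonempty {W : Type} [Fintype W] {r t : ℕ} (H : Set (Finset W)) (N : ℕ)
    (hH : IsRGraph r H) (ht : Fintype.card W ≤ t) :
    (1 : ℝ) ∈ {α : ℝ | 0 ≤ α ∧ α ≤ 1 ∧ ∀ (V : Type) [Finite V] (part : V → Fin t)
      (E : Set (Finset V)), IsPartite r part E → (∀ i, N ≤ (part ⁻¹' {i}).ncard) →
      (∀ I : Finset (Fin t), I.card = r → α ≤ density part E I) → Contains H E} := by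
  refine ⟨zero_le_one, le_refl _, ?_⟩
  intro V _ part E hP _ hden
  exact one_mem H hH ht V part E hP hden

lemma HH_rgraph : IsRGraph 20 HH := HH_card

theorem lower_dt (t : ℕ) (ht : Fintype.card W ≤ t) :
    ∃ δ : ℝ, 0 < δ ∧ ∀ N : ℕ, ell + δ ≤ dtLarge N 20 t HH := by
  obtain ⟨δ, hδ, h⟩ := lower_graph t
  refine ⟨δ, hδ, fun N => ?_⟩
  unfold dtLarge
  refine le_csInf ⟨1, set_nonempty HH N HH_rgraph ht⟩ ?_
  rintro α ⟨_, _, hα⟩
  by_contra hcon
  push Not at hcon
  obtain ⟨V, _, part, E, hP, hN, hH, hD⟩ := h N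
  exact hH (hα V part E hP hN (fun I hI => le_trans hcon.le (hD I hI)))

theorem upper_dt (ε : ℝ) (hε : 0 < ε) :
    ∃ T : ℕ, ∀ t ≥ T, ∀ N : ℕ, dtLarge N 20 t HH ≤ ell + ε := by
  obtain ⟨T, hT⟩ := upper ε hε
  refine ⟨max T (Fintype.card W), fun t ht N => ?_⟩
  have ht1 : T ≤ t := le_trans (le_max_left _ _) ht
  have ht2 : Fintype.card W ≤ t := le_trans (le_max_right _ _) ht
  have hbdd : BddBelow {α : ℝ | 0 ≤ α ∧ α ≤ 1 ∧ ∀ (V : Type) [Finite V] (part : V → Fin t)
      (E : Set (Finset V)), IsPartite 20 part E → (∀ i, N ≤ (part ⁻¹' {i}).ncard) →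
      (∀ I : Finset (Fin t), I.card = 20 → α ≤ density part E I) → Contains HH E} :=
    ⟨0, fun α hα => hα.1⟩
  by_cases h1 : ell + ε ≤ 1
  · refine csInf_le hbdd ⟨?_, h1, ?_⟩
    · have := ell_nonneg
      linarith
    · intro V _ part E hP _ hden
      exact hT t ht1 V part E hP hden
  · refine le_trans (csInf_le hbdd (set_nonempty HH N HH_rgraph ht2)) ?_
    push Not at h1
    exact h1.le

theorem never_constant (t₀ : ℕ) (ht : Fintype.card W ≤ t₀) :
    ∃ t > t₀, ∀ N N' : ℕ, dtLarge N 20 t HH < dtLarge N' 20 t₀ HH := by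
  obtain ⟨δ, hδ, h1⟩ := lower_dt t₀ ht
  obtain ⟨T, hT⟩ := upper_dt (δ / 2) (by positivity)
  refine ⟨max T (t₀ + 1), ?_, fun N N' => ?_⟩
  · exact lt_of_lt_of_le (Nat.lt_succ_self t₀) (le_max_right _ _)
  · have h2 := hT (max T (t₀ + 1)) (le_max_left _ _) N
    have h3 := h1 N'
    linarith

end Pool.Agent.Helper45.Turan
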