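import Pool.Agent.Helper45.Turan.Near

/-! The `20`-graph `H`. -/

namespace Pool.Agent.Helper45.Turan

open Finset

/-- the vertices of `H` -/
abbrev W : Type := Bool ⊕ (Fin 21 ⊕ ((Fin 21 × Fin 21) × (Fin 20 × (Bool ⊕ Fin 16))))

/-- the hub -/
def hub (ε : Bool) : W := Sum.inl ε
/-- the core -/
def core (a : Fin 21) : W := Sum.inr (Sum.inl a)
/-- pairs in the chains -/
def chn (ab : Fin 21 × Fin 21) (l : Fin 20) (ε : Bool) : W := Sum.inr (Sum.inr (ab, l, Sum.inl ε))
/-- filling vertices -/
def fil (ab : Fin 21 × Fin 21) (l : Fin 20) (m : Fin 16) : W :=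
  Sum.inr (Sum.inr (ab, l, Sum.inr m))

/-- the pair number `l` of a chain -/
def nu (ab : Fin 21 × Fin 21) (l : ℕ) (ε : Bool) : W :=
  if l = 0 then hub ε else if h : l < 20 then chn ab ⟨l, h⟩ ε else core (cond ε ab.2 ab.1)

/-- the vertices of an edge -/
def mu (ab : Fin 21 × Fin 21) (l : Fin 20) : Bool ⊕ (Bool ⊕ Fin 16) → W
  | Sum.inl ε => nu ab l ε
  | Sum.inr (Sum.inl ε) => nu ab (l + 1) ε
  | Sum.inr (Sum.inr m) => fil ab l m

/-- the `20`-graph `H` -/
def HH : Set (Finset W) :=
  {e | ∃ ab : Fin 21 × Fin 21, ab.1 ≠ ab.2 ∧ ∃ l : Fin 20, e = univ.image (mu ab l)}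

lemma nu_zero (ab : Fin 21 × Fin 21) (ε : Bool) : nu ab 0 ε = hub ε := by simp [nu]

lemma nu_last (ab : Fin 21 × Fin 21) (ε : Bool) : nu ab 20 ε = core (cond ε ab.2 ab.1) := by
  simp [nu]

lemma nu_mid (ab : Fin 21 × Fin 21) (l : ℕ) (h0 : l ≠ 0) (h : l < 20) (ε : Bool) :
    nu ab l ε = chn ab ⟨l, h⟩ ε := by
  simp [nu, h0, h]

lemma mu_injective (ab : Fin 21 × Fin 21) (hab : ab.1 ≠ ab.2) (l : Fin 20) :
    Function.Injective (mu ab l) := by
  have hinj : ∀ k : ℕ, Function.Injective (nu ab k) := by
    intro k ε ε' h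
    unfold nu at h
    split_ifs at h with h1 h2
    · simpa [hub] using h
    · simpa [chn] using h
    · simp only [core, Sum.inr.injEq, Sum.inl.injEq] at h
      cases ε <;> cases ε' <;> simp_all
  have hne : ∀ (k : ℕ), k < 20 → ∀ ε ε', nu ab k ε ≠ nu ab (k + 1) ε' := by
    intro k hk ε ε' h
    unfold nu at h
    split_ifs at h <;> simp_all [hub, chn, core]
  have hfil : ∀ (k : ℕ) ε m, nu ab k ε ≠ fil ab l m := by
    intro k ε m h
    unfold nu at h
    split_ifs at h <;> simp_all [hub, chn, core, fil]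
  rintro (ε | ε | m) (ε' | ε' | m') h
  · simp only [mu] at h
    rw [hinj _ h]
  · exact absurd h (hne _ l.2 _ _)
  · exact absurd h (hfil _ _ _)
  · exact absurd h.symm (hne _ l.2 _ _)
  · simp only [mu] at h
    rw [hinj _ h]
  · exact absurd h (hfil _ _ _)
  · exact absurd h.symm (hfil _ _ _)
  · exact absurd h.symm (hfil _ _ _)
  · simp only [mu, fil, Sum.inr.injEq, Prod.mk.injEq, true_and] at h
    rw [h]

lemma HH_card : ∀ e ∈ HH, e.card = 20 := by
  rintro e ⟨ab, hab, l, rfl⟩
  rw [card_image_of_injective _ (mu_injective ab hab l), card_univ]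
  simp

/-- homomorphisms -/
def Hom {W V : Type*} [DecidableEq V] (H : Set (Finset W)) (E : Set (Finset V)) : Prop :=
  ∃ φ : W → V, ∀ e ∈ H, e.image φ ∈ E

section

variable {V : Type*} [DecidableEq V] {E : Finset (Finset V)}

lemma near_ne' {p q : V} (hpq : p ≠ q) {k : ℕ} {c d : V} (h : Near E p q k c d) : c ≠ d := by
  cases k with
  | zero => obtain ⟨rfl, rfl⟩ := h; exact hpq
  | succ k => exact h.1

lemma near_chain (hE : ∀ e ∈ E, e.card = 20) {p q : V} (hpq : p ≠ q) {k : ℕ} {c d : V}
    (h : Near E p q k c d) :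
    ∃ x : ℕ → Bool → V, x 0 false = p ∧ x 0 true = q ∧ x (2 * k) false = c ∧
      x (2 * k) true = d ∧ ∀ l < 2 * k, ∃ e ∈ E,
        Function.Injective (Sum.elim (x l) (x (l + 1))) ∧
        ∀ s, Sum.elim (x l) (x (l + 1)) s ∈ e := by
  induction k generalizing c d with
  | zero =>
    obtain ⟨rfl, rfl⟩ := h
    exact ⟨fun _ ε => cond ε d c, rfl, rfl, rfl, rfl, by intro l hl; omega⟩
  | succ k ih =>
    obtain ⟨hcd, e, he, hc, hd, a, b, ha, hb, hab⟩ := h
    have hab' : a ≠ b := near_ne' hpq hab
    obtain ⟨x, x1, x2, x3, x4, x5⟩ := ih hab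
    -- two new vertices of `e`
    have hcard : 2 ≤ (e \ {a, b, c, d}).card := by
      have h1 : ({a, b, c, d} : Finset V).card ≤ 4 := card_le_four
      have h2 := le_card_sdiff ({a, b, c, d} : Finset V) e
      rw [hE e he] at h2
      omega
    obtain ⟨u, hu, w, hw, huw⟩ := one_lt_card.mp hcard
    simp only [mem_sdiff, mem_insert, mem_singleton, not_or] at hu hw
    obtain ⟨hue, hua, hub', huc, hud⟩ := hu
    obtain ⟨hwe, hwa, hwb, hwc, hwd⟩ := hw
    obtain ⟨x', y1, y2, y3⟩ : ∃ x' : ℕ → Bool → V, (∀ l ≤ 2 * k, x' l = x l) ∧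
        x' (2 * k + 1) = (fun ε => cond ε w u) ∧ x' (2 * k + 1 + 1) = (fun ε => cond ε d c) := by
      refine ⟨fun l ε => if l ≤ 2 * k then x l ε else if l = 2 * k + 1 then cond ε w u else
        cond ε d c, ?_, ?_, ?_⟩
      · intro l hl
        funext ε
        simp only [if_pos hl]
      · funext ε
        show (if 2 * k + 1 ≤ 2 * k then x (2 * k + 1) ε else
          if 2 * k + 1 = 2 * k + 1 then cond ε w u else cond ε d c) = cond ε w u
        rw [if_neg (by omega), if_pos rfl]
      · funext ε
        show (if 2 * k + 1 + 1 ≤ 2 * k then x (2 * k + 1 + 1) ε else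
          if 2 * k + 1 + 1 = 2 * k + 1 then cond ε w u else cond ε d c) = cond ε d c
        rw [if_neg (by omega), if_neg (by omega)]
    have h2k : 2 * (k + 1) = 2 * k + 1 + 1 := by ring
    rw [h2k]
    refine ⟨x', ?_, ?_, ?_, ?_, ?_⟩
    · rw [y1 0 (by omega), x1]
    · rw [y1 0 (by omega), x2]
    · rw [y3]; rfl
    · rw [y3]; rfl
    · intro l hl
      by_cases hl1 : l < 2 * k
      · obtain ⟨f, hf, h1, h2⟩ := x5 l hl1
        rw [y1 l (by omega), y1 (l + 1) (by omega)]
        exact ⟨f, hf, h1, h2⟩
      · by_cases hl2 : l = 2 * k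
        · subst hl2
          rw [y1 (2 * k) le_rfl, y2]
          refine ⟨e, he, ?_, ?_⟩
          · rintro ((_ | _) | (_ | _)) ((_ | _) | (_ | _)) h <;>
              simp only [Sum.elim_inl, Sum.elim_inr, cond_true, cond_false, x3, x4] at h <;>
              first
              | rfl
              | (exfalso; first
                | exact hab' h
                | exact hab' h.symm
                | exact hua h
                | exact hua h.symm
                | exact hub' h
                | exact hub' h.symm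
                | exact hwa h
                | exact hwa h.symm
                | exact hwb h
                | exact hwb h.symm
                | exact huw h
                | exact huw h.symm)
          · rintro ((_ | _) | (_ | _)) <;>
              simp only [Sum.elim_inl, Sum.elim_inr, cond_true, cond_false, x3, x4] <;> assumption
        · have hl3 : l = 2 * k + 1 := by omega
          subst hl3
          rw [y2, y3]
          refine ⟨e, he, ?_, ?_⟩
          · rintro ((_ | _) | (_ | _)) ((_ | _) | (_ | _)) h <;>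
              simp only [Sum.elim_inl, Sum.elim_inr, cond_true, cond_false] at h <;>
              first
              | rfl
              | (exfalso; first
                | exact hcd h
                | exact hcd h.symm
                | exact huc h
                | exact huc h.symm
                | exact hud h
                | exact hud h.symm
                | exact hwc h
                | exact hwc h.symm
                | exact hwd h
                | exact hwd h.symm
                | exact huw h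
                | exact huw h.symm)
          · rintro ((_ | _) | (_ | _)) <;>
              simp only [Sum.elim_inl, Sum.elim_inr, cond_true, cond_false] <;> assumption

/-- completing four vertices of an edge -/
lemma fill (e : Finset V) (he : e.card = 20) (y : Bool ⊕ Bool → V) (hy : Function.Injective y)
    (hye : ∀ s, y s ∈ e) : ∃ g : Fin 16 → V, e = univ.image y ∪ univ.image g := by
  have h1 : univ.image y ⊆ e := by
    intro v hv
    rw [mem_image] at hv
    obtain ⟨s, _, rfl⟩ := hv
    exact hye s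
  have h2 : (e \ univ.image y).card = 16 := by
    rw [card_sdiff_of_subset h1, card_image_of_injective _ hy, he]
    rfl
  let g := ((e \ univ.image y).equivFinOfCardEq h2).symm
  refine ⟨fun m => (g m : V), ?_⟩
  have h3 : univ.image (fun m => (g m : V)) = e \ univ.image y := by
    ext v
    rw [mem_image]
    constructor
    · rintro ⟨m, _, rfl⟩
      exact (g m).2
    · intro hv
      exact ⟨g.symm ⟨v, hv⟩, mem_univ _, by simp⟩
  rw [h3, union_sdiff_of_subset h1]

/-- graphs without homomorphic image of `H` are star-free -/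
theorem star_of_not_hom (hE : ∀ e ∈ E, e.card = 20) (h : ¬ Hom HH (E : Set (Finset V))) :
    Star E 20 10 := by
  intro p q hpq Q hQ hQQ
  apply h
  let c := (Q.equivFinOfCardEq hQ).symm
  have hc : ∀ ab : Fin 21 × Fin 21, ab.1 ≠ ab.2 → Near E p q 10 (c ab.1 : V) (c ab.2 : V) := by
    intro ab hab
    exact hQQ _ (c ab.1).2 _ (c ab.2).2 (fun h => hab (c.injective (Subtype.ext h)))
  have hx : ∀ ab : Fin 21 × Fin 21, ∃ x : ℕ → Bool → V, ab.1 ≠ ab.2 →
      (x 0 false = p ∧ x 0 true = q ∧ x 20 false = c ab.1 ∧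
      x 20 true = c ab.2 ∧ ∀ l < 20, ∃ e ∈ E,
        Function.Injective (Sum.elim (x l) (x (l + 1))) ∧
        ∀ s, Sum.elim (x l) (x (l + 1)) s ∈ e) := by
    intro ab
    by_cases hab : ab.1 = ab.2
    · exact ⟨fun _ _ => p, fun h => absurd hab h⟩
    · obtain ⟨x, hx⟩ := near_chain hE hpq (hc ab hab)
      exact ⟨x, fun _ => hx⟩
  choose x hx using hx
  have hg : ∀ (ab : Fin 21 × Fin 21) (l : Fin 20), ∃ g : Fin 16 → V, ab.1 ≠ ab.2 →
      univ.image (Sum.elim (x ab l) (x ab (l + 1))) ∪ univ.image g ∈ E := by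
    intro ab l
    by_cases hab : ab.1 = ab.2
    · exact ⟨fun _ => p, fun h => absurd hab h⟩
    · obtain ⟨e, he, h1, h2⟩ := (hx ab hab).2.2.2.2 l l.2
      obtain ⟨g, hg⟩ := fill e (hE e he) _ h1 h2
      refine ⟨g, fun _ => ?_⟩
      rw [← hg]; exact he
  choose g hg using hg
  let φ : W → V := fun w => match w with
    | Sum.inl ε => cond ε q p
    | Sum.inr (Sum.inl a) => c a
    | Sum.inr (Sum.inr (ab, l, Sum.inl ε)) => x ab l ε
    | Sum.inr (Sum.inr (ab, l, Sum.inr m)) => g ab l m
  have hφnu : ∀ ab : Fin 21 × Fin 21, ab.1 ≠ ab.2 → ∀ l ≤ 20, ∀ ε, φ (nu ab l ε) = x ab l ε := by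
    intro ab hab l hl ε
    obtain ⟨x1, x2, x3, x4, _⟩ := hx ab hab
    by_cases h0 : l = 0
    · subst h0
      rw [nu_zero]
      cases ε
      · exact x1.symm
      · exact x2.symm
    · by_cases h1 : l < 20
      · rw [nu_mid ab l h0 h1]
        rfl
      · have : l = 20 := by omega
        subst this
        rw [nu_last]
        cases ε
        · exact x3.symm
        · exact x4.symm
  refine ⟨φ, ?_⟩
  rintro e ⟨ab, hab, l, rfl⟩
  rw [image_image]
  have h1 : univ.image (φ ∘ mu ab l) =
      univ.image (Sum.elim (x ab l) (x ab (l + 1))) ∪ univ.image (g ab l) := by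
    ext v
    simp only [mem_image, mem_univ, true_and, mem_union]
    constructor
    · rintro ⟨s, rfl⟩
      rcases s with ε | ε | m
      · left
        exact ⟨Sum.inl ε, (hφnu ab hab l (by omega) ε).symm⟩
      · left
        exact ⟨Sum.inr ε, (hφnu ab hab (l + 1) (by omega) ε).symm⟩
      · right
        exact ⟨m, rfl⟩
    · rintro (⟨ε | ε, rfl⟩ | ⟨m, rfl⟩)
      · exact ⟨Sum.inl ε, hφnu ab hab l (by omega) ε⟩
      · exact ⟨Sum.inr (Sum.inl ε), hφnu ab hab (l + 1) (by omega) ε⟩
      · exact ⟨Sum.inr (Sum.inr m), rfl⟩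
  rw [h1]
  exact hg ab l hab

end

end Pool.Agent.Helper45.Turan
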