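import Pool.Agent.Helper45.Turan.Structure

/-! The Lagrangian bound for star-free `r`-graphs. -/

namespace Pool.Agent.Helper45.Turan

open Finset

universe u

section restr

variable {V : Type u} [Fintype V] [DecidableEq V]

/-- the edges inside `S`, as sets of elements of the subtype -/
noncomputable def restr (E : Finset (Finset V)) (S : V → Prop) [DecidablePred S] :
    Finset (Finset {v // S v}) :=
  univ.filter (fun e => e.map (Function.Embedding.subtype S) ∈ E)

variable (E : Finset (Finset V)) (S : V → Prop) [DecidablePred S]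

lemma mem_restr (e : Finset {v // S v}) :
    e ∈ restr E S ↔ e.map (Function.Embedding.subtype S) ∈ E := by
  simp [restr]

lemma fw_restr (x : V → ℝ) :
    fw (fun v : {v // S v} => x v) (restr E S) = fw x (E.filter (fun e => ∀ v ∈ e, S v)) := by
  have h1 : E.filter (fun e => ∀ v ∈ e, S v) =
      (restr E S).image (fun e => e.map (Function.Embedding.subtype S)) := by
    ext e
    rw [mem_filter, mem_image]
    constructor
    · rintro ⟨he, h⟩
      refine ⟨e.subtype S, ?_, ?_⟩
      · rw [mem_restr, subtype_map_of_mem h]
        exact he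
      · exact subtype_map_of_mem h
    · rintro ⟨e', he', rfl⟩
      rw [mem_restr] at he'
      refine ⟨he', ?_⟩
      intro v hv
      rw [mem_map] at hv
      obtain ⟨w, _, rfl⟩ := hv
      exact w.2
  rw [h1]
  unfold fw
  rw [sum_image]
  · refine sum_congr rfl fun e _ => ?_
    rw [prod_map]
    rfl
  · intro a _ b _ h
    exact map_injective _ h

lemma near_restr {k : ℕ} {p q a b : {v // S v}} (h : Near (restr E S) p q k a b) :
    Near E (p : V) (q : V) k (a : V) (b : V) := by
  induction k generalizing a b with
  | zero => exact ⟨congrArg Subtype.val h.1, congrArg Subtype.val h.2⟩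
  | succ k ih =>
    obtain ⟨hab, e, he, ha, hb, c, d, hc, hd, hcd⟩ := h
    rw [mem_restr] at he
    refine ⟨fun h => hab (Subtype.ext h), _, he, ?_, ?_, c, d, ?_, ?_, ih hcd⟩
    · exact mem_map_of_mem (Function.Embedding.subtype S) ha
    · exact mem_map_of_mem (Function.Embedding.subtype S) hb
    · exact mem_map_of_mem (Function.Embedding.subtype S) hc
    · exact mem_map_of_mem (Function.Embedding.subtype S) hd

lemma star_restr {r K : ℕ} (hS : Star E r K) : Star (restr E S) r K := by
  intro p q hpq Q hQ hcon
  refine hS p q (fun h => hpq (Subtype.ext h)) (Q.map (Function.Embedding.subtype S))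
    (by rw [card_map, hQ]) ?_
  intro a ha b hb hab
  rw [mem_map] at ha hb
  obtain ⟨a', ha', rfl⟩ := ha
  obtain ⟨b', hb', rfl⟩ := hb
  exact near_restr E S (hcon a' ha' b' hb' (fun h => hab (by rw [h])))

lemma card_restr {r : ℕ} (hE : ∀ e ∈ E, e.card = r) : ∀ e ∈ restr E S, e.card = r := by
  intro e he
  rw [mem_restr] at he
  rw [← hE _ he, card_map]

lemma sum_restr (x : V → ℝ) :
    ∑ v : {v // S v}, x v = ∑ v ∈ univ.filter (fun v => S v), x v := by
  rw [sum_subtype (univ.filter (fun v => S v)) (p := S) (by intro v; simp)]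

end restr

section degrees

variable {V : Type u} [Fintype V] [DecidableEq V]

omit [Fintype V] in
lemma fw_two (E : Finset (Finset V)) (v w : V) (hvw : v ≠ w) (x : V → ℝ) :
    ∃ A B C D : ℝ, (∀ a b, fw (Function.update (Function.update x v a) w b) E =
      A + B * a + C * b + D * a * b) ∧ LL E x v = B + D * x w ∧ LL E x w = C + D * x v := by
  refine ⟨∑ e ∈ E, (if v ∉ e ∧ w ∉ e then ∏ u ∈ e, x u else 0),
    ∑ e ∈ E, (if v ∈ e ∧ w ∉ e then ∏ u ∈ e.erase v, x u else 0),
    ∑ e ∈ E, (if v ∉ e ∧ w ∈ e then ∏ u ∈ e.erase w, x u else 0),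
    ∑ e ∈ E, (if v ∈ e ∧ w ∈ e then ∏ u ∈ (e.erase v).erase w, x u else 0), ?_, ?_, ?_⟩
  · intro a b
    unfold fw
    rw [sum_mul, sum_mul, sum_mul, sum_mul, ← sum_add_distrib, ← sum_add_distrib,
      ← sum_add_distrib]
    refine sum_congr rfl fun e _ => ?_
    by_cases hv : v ∈ e <;> by_cases hw : w ∈ e
    · simp only [hv, hw, not_true, and_true, and_false, and_self, if_true, if_false]
      have hw' : w ∈ e.erase v := mem_erase.mpr ⟨hvw.symm, hw⟩
      rw [← mul_prod_erase e _ hv, ← mul_prod_erase (e.erase v) _ hw']
      have : ∏ u ∈ (e.erase v).erase w, Function.update (Function.update x v a) w b u =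
          ∏ u ∈ (e.erase v).erase w, x u := by
        refine prod_congr rfl fun u hu => ?_
        simp only [mem_erase] at hu
        rw [Function.update_of_ne hu.1, Function.update_of_ne hu.2.1]
      rw [this, Function.update_of_ne hvw, Function.update_self, Function.update_self]
      ring
    · simp only [hv, hw, not_true, not_false_iff, and_true, and_false, if_true,
        if_false]
      rw [← mul_prod_erase e _ hv]
      have : ∏ u ∈ e.erase v, Function.update (Function.update x v a) w b u =
          ∏ u ∈ e.erase v, x u := by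
        refine prod_congr rfl fun u hu => ?_
        simp only [mem_erase] at hu
        have hne : u ≠ w := fun h => hw (h ▸ hu.2)
        rw [Function.update_of_ne hne, Function.update_of_ne hu.1]
      rw [this, Function.update_of_ne hvw, Function.update_self]
      ring
    · simp only [hv, hw, not_true, not_false_iff, and_true, and_false, if_true,
        if_false]
      rw [← mul_prod_erase e _ hw]
      have : ∏ u ∈ e.erase w, Function.update (Function.update x v a) w b u =
          ∏ u ∈ e.erase w, x u := by
        refine prod_congr rfl fun u hu => ?_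
        simp only [mem_erase] at hu
        have hne : u ≠ v := fun h => hv (h ▸ hu.2)
        rw [Function.update_of_ne hu.1, Function.update_of_ne hne]
      rw [this, Function.update_self]
      ring
    · simp only [hv, hw, not_false_iff, and_false, false_and, and_self, if_true, if_false]
      have : ∏ u ∈ e, Function.update (Function.update x v a) w b u = ∏ u ∈ e, x u := by
        refine prod_congr rfl fun u hu => ?_
        have hne : u ≠ w := fun h => hw (h ▸ hu)
        have hne' : u ≠ v := fun h => hv (h ▸ hu)
        rw [Function.update_of_ne hne, Function.update_of_ne hne']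
      rw [this]
      ring
  · unfold LL
    rw [sum_filter, sum_mul, ← sum_add_distrib]
    refine sum_congr rfl fun e _ => ?_
    by_cases hv : v ∈ e <;> by_cases hw : w ∈ e
    · have hw' : w ∈ e.erase v := mem_erase.mpr ⟨hvw.symm, hw⟩
      rw [← mul_prod_erase (e.erase v) _ hw']
      simp [hv, hw]
      ring
    · simp [hv, hw]
    · simp [hv]
    · simp [hv]
  · unfold LL
    rw [sum_filter, sum_mul, ← sum_add_distrib]
    refine sum_congr rfl fun e _ => ?_
    by_cases hv : v ∈ e <;> by_cases hw : w ∈ e
    · have hv' : v ∈ e.erase w := mem_erase.mpr ⟨hvw, hv⟩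
      rw [← mul_prod_erase (e.erase w) _ hv', erase_right_comm]
      simp [hv, hw]
      ring
    · simp [hw]
    · simp [hv, hw]
    · simp [hw]

lemma sum_LL {r : ℕ} (E : Finset (Finset V)) (hE : ∀ e ∈ E, e.card = r) (x : V → ℝ) :
    ∑ v, x v * LL E x v = r * fw x E := by
  unfold LL fw
  have h1 : ∀ v, x v * ∑ e ∈ E.filter (fun e => v ∈ e), ∏ w ∈ e.erase v, x w =
      ∑ e ∈ E, if v ∈ e then ∏ w ∈ e, x w else 0 := by
    intro v
    rw [mul_sum, ← sum_filter]
    refine sum_congr rfl fun e he => ?_
    rw [mul_prod_erase _ _ (mem_filter.mp he).2]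
  rw [sum_congr rfl (fun v _ => h1 v), sum_comm, mul_sum]
  refine sum_congr rfl fun e he => ?_
  rw [← sum_filter, sum_const, nsmul_eq_mul, filter_mem_eq_inter, univ_inter, hE e he]

/-- at a maximiser of full support all degrees are equal -/
lemma degrees_eq {r : ℕ} (E : Finset (Finset V)) (hE : ∀ e ∈ E, e.card = r) (x : V → ℝ)
    (hx : ∀ v, 0 < x v) (hsum : ∑ v, x v = 1)
    (hmax : ∀ y : V → ℝ, (∀ v, 0 ≤ y v) → ∑ v, y v = 1 → fw y E ≤ fw x E) (v : V) :
    LL E x v = r * fw x E := by
  have hle : ∀ v w, v ≠ w → LL E x w ≤ LL E x v := by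
    intro v w hvw
    by_contra hcon
    push Not at hcon
    obtain ⟨A, B, C, D, h1, h2, h3⟩ := fw_two E v w hvw x
    -- choose the shift
    obtain ⟨t, ht0, htv, htD⟩ : ∃ t : ℝ, 0 < t ∧ t ≤ x v ∧ D * t < LL E x w - LL E x v := by
      refine ⟨min (x v) ((LL E x w - LL E x v) / (2 * (|D| + 1))), ?_, min_le_left _ _, ?_⟩
      · refine lt_min (hx v) (div_pos (by linarith) (by positivity))
      · have hm : min (x v) ((LL E x w - LL E x v) / (2 * (|D| + 1))) ≤
            (LL E x w - LL E x v) / (2 * (|D| + 1)) := min_le_right _ _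
        have hm0 : 0 ≤ min (x v) ((LL E x w - LL E x v) / (2 * (|D| + 1))) :=
          le_min (hx v).le (div_nonneg (by linarith) (by positivity))
        calc D * min (x v) ((LL E x w - LL E x v) / (2 * (|D| + 1)))
            ≤ (|D| + 1) * ((LL E x w - LL E x v) / (2 * (|D| + 1))) := by
              refine mul_le_mul ?_ hm hm0 (by positivity)
              linarith [le_abs_self D]
          _ = (LL E x w - LL E x v) / 2 := by
              have : |D| + 1 ≠ 0 := by positivity
              field_simp
          _ < LL E x w - LL E x v := by linarith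
    have h4 := hmax (Function.update (Function.update x v (x v - t)) w (x w + t)) (by
      intro u
      by_cases hu : u = w
      · subst hu; rw [Function.update_self]; linarith [hx u]
      · rw [Function.update_of_ne hu]
        by_cases hu' : u = v
        · subst hu'; rw [Function.update_self]; linarith
        · rw [Function.update_of_ne hu']; exact (hx u).le) (by
      rw [← hsum]
      rw [← add_sum_erase univ _ (mem_univ w),
        ← add_sum_erase (univ.erase w) _ (mem_erase.mpr ⟨hvw, mem_univ v⟩),
        ← add_sum_erase univ x (mem_univ w),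
        ← add_sum_erase (univ.erase w) x (mem_erase.mpr ⟨hvw, mem_univ v⟩)]
      have : ∑ u ∈ (univ.erase w).erase v,
          Function.update (Function.update x v (x v - t)) w (x w + t) u =
          ∑ u ∈ (univ.erase w).erase v, x u := by
        refine sum_congr rfl fun u hu => ?_
        simp only [mem_erase] at hu
        rw [Function.update_of_ne hu.2.1, Function.update_of_ne hu.1]
      rw [this, Function.update_self, Function.update_of_ne hvw, Function.update_self]
      ring)
    have h5 := h1 (x v) (x w)
    rw [Function.update_eq_self, Function.update_eq_self] at h5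
    rw [h1, h5] at h4
    have h6 : t * (D * t) < t * (LL E x w - LL E x v) := mul_lt_mul_of_pos_left htD ht0
    rw [h2, h3] at h6
    nlinarith
  have heq : ∀ w, LL E x w = LL E x v := by
    intro w
    by_cases h : v = w
    · rw [h]
    · exact le_antisymm (hle v w h) (hle w v (Ne.symm h))
  rw [← sum_LL E hE x, sum_congr rfl (fun w _ => by rw [heq w]), ← sum_mul, hsum, one_mul]

end degrees

theorem lagrange_simplex {r : ℕ} (hr : r = 20) (n : ℕ) :
    ∀ (V : Type u) [Fintype V] [DecidableEq V], Fintype.card V = n →
      ∀ E : Finset (Finset V), (∀ e ∈ E, e.card = r) → Star E r 10 → ∀ x : V → ℝ,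
      (∀ v, 0 ≤ x v) → ((r : ℝ) ^ r - r) * fw x E ≤ (∑ v, x v) ^ r := by
  induction n using Nat.strong_induction_on with
  | _ n ih =>
  intro V _ _ hcard E hE hS
  have hc : (0 : ℝ) < (r : ℝ) ^ r - r := by subst hr; norm_num
  -- the simplex case
  have key : ∀ x : V → ℝ, (∀ v, 0 ≤ x v) → ∑ v, x v = 1 → ((r : ℝ) ^ r - r) * fw x E ≤ 1 := by
    intro x₀ hx₀ hsum₀
    have hcomp : IsCompact (stdSimplex ℝ V) := isCompact_stdSimplex ℝ V
    have hcont : ContinuousOn (fun x : V → ℝ => fw x E) (stdSimplex ℝ V) := by
      apply Continuous.continuousOn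
      unfold fw
      fun_prop
    obtain ⟨x, ⟨hx0, hsum⟩, hmax⟩ := hcomp.exists_isMaxOn ⟨x₀, hx₀, hsum₀⟩ hcont
    have hmax' : ∀ y : V → ℝ, (∀ v, 0 ≤ y v) → ∑ v, y v = 1 → fw y E ≤ fw x E :=
      fun y hy1 hy2 => hmax (show y ∈ stdSimplex ℝ V from ⟨hy1, hy2⟩)
    refine le_trans (mul_le_mul_of_nonneg_left (hmax' x₀ hx₀ hsum₀) hc.le) ?_
    by_contra hcon
    push Not at hcon
    by_cases hz : ∃ v, x v = 0
    · obtain ⟨v, hv⟩ := hz
      have h1 : fw x E = fw x (E.filter (fun e => ∀ w ∈ e, w ≠ v)) := by
        unfold fw
        symm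
        refine sum_subset (filter_subset _ _) ?_
        intro e he he'
        have : ¬ ∀ w ∈ e, w ≠ v := fun h => he' (mem_filter.mpr ⟨he, h⟩)
        push Not at this
        obtain ⟨w, hw, rfl⟩ := this
        exact prod_eq_zero hw hv
      have h2 := ih (Fintype.card {w // w ≠ v}) (by
        rw [← hcard]
        exact Fintype.card_subtype_lt (x := v) (by simp)) {w // w ≠ v} rfl
        (restr E (fun w => w ≠ v)) (card_restr E _ hE) (star_restr E _ hS)
        (fun w => x w) (fun w => hx0 w)
      rw [fw_restr E (fun w => w ≠ v) x, ← h1, sum_restr (fun w => w ≠ v) x] at h2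
      have h3 : ∑ w ∈ univ.filter (fun w => w ≠ v), x w = ∑ w, x w := by
        refine sum_subset (filter_subset _ _) ?_
        intro w _ hw
        simp only [mem_filter, mem_univ, true_and, not_not] at hw
        rw [hw, hv]
      rw [h3, hsum, one_pow] at h2
      linarith
    · push Not at hz
      have hx : ∀ v, 0 < x v := fun v => lt_of_le_of_ne (hx0 v) (Ne.symm (hz v))
      have hdeg := degrees_eq E hE x hx hsum hmax'
      have hL : ∀ v, (1 / (r : ℝ)) ^ (r - 1) < LL E x v := by
        intro v
        rw [hdeg v]
        have h1 : (1 / (r : ℝ)) ^ (r - 1) * ((r : ℝ) ^ r - r) < r := by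
          subst hr; norm_num
        have hr0 : (0 : ℝ) < r := by subst hr; norm_num
        have h2 : (r : ℝ) < r * (((r : ℝ) ^ r - r) * fw x E) := by
          have := mul_lt_mul_of_pos_left hcon hr0
          linarith
        have h3 : (1 / (r : ℝ)) ^ (r - 1) * ((r : ℝ) ^ r - r) <
            (r * fw x E) * ((r : ℝ) ^ r - r) := by
          calc _ < (r : ℝ) := h1
            _ < r * (((r : ℝ) ^ r - r) * fw x E) := h2
            _ = _ := by ring
        exact lt_of_mul_lt_mul_right h3 hc.le
      obtain ⟨f, hf1, hf2⟩ := structure_thm hr hE hS x hx hsum hL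
      -- inside the parts
      have hpos : ∀ i, 0 < ∑ v ∈ univ.filter (fun v => f v = i), x v := by
        intro i
        refine lt_of_lt_of_le ?_ (hf1 i)
        subst hr; norm_num
      have hin : ∀ i, ((r : ℝ) ^ r - r) * fw x (E.filter (fun e => ∀ v ∈ e, f v = i)) ≤
          (∑ v ∈ univ.filter (fun v => f v = i), x v) ^ r := by
        intro i
        -- another part is non-empty
        obtain ⟨j, hj⟩ : ∃ j : Fin r, j ≠ i := by
          have : Nontrivial (Fin r) := by
            rw [Fin.nontrivial_iff_two_le]; omega
          exact exists_ne i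
        obtain ⟨v, hv⟩ : (univ.filter (fun v => f v = j)).Nonempty := by
          by_contra h
          rw [not_nonempty_iff_eq_empty] at h
          have := hpos j
          rw [h, sum_empty] at this
          exact lt_irrefl _ this
        have hvi : ¬ f v = i := by
          rw [(mem_filter.mp hv).2]; exact hj
        have h2 := ih (Fintype.card {w // f w = i}) (by
          rw [← hcard]
          exact Fintype.card_subtype_lt (x := v) hvi) {w // f w = i} rfl
          (restr E (fun w => f w = i)) (card_restr E _ hE) (star_restr E _ hS)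
          (fun w => x w) (fun w => hx0 w)
        rw [fw_restr E (fun w => f w = i) x, sum_restr (fun w => f w = i) x] at h2
        exact h2
      have hfin := final_ineq r (by omega)
        (fun i => ∑ v ∈ univ.filter (fun v => f v = i), x v) (fun i => (hpos i).le)
      have htot : ∑ i, ∑ v ∈ univ.filter (fun v => f v = i), x v = 1 := by
        rw [← hsum]
        exact sum_fiberwise univ f x
      rw [htot, one_pow] at hfin
      have h5 : ((r : ℝ) ^ r - r) * ∑ i, fw x (E.filter (fun e => ∀ v ∈ e, f v = i)) ≤
          ∑ i, (∑ v ∈ univ.filter (fun v => f v = i), x v) ^ r := by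
        rw [mul_sum]
        exact sum_le_sum fun i _ => hin i
      have h6 := mul_le_mul_of_nonneg_left hf2 hc.le
      rw [mul_add] at h6
      linarith
  intro x hx0
  have hs : 0 ≤ ∑ v, x v := sum_nonneg fun v _ => hx0 v
  rcases eq_or_lt_of_le hs with h0 | hpos
  · have hx : ∀ v, x v = 0 := by
      intro v
      exact (sum_eq_zero_iff_of_nonneg (fun v _ => hx0 v)).mp h0.symm v (mem_univ v)
    have h1 : fw x E = 0 := by
      unfold fw
      refine sum_eq_zero fun e he => ?_
      obtain ⟨v, hv⟩ : e.Nonempty := by
        rw [← card_pos, hE e he]; omega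
      exact prod_eq_zero hv (hx v)
    rw [h1, mul_zero]
    exact pow_nonneg hs _
  · have h1 := key (fun v => x v / ∑ w, x w) (fun v => div_nonneg (hx0 v) hs) (by
      rw [← sum_div, div_self hpos.ne'])
    have h2 : fw (fun v => x v / ∑ w, x w) E = fw x E / (∑ w, x w) ^ r := by
      unfold fw
      rw [sum_div]
      refine sum_congr rfl fun e he => ?_
      rw [prod_div_distrib, prod_const, hE e he]
    rw [h2, ← mul_div_assoc, div_le_one (pow_pos hpos _)] at h1
    exact h1

/-- the Lagrangian bound -/
theorem lagrange {r : ℕ} (hr : r = 20) {V : Type u} [Fintype V] [DecidableEq V]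
    (E : Finset (Finset V)) (hE : ∀ e ∈ E, e.card = r) (hS : Star E r 10) (x : V → ℝ)
    (hx : ∀ v, 0 ≤ x v) : ((r : ℝ) ^ r - r) * fw x E ≤ (∑ v, x v) ^ r :=
  lagrange_simplex hr (Fintype.card V) V rfl E hE hS x hx

end Pool.Agent.Helper45.Turan
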