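import Pool.Agent.Helper45.Turan.Defs

/-! Densities and random transversals. -/

namespace Pool.Agent.Helper45.Turan

open Finset

variable {V : Type} [Fintype V] [DecidableEq V] {t : ℕ}

/-- the transversals -/
def Trv (part : V → Fin t) : Finset (Fin t → V) :=
  Fintype.piFinset (fun i => univ.filter (fun v => part v = i))

lemma mem_Trv (part : V → Fin t) (g : Fin t → V) : g ∈ Trv part ↔ ∀ i, part (g i) = i := by
  simp [Trv, Fintype.mem_piFinset]

lemma card_Trv (part : V → Fin t) :
    (Trv part).card = ∏ i, (univ.filter (fun v => part v = i)).card := by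
  unfold Trv
  rw [Fintype.card_piFinset]

lemma ncard_fibre (part : V → Fin t) (i : Fin t) :
    (part ⁻¹' {i}).ncard = (univ.filter (fun v => part v = i)).card := by
  rw [← Set.ncard_coe_finset]
  congr 1
  ext v; simp

open Classical in
/-- the number of transversals whose restriction to `I` is an edge -/
noncomputable def tcount (part : V → Fin t) (E : Set (Finset V)) (I : Finset (Fin t)) : ℕ :=
  ((Trv part).filter (fun g => I.image g ∈ E)).card

lemma card_if {I : Finset (Fin t)} (v : Fin t → V) (F : Fin t → Finset V) :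
    ∏ i, (if i ∈ I then ({v i} : Finset V) else F i).card = ∏ i ∈ univ \ I, (F i).card := by
  rw [← prod_sdiff (subset_univ I)]
  have h1 : ∏ i ∈ I, (if i ∈ I then ({v i} : Finset V) else F i).card = 1 := by
    refine prod_eq_one fun i hi => ?_
    rw [if_pos hi, card_singleton]
  rw [h1, mul_one]
  refine prod_congr rfl fun i hi => ?_
  rw [mem_sdiff] at hi
  rw [if_neg hi.2]

lemma card_fib {r : ℕ} (part : V → Fin t) (hsurj : Function.Surjective part) (e : Finset V)
    (hecard : e.card = r) (heinj : Set.InjOn part (e : Set V)) (I : Finset (Fin t))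
    (hI : I.card = r) (hemeet : ∀ i ∈ I, ∃ v ∈ e, part v = i) :
    ((Trv part).filter (fun g => I.image g = e)).card =
      ∏ i ∈ univ \ I, (univ.filter (fun v => part v = i)).card := by
  have hv : ∀ i, ∃ v, i ∈ I → v ∈ e ∧ part v = i := by
    intro i
    by_cases hi : i ∈ I
    · obtain ⟨v, hv, hvi⟩ := hemeet i hi
      exact ⟨v, fun _ => ⟨hv, hvi⟩⟩
    · obtain ⟨v, _⟩ := hsurj i
      exact ⟨v, fun h => absurd h hi⟩
  choose v hv using hv
  have h1 : (Trv part).filter (fun g => I.image g = e) =
      Fintype.piFinset (fun i => if i ∈ I then {v i} else univ.filter (fun w => part w = i)) := by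
    ext g
    rw [mem_filter, mem_Trv, Fintype.mem_piFinset]
    constructor
    · rintro ⟨hg, hge⟩ i
      by_cases hi : i ∈ I
      · rw [if_pos hi, mem_singleton]
        have h2 : g i ∈ e := by rw [← hge]; exact mem_image_of_mem g hi
        exact heinj h2 (hv i hi).1 (by rw [hg i, (hv i hi).2])
      · rw [if_neg hi]; simp [hg i]
    · intro hg
      have hg1 : ∀ i ∈ I, g i = v i := by
        intro i hi
        have := hg i
        rw [if_pos hi, mem_singleton] at this
        exact this
      have hg2 : ∀ i, part (g i) = i := by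
        intro i
        by_cases hi : i ∈ I
        · rw [hg1 i hi]; exact (hv i hi).2
        · have := hg i
          rw [if_neg hi] at this
          simpa using this
      refine ⟨hg2, ?_⟩
      apply eq_of_subset_of_card_le
      · intro w hw
        rw [mem_image] at hw
        obtain ⟨i, hi, rfl⟩ := hw
        rw [hg1 i hi]; exact (hv i hi).1
      · rw [hecard, card_image_of_injOn, hI]
        intro i _ j _ hij
        rw [← hg2 i, ← hg2 j, hij]
  rw [h1, Fintype.card_piFinset, card_if]

/-- edges meeting all the parts in `I` -/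
noncomputable def edgesI (part : V → Fin t) (E : Set (Finset V)) (I : Finset (Fin t)) :
    Finset (Finset V) := by
  classical
  exact univ.filter (fun e => e ∈ E ∧ ∀ i ∈ I, ∃ v ∈ e, part v = i)

lemma mem_edgesI (part : V → Fin t) (E : Set (Finset V)) (I : Finset (Fin t)) (e : Finset V) :
    e ∈ edgesI part E I ↔ (e ∈ E ∧ ∀ i ∈ I, ∃ v ∈ e, part v = i) := by
  unfold edgesI
  simp

lemma ncard_edgesI (part : V → Fin t) (E : Set (Finset V)) (I : Finset (Fin t)) :
    {e ∈ E | ∀ i ∈ I, ∃ v ∈ e, part v = i}.ncard = (edgesI part E I).card := by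
  rw [← Set.ncard_coe_finset]
  congr 1
  ext e
  rw [mem_coe, mem_edgesI]
  rfl

lemma tcount_nat {r : ℕ} (part : V → Fin t) (E : Set (Finset V)) (hP : IsPartite r part E)
    (I : Finset (Fin t)) (hI : I.card = r) :
    tcount part E I = (edgesI part E I).card *
      ∏ i ∈ univ \ I, (univ.filter (fun v => part v = i)).card := by
  classical
  obtain ⟨hsurj, hE⟩ := hP
  have h2 : tcount part E I =
      ((edgesI part E I).biUnion (fun e => (Trv part).filter (fun g => I.image g = e))).card := by
    unfold tcount
    congr 1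
    ext g
    rw [mem_filter, mem_biUnion, mem_Trv]
    constructor
    · rintro ⟨hg, hgE⟩
      refine ⟨I.image g, ?_, ?_⟩
      · rw [mem_edgesI]
        refine ⟨hgE, ?_⟩
        intro i hi
        exact ⟨g i, mem_image_of_mem g hi, hg i⟩
      · rw [mem_filter, mem_Trv]
        exact ⟨hg, rfl⟩
    · rintro ⟨e, he, hg⟩
      rw [mem_filter, mem_Trv] at hg
      obtain ⟨hg, rfl⟩ := hg
      rw [mem_edgesI] at he
      exact ⟨hg, he.1⟩
  rw [h2, card_biUnion]
  · rw [sum_congr rfl (fun e he => ?_), sum_const, smul_eq_mul]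
    rw [mem_edgesI] at he
    exact card_fib part hsurj e (hE e he.1).1 (hE e he.1).2 I hI he.2
  · intro e _ f _ hef
    rw [Function.onFun, disjoint_left]
    intro g hg hg'
    exact hef ((mem_filter.mp hg).2.symm.trans (mem_filter.mp hg').2)

theorem tcount_eq {r : ℕ} (part : V → Fin t) (E : Set (Finset V)) (hP : IsPartite r part E)
    (I : Finset (Fin t)) (hI : I.card = r) :
    (tcount part E I : ℝ) = density part E I * (Trv part).card := by
  have hpos : ∀ i, 0 < (univ.filter (fun v => part v = i)).card := by
    intro i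
    obtain ⟨v, hv⟩ := hP.1 i
    exact card_pos.mpr ⟨v, by simp [hv]⟩
  rw [tcount_nat part E hP I hI, card_Trv]
  unfold density
  rw [ncard_edgesI]
  have h3 : ∏ i ∈ I, ((part ⁻¹' {i}).ncard : ℝ) =
      ∏ i ∈ I, ((univ.filter (fun v => part v = i)).card : ℝ) :=
    prod_congr rfl fun i _ => by rw [ncard_fibre]
  rw [h3]
  have h4 : (0 : ℝ) < ∏ i ∈ I, ((univ.filter (fun v => part v = i)).card : ℝ) :=
    prod_pos fun i _ => by exact_mod_cast hpos i
  push_cast
  rw [← prod_sdiff (subset_univ I)]
  rw [div_mul_eq_mul_div, eq_div_iff h4.ne']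
  ring

lemma Trv_pos (part : V → Fin t) (hs : Function.Surjective part) : 0 < (Trv part).card := by
  rw [card_Trv]
  refine prod_pos fun i _ => ?_
  obtain ⟨v, hv⟩ := hs i
  exact card_pos.mpr ⟨v, by simp [hv]⟩

end Pool.Agent.Helper45.Turan
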