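import Pool.Agent.Helper45.Turan.Count
import Pool.Agent.Helper45.Turan.Transversal
import Pool.Agent.Helper45.Turan.HGraph

/-! The lower bound. -/

namespace Pool.Agent.Helper45.Turan

open Finset

variable {V : Type} {t r : ℕ}

/-- letter of a vertex of the new graph -/
def letV (S : Finset (Fin t)) (c : Fin t → Fin r) (part : V → Fin t) (p : Fin r × V) : Fin r :=
  if part p.2 ∈ S then c (part p.2) else p.1

/-- the new graph, with one more level -/
def newE [DecidableEq V] (S : Finset (Fin t)) (c : Fin t → Fin r) (part : V → Fin t)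
    (E : Set (Finset V)) : Set (Finset (Fin r × V)) :=
  {e | e.card = r ∧ Set.InjOn (fun p : Fin r × V => part p.2) (e : Set (Fin r × V)) ∧
    (Set.InjOn (letV S c part) (e : Set (Fin r × V)) ∨
      ((∀ a ∈ e, ∀ b ∈ e, letV S c part a = letV S c part b) ∧ e.image Prod.snd ∈ E))}

lemma newE_partite [DecidableEq V] (hr : 0 < r) (S : Finset (Fin t)) (c : Fin t → Fin r)
    (part : V → Fin t) (E : Set (Finset V)) (hP : IsPartite r part E) :
    IsPartite r (fun p : Fin r × V => part p.2) (newE S c part E) := by
  refine ⟨?_, ?_⟩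
  · intro i
    obtain ⟨v, hv⟩ := hP.1 i
    exact ⟨(⟨0, hr⟩, v), hv⟩
  · rintro e ⟨h1, h2, _⟩
    exact ⟨h1, h2⟩

lemma newE_fibre [Finite V] (hr : 0 < r) (part : V → Fin t) (N : ℕ)
    (hN : ∀ i, N ≤ (part ⁻¹' {i}).ncard) (i : Fin t) :
    N ≤ ((fun p : Fin r × V => part p.2) ⁻¹' {i}).ncard := by
  refine le_trans (hN i) ?_
  have h1 : (fun v : V => ((⟨0, hr⟩, v) : Fin r × V)) '' (part ⁻¹' {i}) ⊆
      ((fun p : Fin r × V => part p.2) ⁻¹' {i}) := by
    rintro _ ⟨v, hv, rfl⟩
    exact hv
  rw [← Set.ncard_image_of_injective (f := fun v : V => ((⟨0, hr⟩, v) : Fin r × V)) _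
    (fun a b h => (Prod.mk.inj h).2)]
  exact Set.ncard_le_ncard h1 (Set.toFinite _)

section

variable [Fintype V] [DecidableEq V]

lemma newE_mem (S : Finset (Fin t)) (c : Fin t → Fin r) (part : V → Fin t)
    (E : Set (Finset V)) (I : Finset (Fin t)) (hI : I.card = r) (z : Fin t → Fin r)
    (g : Fin t → V) (hg : ∀ i, part (g i) = i) :
    I.image (fun i => ((z i, g i) : Fin r × V)) ∈ newE S c part E ↔
      (Set.InjOn (lett S c z) (I : Set (Fin t)) ∨
        ((∀ a ∈ I, ∀ b ∈ I, lett S c z a = lett S c z b) ∧ I.image g ∈ E)) := by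
  have hlet : ∀ i, letV S c part ((z i, g i) : Fin r × V) = lett S c z i := by
    intro i
    simp only [letV, lett, hg]
  have hinj : Function.Injective (fun i => ((z i, g i) : Fin r × V)) := by
    intro i j hij
    have h2 := (Prod.mk.inj hij).2
    rw [← hg i, ← hg j, h2]
  have hcard : (I.image (fun i => ((z i, g i) : Fin r × V))).card = r := by
    rw [card_image_of_injective _ hinj, hI]
  have hpart : Set.InjOn (fun p : Fin r × V => part p.2)
      ((I.image (fun i => ((z i, g i) : Fin r × V)) : Finset (Fin r × V)) : Set (Fin r × V)) := by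
    intro a ha b hb hab
    rw [mem_coe, mem_image] at ha hb
    obtain ⟨i, _, rfl⟩ := ha
    obtain ⟨j, _, rfl⟩ := hb
    simp only [hg] at hab
    rw [hab]
  have h1 : Set.InjOn (letV S c part)
      ((I.image (fun i => ((z i, g i) : Fin r × V)) : Finset (Fin r × V)) : Set (Fin r × V)) ↔
      Set.InjOn (lett S c z) (I : Set (Fin t)) := by
    constructor
    · intro h a ha b hb hab
      apply hinj
      apply h
      · exact mem_coe.mpr (mem_image_of_mem _ ha)
      · exact mem_coe.mpr (mem_image_of_mem _ hb)
      · rw [hlet, hlet]; exact hab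
    · intro h a ha b hb hab
      rw [mem_coe, mem_image] at ha hb
      obtain ⟨i, hi, rfl⟩ := ha
      obtain ⟨j, hj, rfl⟩ := hb
      rw [hlet, hlet] at hab
      rw [h hi hj hab]
  have h2 : (∀ a ∈ I.image (fun i => ((z i, g i) : Fin r × V)),
      ∀ b ∈ I.image (fun i => ((z i, g i) : Fin r × V)), letV S c part a = letV S c part b) ↔
      (∀ a ∈ I, ∀ b ∈ I, lett S c z a = lett S c z b) := by
    constructor
    · intro h a ha b hb
      rw [← hlet, ← hlet]
      exact h _ (mem_image_of_mem _ ha) _ (mem_image_of_mem _ hb)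
    · intro h a ha b hb
      rw [mem_image] at ha hb
      obtain ⟨i, hi, rfl⟩ := ha
      obtain ⟨j, hj, rfl⟩ := hb
      rw [hlet, hlet]
      exact h i hi j hj
  have h3 : (I.image (fun i => ((z i, g i) : Fin r × V))).image Prod.snd = I.image g := by
    rw [image_image]
    rfl
  unfold newE
  rw [Set.mem_ofPred_eq, h1, h2, h3]
  constructor
  · rintro ⟨_, _, h⟩; exact h
  · intro h; exact ⟨hcard, hpart, h⟩

theorem newE_count (hr : 2 ≤ r) (S : Finset (Fin t)) (c : Fin t → Fin r) (part : V → Fin t)
    (E : Set (Finset V)) (I : Finset (Fin t)) (hI : I.card = r) :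
    tcount (fun p : Fin r × V => part p.2) (newE S c part E) I =
      AA S c I * (Trv part).card + BBc S c I * tcount part E I := by
  classical
  have h1 : tcount (fun p : Fin r × V => part p.2) (newE S c part E) I =
      ((((univ : Finset (Fin t → Fin r)).filter
        (fun z => Set.InjOn (lett S c z) (I : Set (Fin t)))) ×ˢ (Trv part)) ∪
      (((univ : Finset (Fin t → Fin r)).filter
        (fun z => ∀ a ∈ I, ∀ b ∈ I, lett S c z a = lett S c z b)) ×ˢ
        ((Trv part).filter (fun g => I.image g ∈ E)))).card := by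
    unfold tcount
    refine card_nbij' (fun g => (fun i => (g i).1, fun i => (g i).2))
      (fun zg i => (zg.1 i, zg.2 i)) ?_ ?_ ?_ ?_
    · intro g hg
      rw [mem_coe, mem_filter, mem_Trv] at hg
      obtain ⟨hg1, hg2⟩ := hg
      have h2 := (newE_mem S c part E I hI (fun i => (g i).1) (fun i => (g i).2) hg1).mp hg2
      rw [mem_coe, mem_union, mem_product, mem_product]
      rcases h2 with h2 | h2
      · left
        exact ⟨by simpa using h2, (mem_Trv _ _).mpr hg1⟩
      · right
        refine ⟨?_, ?_⟩
        · rw [mem_filter]; exact ⟨mem_univ _, h2.1⟩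
        · rw [mem_filter, mem_Trv]; exact ⟨hg1, h2.2⟩
    · rintro ⟨z, g⟩ hzg
      rw [mem_coe, mem_union, mem_product, mem_product] at hzg
      rw [mem_coe, mem_filter, mem_Trv]
      rcases hzg with ⟨h2, h3⟩ | ⟨h2, h3⟩
      · rw [mem_Trv] at h3
        rw [mem_filter] at h2
        exact ⟨h3, (newE_mem S c part E I hI z g h3).mpr (Or.inl h2.2)⟩
      · rw [mem_filter, mem_Trv] at h3
        rw [mem_filter] at h2
        exact ⟨h3.1, (newE_mem S c part E I hI z g h3.1).mpr (Or.inr ⟨h2.2, h3.2⟩)⟩
    · intro g _
      rfl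
    · intro zg _
      rfl
  rw [h1, card_union_of_disjoint, card_product, card_product]
  · unfold AA BBc tcount
    congr!
  · rw [disjoint_left]
    rintro ⟨z, g⟩ hz hz'
    rw [mem_product, mem_filter] at hz hz'
    obtain ⟨a, ha, b, hb, hab⟩ := one_lt_card.mp (by rw [hI]; omega : 1 < I.card)
    exact hab (hz.1.2 ha hb (hz'.1.2 a ha b hb))

lemma Trv_new (part : V → Fin t) :
    (Trv (fun p : Fin r × V => part p.2)).card = r ^ t * (Trv part).card := by
  rw [card_Trv, card_Trv]
  have h1 : ∀ i, (univ.filter (fun p : Fin r × V => part p.2 = i)).card =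
      r * (univ.filter (fun v => part v = i)).card := by
    intro i
    have : univ.filter (fun p : Fin r × V => part p.2 = i) =
        (univ : Finset (Fin r)) ×ˢ (univ.filter (fun v => part v = i)) := by
      ext ⟨a, v⟩
      simp
    rw [this, card_product, card_univ, Fintype.card_fin]
  rw [prod_congr rfl (fun i _ => h1 i), prod_mul_distrib, prod_const, card_univ, Fintype.card_fin]

/-- the densities of the new graph -/
theorem newE_density (hr : 2 ≤ r) (S : Finset (Fin t)) (c : Fin t → Fin r) (part : V → Fin t)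
    (E : Set (Finset V)) (hP : IsPartite r part E) (I : Finset (Fin t)) (hI : I.card = r) :
    density (fun p : Fin r × V => part p.2) (newE S c part E) I * (r : ℝ) ^ t =
      AA S c I + BBc S c I * density part E I := by
  have h1 := tcount_eq _ _ (newE_partite (by omega) S c part E hP) I hI
  have h2 := tcount_eq part E hP I hI
  rw [newE_count hr S c part E I hI, Trv_new] at h1
  push_cast at h1
  rw [h2] at h1
  have h3 : (0 : ℝ) < (Trv part).card := by exact_mod_cast Trv_pos part hP.1
  have h4 : (density (fun p : Fin r × V => part p.2) (newE S c part E) I * (r : ℝ) ^ t) *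
      (Trv part).card = (AA S c I + BBc S c I * density part E I) * (Trv part).card := by
    linarith
  exact mul_right_cancel₀ h3.ne' h4

end

/-- no homomorphic image of `H` in the new graph -/
theorem not_hom_new [DecidableEq V] (S : Finset (Fin t)) (c : Fin t → Fin 20) (part : V → Fin t)
    (E : Set (Finset V)) (h : ¬ Hom HH E) : ¬ Hom HH (newE S c part E) := by
  rintro ⟨φ, hφ⟩
  -- edges
  have hedge : ∀ ab : Fin 21 × Fin 21, ab.1 ≠ ab.2 → ∀ l : Fin 20,
      (∀ s s', letV S c part (φ (mu ab l s)) = letV S c part (φ (mu ab l s')) → s = s') ∨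
      ((∀ s s', letV S c part (φ (mu ab l s)) = letV S c part (φ (mu ab l s'))) ∧
        (univ.image (mu ab l)).image (Prod.snd ∘ φ) ∈ E) := by
    intro ab hab l
    obtain ⟨h1, h2, h3⟩ := hφ _ ⟨ab, hab, l, rfl⟩
    have hinj : Set.InjOn φ ((univ.image (mu ab l) : Finset W) : Set W) := by
      apply injOn_of_card_image_eq
      rw [h1, HH_card _ ⟨ab, hab, l, rfl⟩]
    have hmem : ∀ s, mu ab l s ∈ univ.image (mu ab l) := fun s => mem_image_of_mem _ (mem_univ s)
    rcases h3 with h3 | ⟨h3, h4⟩
    · left
      intro s s' hs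
      have h5 := h3 (mem_coe.mpr (mem_image_of_mem φ (hmem s)))
        (mem_coe.mpr (mem_image_of_mem φ (hmem s'))) hs
      exact mu_injective ab hab l (hinj (mem_coe.mpr (hmem s)) (mem_coe.mpr (hmem s')) h5)
    · right
      refine ⟨?_, ?_⟩
      · intro s s'
        exact h3 _ (mem_image_of_mem φ (hmem s)) _ (mem_image_of_mem φ (hmem s'))
      · rw [← image_image]
        exact h4
  -- the type is constant
  have htype : ∀ ab : Fin 21 × Fin 21, ab.1 ≠ ab.2 → ∀ l ≤ 20,
      (letV S c part (φ (nu ab l false)) = letV S c part (φ (nu ab l true)) ↔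
        letV S c part (φ (hub false)) = letV S c part (φ (hub true))) := by
    intro ab hab l
    induction l with
    | zero => intro _; rw [nu_zero, nu_zero]
    | succ l ih =>
      intro hl
      rw [← ih (by omega)]
      rcases hedge ab hab ⟨l, by omega⟩ with h1 | ⟨h1, _⟩
      · constructor
        · intro h2
          exact absurd (h1 (Sum.inr (Sum.inl false)) (Sum.inr (Sum.inl true)) h2) (by simp)
        · intro h2
          exact absurd (h1 (Sum.inl false) (Sum.inl true) h2) (by simp)
      · constructor
        · intro _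
          exact h1 (Sum.inl false) (Sum.inl true)
        · intro _
          exact h1 (Sum.inr (Sum.inl false)) (Sum.inr (Sum.inl true))
  by_cases hT : letV S c part (φ (hub false)) = letV S c part (φ (hub true))
  · apply h
    refine ⟨Prod.snd ∘ φ, ?_⟩
    rintro e ⟨ab, hab, l, rfl⟩
    rcases hedge ab hab l with h1 | ⟨_, h1⟩
    · have h2 := (htype ab hab l (by omega)).mpr hT
      exact absurd (h1 (Sum.inl false) (Sum.inl true) h2) (by simp)
    · exact h1
  · have hinj : Function.Injective (fun a : Fin 21 => letV S c part (φ (core a))) := by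
      intro a b hab
      by_contra hne
      apply hT
      rw [← htype (a, b) hne 20 le_rfl, nu_last, nu_last]
      exact hab
    have := Fintype.card_le_of_injective _ hinj
    simp at this

/-- the limit density -/
noncomputable def ell : ℝ := (Nat.factorial 20 : ℝ) / ((20 : ℝ) ^ 20 - 20)

/-- one more level forced at `i₀` and `j₀` -/
theorem level [Fintype V] [DecidableEq V] (i₀ j₀ : Fin t) (hij : i₀ ≠ j₀) (part : V → Fin t)
    (E : Set (Finset V)) (hP : IsPartite 20 part E) (I : Finset (Fin t)) (hI : I.card = 20) :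
    let c : Fin t → Fin 20 := fun i => if i = i₀ then 1 else 0
    (i₀ ∈ I → j₀ ∈ I → (Nat.factorial 18 : ℝ) / (20 : ℝ) ^ 18 ≤
      density (fun p : Fin 20 × V => part p.2) (newE {i₀, j₀} c part E) I) ∧
    (¬ (i₀ ∈ I ∧ j₀ ∈ I) → density (fun p : Fin 20 × V => part p.2) (newE {i₀, j₀} c part E) I =
      (Nat.factorial 19 : ℝ) / (20 : ℝ) ^ 19 + (1 / (20 : ℝ) ^ 19) * density part E I) := by
  intro c
  have hden := newE_density (by norm_num : 2 ≤ 20) {i₀, j₀} c part E hP I hI
  have hd0 : 0 ≤ density part E I := by unfold density; positivity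
  have ht : (0 : ℝ) < (20 : ℝ) ^ t := by positivity
  have hcinj : Set.InjOn c ((I ∩ {i₀, j₀} : Finset (Fin t)) : Set (Fin t)) := by
    intro a ha b hb hab
    simp only [coe_inter, coe_insert, coe_singleton, Set.mem_inter_iff, mem_coe,
      Set.mem_insert_iff, Set.mem_singleton_iff] at ha hb
    rcases ha.2 with rfl | rfl <;> rcases hb.2 with rfl | rfl
    · rfl
    · simp [c, hij.symm] at hab
    · simp [c, hij.symm] at hab
    · rfl
  have hA := AA_eq {i₀, j₀} c I hcinj
  have hcard := card_sdiff_add_card_inter I {i₀, j₀}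
  rw [Fintype.card_fin] at hA
  constructor
  · intro hi hj
    have h1 : I ∩ {i₀, j₀} = {i₀, j₀} := by
      apply inter_eq_right.mpr
      intro x hx
      simp only [mem_insert, mem_singleton] at hx
      rcases hx with rfl | rfl <;> assumption
    rw [h1, card_pair hij, hI] at hcard
    have h2 : (I \ {i₀, j₀}).card = 18 := by omega
    rw [h1, card_pair hij, h2] at hA
    have h3 : (AA {i₀, j₀} c I : ℝ) * 20 ^ 18 = (Nat.factorial 18 : ℝ) * 20 ^ t := by
      have : (20 - 2).descFactorial 18 = Nat.factorial 18 := by decide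
      rw [this] at hA
      exact_mod_cast hA
    have h4 : (0 : ℝ) ≤ BBc {i₀, j₀} c I * density part E I :=
      mul_nonneg (Nat.cast_nonneg _) hd0
    rw [div_le_iff₀ (by positivity)]
    have h5 : (Nat.factorial 18 : ℝ) * 20 ^ t ≤
        (density (fun p : Fin 20 × V => part p.2) (newE {i₀, j₀} c part E) I * 20 ^ 18) *
          20 ^ t := by
      push_cast at hden
      rw [← h3]
      have h6 : (density (fun p : Fin 20 × V => part p.2) (newE {i₀, j₀} c part E) I * 20 ^ 18) *
          20 ^ t = (density (fun p : Fin 20 × V => part p.2) (newE {i₀, j₀} c part E) I *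
          20 ^ t) * 20 ^ 18 := by ring
      rw [h6, hden]
      refine mul_le_mul_of_nonneg_right ?_ (by positivity)
      linarith
    exact le_of_mul_le_mul_right h5 ht
  · intro hnot
    -- at most one forced index
    have h1 : I ∩ {i₀, j₀} = ∅ ∨ ∃ s, I ∩ {i₀, j₀} = {s} := by
      by_cases hi : i₀ ∈ I
      · right
        refine ⟨i₀, ?_⟩
        have hj : j₀ ∉ I := fun h => hnot ⟨hi, h⟩
        ext x
        simp only [mem_inter, mem_insert, mem_singleton]
        constructor
        · rintro ⟨h2, rfl | rfl⟩
          · rfl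
          · exact absurd h2 hj
        · rintro rfl
          exact ⟨hi, Or.inl rfl⟩
      · by_cases hj : j₀ ∈ I
        · right
          refine ⟨j₀, ?_⟩
          ext x
          simp only [mem_inter, mem_insert, mem_singleton]
          constructor
          · rintro ⟨h2, rfl | rfl⟩
            · exact absurd h2 hi
            · rfl
          · rintro rfl
            exact ⟨hj, Or.inr rfl⟩
        · left
          ext x
          simp only [mem_inter, mem_insert, mem_singleton, notMem_empty, iff_false]
          rintro ⟨h2, rfl | rfl⟩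
          · exact hi h2
          · exact hj h2
    have hB : BBc {i₀, j₀} c I * 20 ^ 19 = 20 ^ t := by
      rcases h1 with h1 | ⟨s, h1⟩
      · have := BB_eq_zero {i₀, j₀} c I (card_pos.mp (by omega)) h1
        rwa [hI, Fintype.card_fin] at this
      · have := BB_eq_one {i₀, j₀} c I s h1
        rwa [hI, Fintype.card_fin] at this
    have hA' : (AA {i₀, j₀} c I : ℝ) * 20 ^ 19 = (Nat.factorial 19 : ℝ) * 20 ^ t := by
      rcases h1 with h1 | ⟨s, h1⟩
      · rw [h1, card_empty, hI] at hcard
        have h2 : (I \ {i₀, j₀}).card = 20 := by omega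
        rw [h1, card_empty, h2] at hA
        have h3 : (20 - 0).descFactorial 20 = 20 * Nat.factorial 19 := by decide
        rw [h3] at hA
        have h4 : (AA {i₀, j₀} c I : ℝ) * 20 ^ 20 = (20 * Nat.factorial 19 : ℝ) * 20 ^ t := by
          exact_mod_cast hA
        have h5 : (AA {i₀, j₀} c I : ℝ) * 20 ^ 20 = 20 * ((AA {i₀, j₀} c I : ℝ) * 20 ^ 19) := by
          ring
        linarith
      · rw [h1, card_singleton, hI] at hcard
        have h2 : (I \ {i₀, j₀}).card = 19 := by omega
        rw [h1, card_singleton, h2] at hA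
        have h3 : (20 - 1).descFactorial 19 = Nat.factorial 19 := by decide
        rw [h3] at hA
        exact_mod_cast hA
    have hB' : (BBc {i₀, j₀} c I : ℝ) * 20 ^ 19 = 20 ^ t := by exact_mod_cast hB
    have h20 : (0 : ℝ) < (20 : ℝ) ^ 19 := by positivity
    push_cast at hden
    have h6 : (density (fun p : Fin 20 × V => part p.2) (newE {i₀, j₀} c part E) I * 20 ^ 19) *
        20 ^ t = ((Nat.factorial 19 : ℝ) + density part E I) * 20 ^ t := by
      have h7 : (density (fun p : Fin 20 × V => part p.2) (newE {i₀, j₀} c part E) I * 20 ^ 19) *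
          20 ^ t = (density (fun p : Fin 20 × V => part p.2) (newE {i₀, j₀} c part E) I *
          20 ^ t) * 20 ^ 19 := by ring
      rw [h7, hden, add_mul, hA']
      have h8 : (BBc {i₀, j₀} c I : ℝ) * density part E I * 20 ^ 19 =
          ((BBc {i₀, j₀} c I : ℝ) * 20 ^ 19) * density part E I := by ring
      rw [h8, hB']
      ring
    have h9 := mul_right_cancel₀ ht.ne' h6
    rw [eq_comm, ← sub_eq_zero]
    have h10 : ((Nat.factorial 19 : ℝ) / (20 : ℝ) ^ 19 + (1 / (20 : ℝ) ^ 19) * density part E I -
        density (fun p : Fin 20 × V => part p.2) (newE {i₀, j₀} c part E) I) * (20 : ℝ) ^ 19 =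
        0 := by
      rw [sub_mul, h9, add_mul, div_mul_cancel₀ _ h20.ne']
      field_simp
      ring
    rcases mul_eq_zero.mp h10 with h | h
    · exact h
    · exact absurd h h20.ne'

end Pool.Agent.Helper45.Turan
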