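import Pool.Agent.Helper45.Turan.Lower

/-! The lower bound, conclusion. -/

namespace Pool.Agent.Helper45.Turan

open Finset

lemma ell_eq : ell = (Nat.factorial 19 : ℝ) / (20 : ℝ) ^ 19 + (1 / (20 : ℝ) ^ 19) * ell := by
  unfold ell
  norm_num [Nat.factorial]

lemma gap_pos : 0 < (Nat.factorial 18 : ℝ) / (20 : ℝ) ^ 18 - ell := by
  unfold ell
  norm_num [Nat.factorial]

lemma HH_nonempty : ∃ e, e ∈ HH := ⟨_, (0, 1), by simp, 0, rfl⟩

theorem lower_list {t : ℕ} (N : ℕ) (l : List (Fin t × Fin t)) (hl : ∀ p ∈ l, p.1 ≠ p.2) :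
    ∃ (V : Type) (_ : Fintype V) (_ : DecidableEq V) (part : V → Fin t) (E : Set (Finset V)),
      IsPartite 20 part E ∧ (∀ i, N ≤ (part ⁻¹' {i}).ncard) ∧ ¬ Hom HH E ∧
      ∀ I : Finset (Fin t), I.card = 20 → (∃ p ∈ l, p.1 ∈ I ∧ p.2 ∈ I) →
        ell + (1 / (20 : ℝ) ^ 19) ^ l.length * ((Nat.factorial 18 : ℝ) / (20 : ℝ) ^ 18 - ell) ≤
          density part E I := by
  induction l with
  | nil =>
    refine ⟨Fin t × Fin (N + 1), inferInstance, inferInstance, Prod.fst, ∅, ?_, ?_, ?_, ?_⟩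
    · refine ⟨fun i => ⟨(i, 0), rfl⟩, ?_⟩
      intro e he
      exact absurd he (Set.notMem_empty _)
    · intro i
      have h1 : (fun k : Fin (N + 1) => ((i, k) : Fin t × Fin (N + 1))) '' Set.univ ⊆
          Prod.fst ⁻¹' {i} := by
        rintro _ ⟨k, _, rfl⟩
        rfl
      have h2 := Set.ncard_le_ncard h1 (Set.toFinite _)
      rw [Set.ncard_image_of_injective _ (fun a b h => (Prod.mk.inj h).2), Set.ncard_univ,
        Nat.card_eq_fintype_card, Fintype.card_fin] at h2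
      omega
    · rintro ⟨φ, hφ⟩
      obtain ⟨e, he⟩ := HH_nonempty
      exact absurd (hφ e he) (Set.notMem_empty _)
    · rintro I _ ⟨p, hp, _⟩
      exact absurd hp (List.not_mem_nil)
  | cons p l ih =>
    obtain ⟨V, _, _, part, E, hP, hN, hH, hD⟩ := ih (fun q hq => hl q (List.mem_cons_of_mem _ hq))
    have hp : p.1 ≠ p.2 := hl p (List.mem_cons_self)
    refine ⟨Fin 20 × V, inferInstance, inferInstance, fun x => part x.2,
      newE {p.1, p.2} (fun i => if i = p.1 then 1 else 0) part E,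
      newE_partite (by norm_num) _ _ part E hP, newE_fibre (by norm_num) part N hN,
      not_hom_new _ _ part E hH, ?_⟩
    intro I hI hex
    obtain ⟨h1, h2⟩ := level p.1 p.2 hp part E hP I hI
    have hq0 : (0 : ℝ) ≤ (1 / (20 : ℝ) ^ 19) := by positivity
    have hq1 : (1 / (20 : ℝ) ^ 19) ≤ 1 := by norm_num
    have hg := gap_pos
    by_cases hpI : p.1 ∈ I ∧ p.2 ∈ I
    · refine le_trans ?_ (h1 hpI.1 hpI.2)
      have h3 : (1 / (20 : ℝ) ^ 19) ^ (p :: l).length ≤ 1 := pow_le_one₀ hq0 hq1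
      have h4 := mul_le_mul_of_nonneg_right h3 hg.le
      linarith
    · rw [h2 hpI]
      have h3 := hD I hI (by
        obtain ⟨q, hq, hq'⟩ := hex
        rw [List.mem_cons] at hq
        rcases hq with rfl | hq
        · exact absurd hq' hpI
        · exact ⟨q, hq, hq'⟩)
      have h4 := mul_le_mul_of_nonneg_left h3 hq0
      rw [List.length_cons, pow_succ]
      have h5 := ell_eq
      linarith

lemma hom_of_contains {W V : Type} [DecidableEq V] {H : Set (Finset W)} {E : Set (Finset V)}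
    (h : Contains H E) : Hom H E := by
  obtain ⟨φ, hφ⟩ := h
  refine ⟨φ, fun e he => ?_⟩
  have := hφ e he
  rwa [map_eq_image] at this

theorem lower_graph (t : ℕ) : ∃ δ : ℝ, 0 < δ ∧ ∀ N : ℕ,
    ∃ (V : Type) (_ : Finite V) (part : V → Fin t) (E : Set (Finset V)),
      IsPartite 20 part E ∧ (∀ i, N ≤ (part ⁻¹' {i}).ncard) ∧ ¬ Contains HH E ∧
      ∀ I : Finset (Fin t), I.card = 20 → ell + δ ≤ density part E I := by
  classical
  let l : List (Fin t × Fin t) := (univ : Finset (Fin t)).offDiag.toList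
  have hl : ∀ p ∈ l, p.1 ≠ p.2 := by
    intro p hp
    rw [mem_toList, mem_offDiag] at hp
    exact hp.2.2
  refine ⟨(1 / (20 : ℝ) ^ 19) ^ l.length * ((Nat.factorial 18 : ℝ) / (20 : ℝ) ^ 18 - ell),
    mul_pos (by positivity) gap_pos, fun N => ?_⟩
  obtain ⟨V, _, _, part, E, hP, hN, hH, hD⟩ := lower_list N l hl
  refine ⟨V, inferInstance, part, E, hP, hN, fun h => hH (hom_of_contains h), ?_⟩
  intro I hI
  refine hD I hI ?_
  obtain ⟨a, ha, b, hb, hab⟩ := one_lt_card.mp (by rw [hI]; norm_num : 1 < I.card)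
  refine ⟨(a, b), ?_, ha, hb⟩
  rw [mem_toList, mem_offDiag]
  exact ⟨mem_univ _, mem_univ _, hab⟩

end Pool.Agent.Helper45.Turan
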