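import Pool.Agent.Helper45.Turan.AMGM

/-! Pairs near a hub, links of vertices. -/

namespace Pool.Agent.Helper45.Turan

open Finset

section Near

variable {V : Type*} [DecidableEq V]

/-- `Near E p q k c d`: the pair `c, d` can be reached from the pair `p, q` in `k` steps, a step
going from a pair contained in an edge to another pair contained in the same edge. -/
def Near (E : Finset (Finset V)) (p q : V) : ℕ → V → V → Prop
  | 0, c, d => c = p ∧ d = q
  | k + 1, c, d => c ≠ d ∧ ∃ e ∈ E, c ∈ e ∧ d ∈ e ∧ ∃ a b, a ∈ e ∧ b ∈ e ∧ Near E p q k a b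

/-- no `(r+1)`-set has all its pairs `K`-near to one hub -/
def Star (E : Finset (Finset V)) (r K : ℕ) : Prop :=
  ∀ p q : V, p ≠ q → ∀ Q : Finset V, Q.card = r + 1 →
    ¬ (∀ a ∈ Q, ∀ b ∈ Q, a ≠ b → Near E p q K a b)

variable {E : Finset (Finset V)} {p q : V}

lemma near_step {k : ℕ} {a b c d : V} {e : Finset V} (h : Near E p q k a b) (he : e ∈ E)
    (ha : a ∈ e) (hb : b ∈ e) (hc : c ∈ e) (hd : d ∈ e) (hcd : c ≠ d) :
    Near E p q (k + 1) c d := ⟨hcd, e, he, hc, hd, a, b, ha, hb, h⟩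

lemma near_ne {k : ℕ} (hk : 1 ≤ k) {c d : V} (h : Near E p q k c d) : c ≠ d := by
  obtain ⟨m, rfl⟩ : ∃ m, k = m + 1 := ⟨k - 1, by omega⟩
  exact h.1

lemma near_symm {k : ℕ} (hk : 1 ≤ k) {c d : V} (h : Near E p q k c d) : Near E p q k d c := by
  obtain ⟨m, rfl⟩ : ∃ m, k = m + 1 := ⟨k - 1, by omega⟩
  obtain ⟨hcd, e, he, hc, hd, a, b, ha, hb, hab⟩ := h
  exact ⟨hcd.symm, e, he, hd, hc, a, b, ha, hb, hab⟩

lemma near_mono {k m : ℕ} (hk : 1 ≤ k) (hkm : k ≤ m) {c d : V} (h : Near E p q k c d) :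
    Near E p q m c d := by
  induction m, hkm using Nat.le_induction with
  | base => exact h
  | succ m hm ih =>
    obtain ⟨j, rfl⟩ : ∃ j, m = j + 1 := ⟨m - 1, by omega⟩
    obtain ⟨hcd, e, he, hc, hd, a, b, ha, hb, hab⟩ := ih
    exact near_step ⟨hcd, e, he, hc, hd, a, b, ha, hb, hab⟩ he hc hd hc hd hcd

lemma near_trans {k m : ℕ} {a b c d : V} (h : Near E p q k a b) (h' : Near E a b m c d) :
    Near E p q (k + m) c d := by
  induction m generalizing c d with
  | zero => obtain ⟨rfl, rfl⟩ := h'; exact h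
  | succ m ih =>
    obtain ⟨hcd, e, he, hc, hd, a', b', ha', hb', hab⟩ := h'
    exact ⟨hcd, e, he, hc, hd, a', b', ha', hb', ih hab⟩

end Near

section Link

variable {V : Type*} [Fintype V] [DecidableEq V]

/-- shadow graph of the link of `v` -/
def Lnk (E : Finset (Finset V)) (v : V) : SimpleGraph V where
  Adj a b := a ≠ b ∧ a ≠ v ∧ b ≠ v ∧ ∃ e ∈ E, v ∈ e ∧ a ∈ e ∧ b ∈ e
  symm := ⟨fun a b h => ⟨h.1.symm, h.2.2.1, h.2.1, by
    obtain ⟨e, he, hv, ha, hb⟩ := h.2.2.2
    exact ⟨e, he, hv, hb, ha⟩⟩⟩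
  loopless := ⟨fun a h => h.1 rfl⟩

noncomputable instance (E : Finset (Finset V)) (v : V) : DecidableRel (Lnk E v).Adj :=
  Classical.decRel _

/-- restriction of a weight to a set -/
def rw' (x : V → ℝ) (N : Finset V) : V → ℝ := fun v => if v ∈ N then x v else 0

lemma rw'_nonneg (x : V → ℝ) (hx : ∀ v, 0 ≤ x v) (N : Finset V) : ∀ v, 0 ≤ rw' x N v := by
  intro v; unfold rw'; split_ifs
  · exact hx v
  · exact le_refl _

lemma sum_rw' (x : V → ℝ) (N : Finset V) : ∑ v, rw' x N v = ∑ v ∈ N, x v := by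
  unfold rw'
  rw [← sum_filter]
  congr 1
  ext v; simp

/-- a family of `s`-cliques inside `N` -/
lemma fam_le (G : SimpleGraph V) [DecidableRel G.Adj] (s : ℕ) (x : V → ℝ) (hx : ∀ v, 0 ≤ x v)
    (N : Finset V) (F : Finset (Finset V)) (hF : ∀ Q ∈ F, G.IsNClique s Q ∧ Q ⊆ N) :
    ∑ Q ∈ F, ∏ v ∈ Q, x v ≤ fw (rw' x N) (G.cliqueFinset s) := by
  unfold fw
  have h1 : ∑ Q ∈ F, ∏ v ∈ Q, x v = ∑ Q ∈ F, ∏ v ∈ Q, rw' x N v := by
    refine sum_congr rfl fun Q hQ => prod_congr rfl fun v hv => ?_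
    unfold rw'
    rw [if_pos ((hF Q hQ).2 hv)]
  rw [h1]
  refine sum_le_sum_of_subset_of_nonneg ?_ (fun Q _ _ => prod_nonneg fun v _ => rw'_nonneg x hx N v)
  intro Q hQ
  rw [SimpleGraph.mem_cliqueFinset_iff]
  exact (hF Q hQ).1

/-- weighted degree -/
def LL (E : Finset (Finset V)) (x : V → ℝ) (v : V) : ℝ :=
  ∑ e ∈ E.filter (fun e => v ∈ e), ∏ w ∈ e.erase v, x w

/-- weighted codegree -/
def LL2 (E : Finset (Finset V)) (x : V → ℝ) (v u : V) : ℝ :=
  ∑ e ∈ E.filter (fun e => v ∈ e ∧ u ∈ e), ∏ w ∈ (e.erase v).erase u, x w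

/-- neighbourhood of `u` in the shadow of the link of `v` -/
noncomputable def NN (E : Finset (Finset V)) (v u : V) : Finset V :=
  univ.filter (fun a => (Lnk E v).Adj u a)

lemma mem_NN (E : Finset (Finset V)) (v u a : V) : a ∈ NN E v u ↔ (Lnk E v).Adj u a := by
  simp [NN]

variable {E : Finset (Finset V)} {r : ℕ}

lemma LL2_sum (hE : ∀ e ∈ E, e.card = r) (x : V → ℝ) (v : V) :
    ∑ u ∈ univ.erase v, x u * LL2 E x v u = ((r : ℝ) - 1) * LL E x v := by
  unfold LL2 LL
  have h1 : ∀ u ∈ univ.erase v, x u * ∑ e ∈ E.filter (fun e => v ∈ e ∧ u ∈ e),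
      ∏ w ∈ (e.erase v).erase u, x w =
      ∑ e ∈ E.filter (fun e => v ∈ e), if u ∈ e then ∏ w ∈ e.erase v, x w else 0 := by
    intro u hu
    rw [mul_sum, ← sum_filter, filter_filter]
    refine sum_congr rfl fun e he => ?_
    have hu' : u ≠ v := ne_of_mem_erase hu
    have hue : u ∈ e.erase v := mem_erase.mpr ⟨hu', (mem_filter.mp he).2.2⟩
    rw [mul_prod_erase _ _ hue]
  rw [sum_congr rfl h1, sum_comm, mul_sum]
  refine sum_congr rfl fun e he => ?_
  have hve : v ∈ e := (mem_filter.mp he).2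
  rw [← sum_filter, sum_const, nsmul_eq_mul]
  congr 1
  have h2 : (univ.erase v).filter (fun u => u ∈ e) = e.erase v := by
    ext u; simp
  rw [h2, card_erase_of_mem hve, hE e (mem_filter.mp he).1]
  have : 1 ≤ r := by
    rw [← hE e (mem_filter.mp he).1]
    exact card_pos.mpr ⟨v, hve⟩
  rw [Nat.cast_sub this, Nat.cast_one]

/-- the link of a pair -/
lemma LL2_le (hr : 3 ≤ r) (hE : ∀ e ∈ E, e.card = r) {K : ℕ} (hK : 2 ≤ K) (hS : Star E r K)
    (x : V → ℝ) (hx : ∀ v, 0 ≤ x v) (v u : V) (huv : u ≠ v) :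
    ((r - 2 : ℕ) : ℝ) ^ (r - 2) * LL2 E x v u ≤ (∑ a ∈ NN E v u, x a) ^ (r - 2) := by
  have hbound := clique_bound_one (Lnk E v) (r - 2) (rw' x (NN E v u)) (rw'_nonneg x hx _) (by
    intro Q hQ
    by_contra hcon
    push Not at hcon
    have hQN : ∀ w ∈ Q, w ∈ NN E v u := by
      intro w hw
      have := hcon w hw
      unfold rw' at this
      by_contra h
      rw [if_neg h] at this
      exact this rfl
    have hne : ∀ w ∈ Q, w ≠ u ∧ w ≠ v := by
      intro w hw
      have := (mem_NN E v u w).mp (hQN w hw)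
      exact ⟨this.1.symm, this.2.2.1⟩
    have hQcard : Q.card = r - 2 + 1 := hQ.card_eq
    have hu : u ∉ Q := fun h => (hne u h).1 rfl
    have hv : v ∉ insert u Q := by
      rw [mem_insert]
      rintro (h | h)
      · exact huv h.symm
      · exact (hne v h).2 rfl
    have hcard : (insert v (insert u Q)).card = r + 1 := by
      rw [card_insert_of_notMem hv, card_insert_of_notMem hu, hQcard]
      omega
    -- all pairs are near
    obtain ⟨w₀, hw₀⟩ : Q.Nonempty := by
      rw [← card_pos, hQcard]; omega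
    have hvu : Near E v u 1 v u := by
      obtain ⟨_, _, _, e, he, hve, hue, _⟩ := (mem_NN E v u w₀).mp (hQN w₀ hw₀)
      exact near_step (k := 0) ⟨rfl, rfl⟩ he hve hue hve hue huv.symm
    have hvw : ∀ w ∈ Q, Near E v u 1 v w := by
      intro w hw
      obtain ⟨_, _, h, e, he, hve, hue, hwe⟩ := (mem_NN E v u w).mp (hQN w hw)
      exact near_step (k := 0) ⟨rfl, rfl⟩ he hve hue hve hwe h.symm
    have huw : ∀ w ∈ Q, Near E v u 1 u w := by
      intro w hw
      obtain ⟨h, _, _, e, he, hve, hue, hwe⟩ := (mem_NN E v u w).mp (hQN w hw)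
      exact near_step (k := 0) ⟨rfl, rfl⟩ he hve hue hue hwe h
    have hww : ∀ w ∈ Q, ∀ w' ∈ Q, w ≠ w' → Near E v u 2 w w' := by
      intro w hw w' hw' hne'
      obtain ⟨_, _, _, e, he, hve, hwe, hwe'⟩ := hQ.isClique hw hw' hne'
      exact near_step (hvw w hw) he hve hwe hwe hwe' hne'
    refine hS v u huv.symm _ hcard ?_
    intro a ha b hb hab
    simp only [mem_insert] at ha hb
    rcases ha with rfl | rfl | ha <;> rcases hb with rfl | rfl | hb
    · exact absurd rfl hab
    · exact near_mono (by norm_num) (by omega) hvu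
    · exact near_mono (by norm_num) (by omega) (hvw b hb)
    · exact near_mono (by norm_num) (by omega) (near_symm (by norm_num) hvu)
    · exact absurd rfl hab
    · exact near_mono (by norm_num) (by omega) (huw b hb)
    · exact near_mono (by norm_num) (by omega) (near_symm (by norm_num) (hvw a ha))
    · exact near_mono (by norm_num) (by omega) (near_symm (by norm_num) (huw a ha))
    · exact near_mono (by norm_num) (by omega) (hww a ha b hb hab))
  rw [sum_rw'] at hbound
  refine le_trans (mul_le_mul_of_nonneg_left ?_ (by positivity)) hbound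
  unfold LL2
  have hinj : Set.InjOn (fun e : Finset V => (e.erase v).erase u)
      (E.filter (fun e => v ∈ e ∧ u ∈ e)) := by
    intro e he f hf hef
    simp only [coe_filter, Set.mem_ofPred_eq] at he hf
    have h1 : insert v (insert u ((e.erase v).erase u)) = e := by
      rw [insert_erase (mem_erase.mpr ⟨huv, he.2.2⟩), insert_erase he.2.1]
    have h2 : insert v (insert u ((f.erase v).erase u)) = f := by
      rw [insert_erase (mem_erase.mpr ⟨huv, hf.2.2⟩), insert_erase hf.2.1]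
    have hef' : (e.erase v).erase u = (f.erase v).erase u := hef
    rw [← h1, ← h2, hef']
  have := fam_le (Lnk E v) (r - 2) x hx (NN E v u)
    ((E.filter (fun e => v ∈ e ∧ u ∈ e)).image (fun e : Finset V => (e.erase v).erase u)) (by
      intro Q hQ
      rw [mem_image] at hQ
      obtain ⟨e, he, rfl⟩ := hQ
      rw [mem_filter] at he
      obtain ⟨he, hve, hue⟩ := he
      refine ⟨⟨?_, ?_⟩, ?_⟩
      · intro a ha b hb hab
        simp only [coe_erase, Set.mem_sdiff, mem_coe, Set.mem_singleton_iff] at ha hb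
        exact ⟨hab, ha.1.2, hb.1.2, e, he, hve, ha.1.1, hb.1.1⟩
      · rw [card_erase_of_mem (mem_erase.mpr ⟨huv, hue⟩), card_erase_of_mem hve, hE e he]
        omega
      · intro a ha
        simp only [mem_erase] at ha
        rw [mem_NN]
        exact ⟨ha.1.symm, huv, ha.2.1, e, he, hve, hue, ha.2.2⟩)
  rwa [sum_image hinj] at this

end Link

end Pool.Agent.Helper45.Turan
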