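import Mathlib

/-! A graph with no `(r+1)`-clique and very large minimum degree is close to complete
`r`-partite. -/

namespace Pool.Agent.Helper45.Turan

open Finset

variable {V : Type*} [Fintype V] [DecidableEq V]

/-- greedy choice of a transversal clique -/
lemma greedy (G : SimpleGraph V) [DecidableRel G.Adj] (x : V → ℝ) (hx : ∀ v, 0 ≤ x v)
    {r : ℕ} (δ : ℝ) (hδ : 0 ≤ δ) (I : Finset (Fin r)) :
    ∀ X : Fin r → Finset V, (∀ i ∈ I, (I.card : ℝ) * δ < ∑ v ∈ X i, x v) →
      (∀ i ∈ I, ∀ j ∈ I, i ≠ j → ∀ a ∈ X i, ∑ w ∈ (X j).filter (fun w => ¬ G.Adj a w), x w ≤ δ) →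
      (I = ∅ ∨ True) → Nonempty V →
      ∃ y : Fin r → V, (∀ i ∈ I, y i ∈ X i) ∧ (∀ i ∈ I, ∀ j ∈ I, i ≠ j → G.Adj (y i) (y j)) := by
  induction I using Finset.induction_on with
  | empty =>
    intro X _ _ _ hV
    exact ⟨fun _ => hV.some, by simp, by simp⟩
  | insert i0 I hi0 ih =>
    intro X hX hXX _ hV
    have hcard : (((insert i0 I).card : ℕ) : ℝ) = I.card + 1 := by
      rw [card_insert_of_notMem hi0]; push_cast; ring
    rw [hcard] at hX
    have hpos : 0 < ∑ v ∈ X i0, x v := by
      refine lt_of_le_of_lt ?_ (hX i0 (mem_insert_self _ _))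
      positivity
    obtain ⟨a, ha⟩ : (X i0).Nonempty := by
      by_contra h
      rw [not_nonempty_iff_eq_empty] at h
      rw [h] at hpos
      simp at hpos
    obtain ⟨y, hy1, hy2⟩ := ih (fun j => (X j).filter (fun w => G.Adj a w)) (by
        intro j hj
        have h1 := hX j (mem_insert_of_mem hj)
        have h2 := hXX i0 (mem_insert_self _ _) j (mem_insert_of_mem hj)
          (fun h => hi0 (h ▸ hj)) a ha
        have h3 := sum_filter_add_sum_filter_not (X j) (fun w => G.Adj a w) x
        linarith) (by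
        intro i hi j hj hij b hb
        refine le_trans ?_ (hXX i (mem_insert_of_mem hi) j (mem_insert_of_mem hj) hij b
          (mem_filter.mp hb).1)
        refine sum_le_sum_of_subset_of_nonneg ?_ (fun w _ _ => hx w)
        intro w hw
        simp only [mem_filter] at hw ⊢
        exact ⟨hw.1.1, hw.2⟩) (Or.inr trivial) hV
    refine ⟨Function.update y i0 a, ?_, ?_⟩
    · intro i hi
      rw [mem_insert] at hi
      rcases hi with rfl | hi
      · rw [Function.update_self]; exact ha
      · have : i ≠ i0 := fun h => hi0 (h ▸ hi)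
        rw [Function.update_of_ne this]
        exact (mem_filter.mp (hy1 i hi)).1
    · intro i hi j hj hij
      rw [mem_insert] at hi hj
      rcases hi with rfl | hi <;> rcases hj with rfl | hj
      · exact absurd rfl hij
      · have : j ≠ i := fun h => hij h.symm
        rw [Function.update_self, Function.update_of_ne this]
        exact (mem_filter.mp (hy1 j hj)).2
      · rw [Function.update_self, Function.update_of_ne hij]
        exact (mem_filter.mp (hy1 i hi)).2.symm
      · have h1 : i ≠ i0 := fun h => hi0 (h ▸ hi)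
        have h2 : j ≠ i0 := fun h => hi0 (h ▸ hj)
        rw [Function.update_of_ne h1, Function.update_of_ne h2]
        exact hy2 i hi j hj hij

omit [Fintype V] in
lemma sum_union_le' {x : V → ℝ} (hx : ∀ v, 0 ≤ x v) (S T : Finset V) :
    ∑ v ∈ S ∪ T, x v ≤ ∑ v ∈ S, x v + ∑ v ∈ T, x v := by
  rw [← sum_union_inter]
  have : 0 ≤ ∑ v ∈ S ∩ T, x v := sum_nonneg fun v _ => hx v
  linarith

omit [Fintype V] in
lemma sum_biUnion_le' {ι : Type*} [DecidableEq ι] {x : V → ℝ} (hx : ∀ v, 0 ≤ x v)
    (I : Finset ι) (T : ι → Finset V) :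
    ∑ v ∈ I.biUnion T, x v ≤ ∑ i ∈ I, ∑ v ∈ T i, x v := by
  induction I using Finset.induction_on with
  | empty => simp
  | insert i I hi ih =>
    rw [biUnion_insert, sum_insert hi]
    exact le_trans (sum_union_le' hx _ _) (by linarith)

theorem partition {r : ℕ} (hr : r = 20) (G G' : SimpleGraph V) [DecidableRel G.Adj]
    (hle : G ≤ G') (x : V → ℝ) (hx : ∀ v, 0 < x v) (hsum : ∑ v, x v = 1)
    (hfree : ∀ Q : Finset V, ¬ G'.IsNClique (r + 1) Q)
    (hdeg : ∀ v, ∑ w ∈ univ.filter (fun w => ¬ G.Adj v w), x w ≤ 1 / (r : ℝ) + 1 / 1000000)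
    (Q0 : Finset V) (hQ0 : G.IsNClique r Q0) :
    ∃ f : V → Fin r, (∀ a b, G'.Adj a b → f a ≠ f b) ∧
      (∀ i, 1 / (r : ℝ) - 2 * r / 1000000 ≤ ∑ v ∈ univ.filter (fun v => f v = i), x v) ∧
      (∀ v, ∑ w ∈ univ.filter (fun w => f w ≠ f v ∧ ¬ G.Adj v w), x w ≤ 2 * r / 1000000) := by
  classical
  have hx0 : ∀ v, 0 ≤ x v := fun v => (hx v).le
  -- monotonicity of measure
  have mono : ∀ S T : Finset V, S ⊆ T → ∑ v ∈ S, x v ≤ ∑ v ∈ T, x v := fun S T h =>
    sum_le_sum_of_subset_of_nonneg h (fun v _ _ => hx0 v)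
  -- enumeration of Q0
  obtain ⟨q, hq⟩ : ∃ q : Fin r → V, Function.Injective q ∧ ∀ v, v ∈ Q0 ↔ ∃ i, q i = v := by
    let e := (Q0.equivFinOfCardEq hQ0.card_eq).symm
    refine ⟨fun i => (e i : V), fun i j h => e.injective (Subtype.ext h), ?_⟩
    intro v
    constructor
    · intro hv
      exact ⟨e.symm ⟨v, hv⟩, by simp⟩
    · rintro ⟨i, rfl⟩
      exact (e i).2
  obtain ⟨hqi, hqm⟩ := hq
  have hqadj : ∀ i j, i ≠ j → G.Adj (q i) (q j) := by
    intro i j hij
    exact hQ0.isClique ((hqm _).mpr ⟨i, rfl⟩) ((hqm _).mpr ⟨j, rfl⟩) (fun h => hij (hqi h))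
  have hV : Nonempty V := ⟨q ⟨0, by omega⟩⟩
  -- every vertex misses some q i
  have hmiss : ∀ v, ∃ i, ¬ G.Adj v (q i) := by
    intro v
    by_contra hcon
    push Not at hcon
    have hv : v ∉ Q0 := by
      intro h
      obtain ⟨i, rfl⟩ := (hqm v).mp h
      exact G.irrefl (hcon i)
    refine hfree (insert v Q0) ⟨?_, by rw [card_insert_of_notMem hv, hQ0.card_eq]⟩
    intro a ha b hb hab
    rw [mem_coe, mem_insert] at ha hb
    rcases ha with rfl | ha <;> rcases hb with rfl | hb
    · exact absurd rfl hab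
    · obtain ⟨i, rfl⟩ := (hqm b).mp hb
      exact hle (hcon i)
    · obtain ⟨i, rfl⟩ := (hqm a).mp ha
      exact (hle (hcon i)).symm
    · exact hle (hQ0.isClique ha hb hab)
  -- the sets
  let A0 : Fin r → Finset V := fun i =>
    univ.filter (fun v => ¬ G.Adj v (q i) ∧ ∀ j, j ≠ i → G.Adj v (q j))
  let As : Finset V := univ.filter (fun v => ∃ i j, i ≠ j ∧ ¬ G.Adj v (q i) ∧ ¬ G.Adj v (q j))
  have hA0 : ∀ i v, v ∈ A0 i ↔ (¬ G.Adj v (q i) ∧ ∀ j, j ≠ i → G.Adj v (q j)) := by
    intro i v; simp [A0]
  have hAs : ∀ v, v ∈ As ↔ ∃ i j, i ≠ j ∧ ¬ G.Adj v (q i) ∧ ¬ G.Adj v (q j) := by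
    intro v; simp [As]
  have hcardr : ((univ : Finset (Fin r)).card : ℝ) = r := by simp
  -- measure of As
  have hAsm : ∑ v ∈ As, x v ≤ (r : ℝ) / 1000000 := by
    have h1 : ∑ i : Fin r, ∑ w ∈ univ.filter (fun w => ¬ G.Adj (q i) w), x w ≤
        ∑ i : Fin r, (1 / (r : ℝ) + 1 / 1000000) := sum_le_sum fun i _ => hdeg (q i)
    rw [sum_const, nsmul_eq_mul, hcardr] at h1
    have h2 : ∑ i : Fin r, ∑ w ∈ univ.filter (fun w => ¬ G.Adj (q i) w), x w =
        ∑ w, ∑ i : Fin r, if ¬ G.Adj (q i) w then x w else 0 := by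
      rw [sum_comm]
      refine sum_congr rfl fun i _ => ?_
      rw [sum_filter]
    have h3 : ∑ w, (x w + if w ∈ As then x w else 0) ≤
        ∑ w, ∑ i : Fin r, if ¬ G.Adj (q i) w then x w else 0 := by
      refine sum_le_sum fun w _ => ?_
      split_ifs with hw
      · obtain ⟨i, j, hij, hi, hj⟩ := (hAs w).mp hw
        have h4 : ∑ k ∈ ({i, j} : Finset (Fin r)), (if ¬ G.Adj (q k) w then x w else 0) ≤
            ∑ k : Fin r, if ¬ G.Adj (q k) w then x w else 0 := by
          refine sum_le_sum_of_subset_of_nonneg (subset_univ _) (fun k _ _ => ?_)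
          by_cases hkw : ¬ G.Adj (q k) w
          · rw [if_pos hkw]; exact hx0 w
          · rw [if_neg hkw]
        rw [sum_pair hij, if_pos (fun h => hi (G.adj_symm h)),
          if_pos (fun h => hj (G.adj_symm h))] at h4
        exact h4
      · obtain ⟨i, hi⟩ := hmiss w
        have h4 := single_le_sum (f := fun k => if ¬ G.Adj (q k) w then x w else 0)
          (fun k _ => by
            by_cases hkw : ¬ G.Adj (q k) w
            · simp only [if_pos hkw]; exact hx0 w
            · simp only [if_neg hkw]; exact le_refl _) (mem_univ i)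
        simp only [if_pos (show ¬ G.Adj (q i) w from fun h => hi (G.adj_symm h))] at h4
        rw [add_zero]
        exact h4
    rw [sum_add_distrib, hsum, ← sum_filter, filter_mem_eq_inter, univ_inter] at h3
    have h5 : (r : ℝ) * (1 / (r : ℝ) + 1 / 1000000) = 1 + (r : ℝ) / 1000000 := by
      subst hr; norm_num
    rw [h5] at h1
    linarith
  -- measure of A0
  have hA0m : ∀ i, 1 / (r : ℝ) - (2 * r - 1) / 1000000 ≤ ∑ v ∈ A0 i, x v := by
    intro i
    have h1 : (univ : Finset V) ⊆ As ∪ A0 i ∪
        (univ.erase i).biUnion (fun j => univ.filter (fun w => ¬ G.Adj (q j) w)) := by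
      intro v _
      by_cases hv : v ∈ As
      · simp [hv]
      by_cases hv' : v ∈ A0 i
      · simp [hv']
      rw [mem_union]
      right
      rw [mem_biUnion]
      obtain ⟨j, hj⟩ := hmiss v
      by_cases hji : j = i
      · subst hji
        rw [hA0] at hv'
        push Not at hv'
        obtain ⟨k, hk, hkv⟩ := hv' hj
        exact ⟨k, mem_erase.mpr ⟨hk, mem_univ _⟩, by simpa [G.adj_comm] using hkv⟩
      · exact ⟨j, mem_erase.mpr ⟨hji, mem_univ _⟩, by simpa [G.adj_comm] using hj⟩
    have h2 := mono _ _ h1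
    rw [hsum] at h2
    have h3 : ∑ v ∈ As ∪ A0 i ∪
        (univ.erase i).biUnion (fun j => univ.filter (fun w => ¬ G.Adj (q j) w)), x v ≤
        ∑ v ∈ As, x v + ∑ v ∈ A0 i, x v +
        ∑ j ∈ univ.erase i, ∑ w ∈ univ.filter (fun w => ¬ G.Adj (q j) w), x w := by
      refine le_trans (sum_union_le' (fun v => hx0 v) _ _) ?_
      refine add_le_add (sum_union_le' (fun v => hx0 v) _ _) ?_
      exact sum_biUnion_le' (fun v => hx0 v) _ _
    have h4 : ∑ j ∈ univ.erase i, ∑ w ∈ univ.filter (fun w => ¬ G.Adj (q j) w), x w ≤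
        ∑ j ∈ univ.erase i, (1 / (r : ℝ) + 1 / 1000000) := sum_le_sum fun j _ => hdeg (q j)
    rw [sum_const, nsmul_eq_mul, card_erase_of_mem (mem_univ i), card_univ, Fintype.card_fin] at h4
    have h5 : ((r - 1 : ℕ) : ℝ) * (1 / (r : ℝ) + 1 / 1000000) =
        1 - 1 / (r : ℝ) + ((r : ℝ) - 1) / 1000000 := by
      subst hr; norm_num
    rw [h5] at h4
    have h6 : (2 * (r : ℝ) - 1) / 1000000 = (r : ℝ) / 1000000 + ((r : ℝ) - 1) / 1000000 := by ring
    linarith
  -- cliques from transversals
  have hclq : ∀ (I : Finset (Fin r)) (y : Fin r → V), (∀ i ∈ I, ∀ j ∈ I, i ≠ j → G.Adj (y i) (y j)) →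
      G.IsNClique I.card (I.image y) := by
    intro I y hy
    refine ⟨?_, ?_⟩
    · intro a ha b hb hab
      rw [mem_coe, mem_image] at ha hb
      obtain ⟨i, hi, rfl⟩ := ha
      obtain ⟨j, hj, rfl⟩ := hb
      exact hy i hi j hj (fun h => hab (h ▸ rfl))
    · refine card_image_of_injOn ?_
      intro i hi j hj hij
      by_contra hne
      have := hy i hi j hj hne
      rw [hij] at this
      exact G.irrefl this
  -- A0 independent
  have hind : ∀ i, ∀ v ∈ A0 i, ∀ w ∈ A0 i, ¬ G.Adj v w := by
    intro i v hv w hw hvw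
    rw [hA0] at hv hw
    have hc := hclq univ (Function.update q i w) (by
      intro j _ k _ hjk
      by_cases hj : j = i
      · subst hj
        rw [Function.update_self, Function.update_of_ne hjk.symm]
        exact hw.2 k hjk.symm
      · by_cases hk : k = i
        · subst hk
          rw [Function.update_self, Function.update_of_ne hjk]
          exact (hw.2 j hjk).symm
        · rw [Function.update_of_ne hj, Function.update_of_ne hk]
          exact hqadj j k hjk)
    have hadj : ∀ u ∈ univ.image (Function.update q i w), G.Adj v u := by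
      intro u hu
      rw [mem_image] at hu
      obtain ⟨j, _, rfl⟩ := hu
      by_cases hj : j = i
      · subst hj; rw [Function.update_self]; exact hvw
      · rw [Function.update_of_ne hj]; exact hv.2 j hj
    have hcc := hc.insert hadj
    rw [card_univ, Fintype.card_fin] at hcc
    exact hfree _ (hcc.mono hle)
  -- nonneighbours outside
  have hout : ∀ i, ∀ v ∈ A0 i, ∀ S : Finset V, (∀ w ∈ S, ¬ G.Adj v w ∧ w ∉ A0 i) →
      ∑ w ∈ S, x w ≤ 2 * r / 1000000 := by
    intro i v hv S hS
    have h1 : A0 i ∪ S ⊆ univ.filter (fun w => ¬ G.Adj v w) := by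
      intro w hw
      rw [mem_union] at hw
      rw [mem_filter]
      refine ⟨mem_univ _, ?_⟩
      rcases hw with hw | hw
      · exact hind i v hv w hw
      · exact (hS w hw).1
    have h2 := mono _ _ h1
    have hdisj : Disjoint (A0 i) S := by
      rw [disjoint_right]
      intro w hw
      exact (hS w hw).2
    rw [sum_union hdisj] at h2
    have h3 := hdeg v
    have h4 := hA0m i
    have h6 : (2 * (r : ℝ) - 1) / 1000000 = 2 * r / 1000000 - 1 / 1000000 := by ring
    linarith
  -- different A0 are disjoint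
  have hdis : ∀ i j, i ≠ j → ∀ v, v ∈ A0 i → v ∉ A0 j := by
    intro i j hij v hv hv'
    rw [hA0] at hv hv'
    exact hv.1 (hv'.2 i hij)
  -- Step J
  have hJ : ∀ v, ∃ i, ∑ w ∈ (A0 i).filter (fun w => G.Adj v w), x w ≤ r * (2 * r / 1000000) := by
    intro v
    by_contra hcon
    push Not at hcon
    obtain ⟨y, hy1, hy2⟩ := greedy G x hx0 (2 * r / 1000000) (by positivity) (univ : Finset (Fin r))
      (fun i => (A0 i).filter (fun w => G.Adj v w)) (by
        intro i _
        rw [hcardr]
        exact hcon i) (by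
        intro i _ j _ hij a ha
        refine hout i a (mem_filter.mp ha).1 _ ?_
        intro w hw
        simp only [mem_filter] at hw
        exact ⟨hw.2, fun h => hdis i j hij w h hw.1.1⟩) (Or.inr trivial) hV
    have hc := hclq univ y hy2
    have hadj : ∀ u ∈ univ.image y, G.Adj v u := by
      intro u hu
      rw [mem_image] at hu
      obtain ⟨j, _, rfl⟩ := hu
      exact (mem_filter.mp (hy1 j (mem_univ j))).2
    have hcc := hc.insert hadj
    rw [card_univ, Fintype.card_fin] at hcc
    exact hfree _ (hcc.mono hle)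
  choose f hf using hJ
  have hfA0 : ∀ i, ∀ v ∈ A0 i, f v = i := by
    intro i v hv
    by_contra hne
    have h1 := hout i v hv ((A0 (f v)).filter (fun w => ¬ G.Adj v w)) (by
      intro w hw
      simp only [mem_filter] at hw
      exact ⟨hw.2, fun h => hdis i (f v) (fun h => hne h.symm) w h hw.1⟩)
    have h2 := hf v
    have h3 := sum_filter_add_sum_filter_not (A0 (f v)) (fun w => G.Adj v w) x
    have h4 := hA0m (f v)
    subst hr
    norm_num at h1 h2 h3 h4
    linarith
  have hnonout : ∀ v, ∀ S : Finset V, (∀ w ∈ S, ¬ G.Adj v w ∧ w ∉ A0 (f v)) →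
      ∑ w ∈ S, x w ≤ (2 * r ^ 2 + 2 * r) / 1000000 := by
    intro v S hS
    have h1 : (A0 (f v)).filter (fun w => ¬ G.Adj v w) ∪ S ⊆
        univ.filter (fun w => ¬ G.Adj v w) := by
      intro w hw
      rw [mem_union] at hw
      rw [mem_filter]
      refine ⟨mem_univ _, ?_⟩
      rcases hw with hw | hw
      · exact (mem_filter.mp hw).2
      · exact (hS w hw).1
    have h2 := mono _ _ h1
    have hdisj : Disjoint ((A0 (f v)).filter (fun w => ¬ G.Adj v w)) S := by
      rw [disjoint_right]
      intro w hw hw'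
      exact (hS w hw).2 (mem_filter.mp hw').1
    rw [sum_union hdisj] at h2
    have h3 := hdeg v
    have h4 := hA0m (f v)
    have h5 := hf v
    have h6 := sum_filter_add_sum_filter_not (A0 (f v)) (fun w => G.Adj v w) x
    have h7 : (2 * (r : ℝ) - 1) / 1000000 = 2 * r / 1000000 - 1 / 1000000 := by ring
    have h8 : (2 * (r : ℝ) ^ 2 + 2 * r) / 1000000 = r * (2 * r / 1000000) + 2 * r / 1000000 := by
      ring
    linarith
  have hfib : ∀ a b, G'.Adj a b → f a ≠ f b := by
    intro a b hab heq
    obtain ⟨y, hy1, hy2⟩ := greedy G x hx0 (2 * r / 1000000) (by positivity)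
      ((univ : Finset (Fin r)).erase (f a))
      (fun j => (A0 j).filter (fun w => G.Adj a w ∧ G.Adj b w)) (by
        intro j hj
        have hja : j ≠ f a := (mem_erase.mp hj).1
        rw [card_erase_of_mem (mem_univ _), card_univ, Fintype.card_fin]
        have h1 := hnonout a ((A0 j).filter (fun w => ¬ G.Adj a w)) (by
          intro w hw
          simp only [mem_filter] at hw
          exact ⟨hw.2, fun h => hdis (f a) j hja.symm w h hw.1⟩)
        have h2 := hnonout b ((A0 j).filter (fun w => ¬ G.Adj b w)) (by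
          intro w hw
          simp only [mem_filter] at hw
          exact ⟨hw.2, fun h => hdis (f b) j (heq ▸ hja.symm) w h hw.1⟩)
        have h3 : A0 j ⊆ (A0 j).filter (fun w => G.Adj a w ∧ G.Adj b w) ∪
            ((A0 j).filter (fun w => ¬ G.Adj a w) ∪ (A0 j).filter (fun w => ¬ G.Adj b w)) := by
          intro w hw
          by_cases h1 : G.Adj a w <;> by_cases h2 : G.Adj b w <;> simp [hw, h1, h2]
        have h4 := mono _ _ h3
        have h5 := sum_union_le' hx0 ((A0 j).filter (fun w => G.Adj a w ∧ G.Adj b w))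
          ((A0 j).filter (fun w => ¬ G.Adj a w) ∪ (A0 j).filter (fun w => ¬ G.Adj b w))
        have h6 := sum_union_le' hx0 ((A0 j).filter (fun w => ¬ G.Adj a w))
          ((A0 j).filter (fun w => ¬ G.Adj b w))
        have h7 := hA0m j
        subst hr
        norm_num at h1 h2 h4 h5 h6 h7 ⊢
        linarith) (by
        intro i hi j hj hij c hc
        refine hout i c (mem_filter.mp hc).1 _ ?_
        intro w hw
        simp only [mem_filter] at hw
        exact ⟨hw.2, fun h => hdis i j hij w h hw.1.1⟩) (Or.inr trivial) hV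
    have hc := hclq ((univ : Finset (Fin r)).erase (f a)) y hy2
    have hadjb : ∀ u ∈ ((univ : Finset (Fin r)).erase (f a)).image y, G'.Adj b u := by
      intro u hu
      rw [mem_image] at hu
      obtain ⟨j, hj, rfl⟩ := hu
      exact hle (mem_filter.mp (hy1 j hj)).2.2
    have hcc := (hc.mono hle).insert hadjb
    have hadja : ∀ u ∈ insert b (((univ : Finset (Fin r)).erase (f a)).image y), G'.Adj a u := by
      intro u hu
      rw [mem_insert] at hu
      rcases hu with rfl | hu
      · exact hab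
      · rw [mem_image] at hu
        obtain ⟨j, hj, rfl⟩ := hu
        exact hle (mem_filter.mp (hy1 j hj)).2.1
    have hccc := hcc.insert hadja
    rw [card_erase_of_mem (mem_univ _), card_univ, Fintype.card_fin] at hccc
    have : r - 1 + 1 + 1 = r + 1 := by omega
    rw [this] at hccc
    exact hfree _ hccc
  have hmass : ∀ i, 1 / (r : ℝ) - (2 * r - 1) / 1000000 ≤
      ∑ v ∈ univ.filter (fun v => f v = i), x v := by
    intro i
    refine le_trans (hA0m i) (mono _ _ ?_)
    intro v hv
    rw [mem_filter]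
    exact ⟨mem_univ _, hfA0 i v hv⟩
  refine ⟨f, hfib, ?_, ?_⟩
  · intro i
    refine le_trans ?_ (hmass i)
    have : (0 : ℝ) < 1 / 1000000 := by norm_num
    have h7 : (2 * (r : ℝ) - 1) / 1000000 = 2 * r / 1000000 - 1 / 1000000 := by ring
    linarith
  · intro v
    have h1 : univ.filter (fun w => f w = f v) ∪
        univ.filter (fun w => f w ≠ f v ∧ ¬ G.Adj v w) ⊆ univ.filter (fun w => ¬ G.Adj v w) := by
      intro w hw
      simp only [mem_union, mem_filter, mem_univ, true_and] at hw ⊢
      rcases hw with hw | hw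
      · exact fun h => hfib v w (hle h) hw.symm
      · exact hw.2
    have hdisj : Disjoint (univ.filter (fun w => f w = f v))
        (univ.filter (fun w => f w ≠ f v ∧ ¬ G.Adj v w)) := by
      rw [disjoint_left]
      intro w hw hw'
      simp only [mem_filter, mem_univ, true_and] at hw hw'
      exact hw'.1 hw
    have h2 := mono _ _ h1
    rw [sum_union hdisj] at h2
    have h3 := hdeg v
    have h4 := hmass (f v)
    have h7 : (2 * (r : ℝ) - 1) / 1000000 = 2 * r / 1000000 - 1 / 1000000 := by ring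
    linarith

end Pool.Agent.Helper45.Turan
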