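import Pool.Agent.Helper45.Turan.Core
import Pool.Agent.Helper45.Turan.Partition

/-! Structure of a maximal weighting. -/

namespace Pool.Agent.Helper45.Turan

open Finset

variable {V : Type*} [Fintype V] [DecidableEq V]

/-- the family of all pairs has weight at most `1/2` -/
lemma pairs_le (x : V → ℝ) (hx : ∀ v, 0 ≤ x v) (hsum : ∑ v, x v = 1) :
    fw x (powersetCard 2 univ) ≤ 1 / 2 := by
  have h1 : ∑ e ∈ (univ : Finset V).offDiag, x e.1 * x e.2 = 2 * fw x (powersetCard 2 univ) := by
    unfold fw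
    rw [mul_sum]
    have hmap : ∀ e ∈ (univ : Finset V).offDiag, ({e.1, e.2} : Finset V) ∈ powersetCard 2 univ := by
      intro e he
      rw [mem_offDiag] at he
      rw [mem_powersetCard]
      exact ⟨subset_univ _, card_pair he.2.2⟩
    rw [← sum_fiberwise_of_maps_to hmap]
    refine sum_congr rfl fun Q hQ => ?_
    rw [mem_powersetCard] at hQ
    obtain ⟨a, b, hab, rfl⟩ := card_eq_two.mp hQ.2
    have h2 : (univ : Finset V).offDiag.filter (fun e => ({e.1, e.2} : Finset V) = {a, b}) =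
        {(a, b), (b, a)} := by
      ext ⟨c, d⟩
      simp only [mem_filter, mem_offDiag, mem_univ, true_and, mem_insert, mem_singleton,
        Prod.mk.injEq]
      constructor
      · rintro ⟨hcd, h⟩
        have hc : c ∈ ({a, b} : Finset V) := by rw [← h]; simp
        have hd : d ∈ ({a, b} : Finset V) := by rw [← h]; simp
        simp only [mem_insert, mem_singleton] at hc hd
        rcases hc with rfl | rfl <;> rcases hd with rfl | rfl
        · exact absurd rfl hcd
        · left; exact ⟨rfl, rfl⟩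
        · right; exact ⟨rfl, rfl⟩
        · exact absurd rfl hcd
      · rintro (⟨rfl, rfl⟩ | ⟨rfl, rfl⟩)
        · exact ⟨hab, rfl⟩
        · exact ⟨hab.symm, pair_comm _ _⟩
    rw [h2, sum_pair (by simp [hab]), prod_pair hab]
    ring
  have h3 : ∑ e ∈ (univ : Finset V).offDiag, x e.1 * x e.2 ≤
      ∑ e ∈ (univ : Finset V) ×ˢ (univ : Finset V), x e.1 * x e.2 := by
    refine sum_le_sum_of_subset_of_nonneg ?_ (fun e _ _ => mul_nonneg (hx _) (hx _))
    intro e _
    simp
  rw [sum_product, ← sum_mul_sum, hsum] at h3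
  linarith

/-- two families of pairs of weight more than `1/4` meet -/
lemma common_pair (x : V → ℝ) (hx : ∀ v, 0 ≤ x v) (hsum : ∑ v, x v = 1)
    (F G : Finset (Finset V)) (hF : ∀ Q ∈ F, Q.card = 2) (hG : ∀ Q ∈ G, Q.card = 2)
    (h1 : 1 / 4 < fw x F) (h2 : 1 / 4 < fw x G) : ∃ Q ∈ F, Q ∈ G := by
  by_contra hcon
  push Not at hcon
  have hdisj : Disjoint F G := by
    rw [disjoint_left]; exact hcon
  have h3 : fw x F + fw x G ≤ fw x (powersetCard 2 univ) := by
    unfold fw
    rw [← sum_union hdisj]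
    refine sum_le_sum_of_subset_of_nonneg ?_ (fun e _ _ => prod_nonneg fun v _ => hx v)
    intro Q hQ
    rw [mem_powersetCard]
    refine ⟨subset_univ _, ?_⟩
    rcases mem_union.mp hQ with h | h
    · exact hF Q h
    · exact hG Q h
  have := pairs_le x hx hsum
  linarith

/-- the elementary symmetric bound -/
lemma esymm_le (x : V → ℝ) (hx : ∀ v, 0 ≤ x v) (m : ℕ) (S : Finset V) :
    ∑ C ∈ powersetCard m S, ∏ v ∈ C, x v ≤ (∑ v ∈ S, x v) ^ m := by
  induction S using Finset.induction_on generalizing m with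
  | empty =>
    cases m with
    | zero => simp
    | succ m =>
      rw [powersetCard_eq_empty.mpr (by simp)]
      simp
  | insert a S ha ih =>
    cases m with
    | zero => simp
    | succ m =>
      have hs : 0 ≤ ∑ v ∈ S, x v := sum_nonneg fun v _ => hx v
      have hdisj : Disjoint (powersetCard (m + 1) S) ((powersetCard m S).image (insert a)) := by
        rw [disjoint_left]
        intro Q hQ hQ'
        rw [mem_image] at hQ'
        obtain ⟨C, _, rfl⟩ := hQ'
        exact ha ((mem_powersetCard.mp hQ).1 (mem_insert_self _ _))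
      rw [powersetCard_succ_insert ha, sum_union hdisj, sum_image]
      · have h1 : ∑ C ∈ powersetCard m S, ∏ v ∈ insert a C, x v =
            x a * ∑ C ∈ powersetCard m S, ∏ v ∈ C, x v := by
          rw [mul_sum]
          refine sum_congr rfl fun C hC => ?_
          rw [prod_insert (fun h => ha ((mem_powersetCard.mp hC).1 h))]
        rw [h1, sum_insert ha]
        have h2 := ih (m + 1)
        have h3 := mul_le_mul_of_nonneg_left (ih m) (hx a)
        have h4 : (∑ v ∈ S, x v) ^ (m + 1) + x a * (∑ v ∈ S, x v) ^ m ≤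
            (x a + ∑ v ∈ S, x v) ^ (m + 1) := by
          have h5 : (∑ v ∈ S, x v) ^ m ≤ (x a + ∑ v ∈ S, x v) ^ m :=
            pow_le_pow_left₀ hs (by linarith [hx a]) _
          have h6 := mul_le_mul_of_nonneg_right h5 (show 0 ≤ x a + ∑ v ∈ S, x v by
            linarith [hx a])
          rw [pow_succ, pow_succ]
          linarith
        linarith
      · intro C hC D hD hCD
        have h1 : a ∉ C := fun h => ha ((mem_powersetCard.mp hC).1 h)
        have h2 : a ∉ D := fun h => ha ((mem_powersetCard.mp hD).1 h)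
        have hCD' : insert a C = insert a D := hCD
        rw [← erase_insert h1, ← erase_insert h2, hCD']

variable {E : Finset (Finset V)} {r : ℕ}

section

variable (hr : r = 20) (hE : ∀ e ∈ E, e.card = r) (hS : Star E r 10)
  (x : V → ℝ) (hx : ∀ v, 0 < x v) (hsum : ∑ v, x v = 1)
  (hL : ∀ v, (1 / (r : ℝ)) ^ (r - 1) < LL E x v)

include hr hE hS hx hsum hL

/-- a hub reaching all vertices -/
lemma hub_reach : ∃ p q : V, p ≠ q ∧ (∃ e ∈ E, p ∈ e ∧ q ∈ e) ∧
    ∀ v, ∃ B : Finset V, 1 - 1 / (r : ℝ) - 1 / 1000000 ≤ ∑ a ∈ B, x a ∧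
      ∀ w ∈ B, Near E p q 8 v w := by
  have hx0 : ∀ v, 0 ≤ x v := fun v => (hx v).le
  have hV : Nonempty V := by
    by_contra h
    rw [not_nonempty_iff] at h
    rw [univ_eq_empty, sum_empty] at hsum
    norm_num at hsum
  choose u hu1 hu2 using exists_hub hr hE hS x hx hsum hL
  obtain ⟨p⟩ := hV
  -- the families
  let F : V → Finset (Finset V) := fun v =>
    ((Lnk E v).cliqueFinset 2).filter (fun Q => Q ⊆ BB E v (u v))
  have hF : ∀ v, 1 / 4 < fw x (F v) := by
    intro v
    refine lt_of_lt_of_le (edges_BB hr hE hS x hx hsum hL v (u v) (hu1 v) (hu2 v)) ?_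
    unfold fw
    have h1 : ∑ Q ∈ (Lnk E v).cliqueFinset 2, ∏ w ∈ Q, rw' x (BB E v (u v)) w =
        ∑ Q ∈ F v, ∏ w ∈ Q, rw' x (BB E v (u v)) w := by
      symm
      refine sum_subset (filter_subset _ _) ?_
      intro Q hQ hQ'
      have : ¬ Q ⊆ BB E v (u v) := fun h => hQ' (mem_filter.mpr ⟨hQ, h⟩)
      obtain ⟨w, hw, hw'⟩ := not_subset.mp this
      refine prod_eq_zero hw ?_
      unfold rw'
      rw [if_neg hw']
    rw [h1]
    refine le_of_eq (sum_congr rfl fun Q hQ => prod_congr rfl fun w hw => ?_)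
    unfold rw'
    rw [if_pos ((mem_filter.mp hQ).2 hw)]
  have hF2 : ∀ v, ∀ Q ∈ F v, Q.card = 2 := by
    intro v Q hQ
    have := (mem_filter.mp hQ).1
    rw [SimpleGraph.mem_cliqueFinset_iff] at this
    exact this.card_eq
  have hFm : ∀ v, ∀ Q ∈ F v, ∀ a ∈ Q, ∀ b ∈ Q, a ≠ b → (Lnk E v).Adj a b ∧
      a ∈ BB E v (u v) ∧ b ∈ BB E v (u v) := by
    intro v Q hQ a ha b hb hab
    have hQ' := mem_filter.mp hQ
    rw [SimpleGraph.mem_cliqueFinset_iff] at hQ'
    exact ⟨hQ'.1.isClique ha hb hab, hQ'.2 ha, hQ'.2 hb⟩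
  refine ⟨p, u p, (hu1 p).symm, ?_, ?_⟩
  · -- an edge containing the hub
    have h1 : 0 < ∑ a ∈ NN E p (u p), x a := by
      refine lt_of_lt_of_le ?_ (hu2 p)
      subst hr; norm_num
    obtain ⟨a, ha⟩ : (NN E p (u p)).Nonempty := by
      by_contra h
      rw [not_nonempty_iff_eq_empty] at h
      rw [h, sum_empty] at h1
      exact lt_irrefl _ h1
    rw [mem_NN] at ha
    obtain ⟨_, _, _, e, he, hpe, hue, _⟩ := ha
    exact ⟨e, he, hpe, hue⟩
  · intro v
    refine ⟨BB E v (u v), measure_BB hr hE hS x hx hsum hL v (u v) (hu1 v) (hu2 v), ?_⟩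
    intro w hw
    obtain ⟨Q, hQ1, hQ2⟩ := common_pair x hx0 hsum (F p) (F v) (hF2 p) (hF2 v) (hF p) (hF v)
    obtain ⟨a, b, hab, rfl⟩ := card_eq_two.mp (hF2 p Q hQ1)
    have h1 := hFm p _ hQ1 a (by simp) b (by simp) hab
    have h2 := hFm v _ hQ2 a (by simp) b (by simp) hab
    have n3 : Near E p (u p) 3 a b := near_BB' h1.2.1 h1.1
    obtain ⟨_, hav, hbv, e, he, hve, hae, hbe⟩ := h2.1
    have n4 : Near E p (u p) 4 v a := near_step n3 he hae hbe hve hae (Ne.symm hav)
    obtain ⟨c, hc1, hc2⟩ := (mem_BB v (u v) a).mp h2.2.1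
    obtain ⟨hac, _, hcv, f, hf, hvf, haf, hcf⟩ := hc2
    have n5 : Near E p (u p) 5 v c := near_step n4 hf hvf haf hvf hcf (Ne.symm hcv)
    obtain ⟨huc, huv, _, g, hg, hvg, hug, hcg⟩ := hc1
    have n6 : Near E p (u p) 6 v (u v) := near_step n5 hg hvg hcg hvg hug (Ne.symm huv)
    exact near_trans n6 (near_BB hw)

end

omit [Fintype V] in
lemma fw_mono (x : V → ℝ) (hx : ∀ v, 0 ≤ x v) {F G : Finset (Finset V)} (h : F ⊆ G) :
    fw x F ≤ fw x G :=
  sum_le_sum_of_subset_of_nonneg h (fun _ _ _ => prod_nonneg fun v _ => hx v)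

omit [Fintype V] in
lemma fw_union_le (x : V → ℝ) (hx : ∀ v, 0 ≤ x v) (F G : Finset (Finset V)) :
    fw x (F ∪ G) ≤ fw x F + fw x G := by
  unfold fw
  rw [← sum_union_inter]
  have : 0 ≤ ∑ v ∈ F ∩ G, ∏ w ∈ v, x w := sum_nonneg fun v _ => prod_nonneg fun w _ => hx w
  linarith

/-- comparison of bad edges with missing transversals -/
theorem compare (hr : r = 20) (hE : ∀ e ∈ E, e.card = r)
    (x : V → ℝ) (hx0 : ∀ v, 0 ≤ x v) (p q : V)
    (f : V → Fin r) (hf1 : ∀ a b, Near E p q 10 a b → f a ≠ f b)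
    (hf2 : ∀ i, 1 / (r : ℝ) - 2 * r / 1000000 ≤ ∑ v ∈ univ.filter (fun v => f v = i), x v)
    (D8 : V → Finset V) (hD8 : ∀ v w, w ∈ D8 v ↔ (f w ≠ f v ∧ ¬ Near E p q 8 v w))
    (hf3 : ∀ v, ∑ w ∈ D8 v, x w ≤ 2 * r / 1000000) :
    fw x E ≤ ∏ i, ∑ v ∈ univ.filter (fun v => f v = i), x v +
      ∑ i, fw x (E.filter (fun e => ∀ v ∈ e, f v = i)) := by
  classical
  -- classes of edges
  let Good := E.filter (fun e => ∃ a ∈ e, ∃ b ∈ e, Near E p q 9 a b)
  let Ins := E.filter (fun e => ∃ i, ∀ v ∈ e, f v = i)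
  let Bad := E.filter (fun e => (∀ a ∈ e, ∀ b ∈ e, ¬ Near E p q 9 a b) ∧ ¬ ∃ i, ∀ v ∈ e, f v = i)
  have hsplit : fw x E ≤ fw x Good + fw x Bad + fw x Ins := by
    have h1 : E ⊆ (Good ∪ Bad) ∪ Ins := by
      intro e he
      by_cases h2 : ∃ a ∈ e, ∃ b ∈ e, Near E p q 9 a b
      · exact mem_union_left _ (mem_union_left _ (mem_filter.mpr ⟨he, h2⟩))
      · by_cases h3 : ∃ i, ∀ v ∈ e, f v = i
        · exact mem_union_right _ (mem_filter.mpr ⟨he, h3⟩)
        · refine mem_union_left _ (mem_union_right _ (mem_filter.mpr ⟨he, ?_, h3⟩))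
          push Not at h2
          exact h2
    have h2 := fw_mono x hx0 h1
    have h3 := fw_union_le x hx0 (Good ∪ Bad) Ins
    have h4 := fw_union_le x hx0 Good Bad
    linarith
  have hIns : fw x Ins ≤ ∑ i, fw x (E.filter (fun e => ∀ v ∈ e, f v = i)) := by
    have h1 : Ins ⊆ (univ : Finset (Fin r)).biUnion
        (fun i => E.filter (fun e => ∀ v ∈ e, f v = i)) := by
      intro e he
      obtain ⟨he, i, hi⟩ := mem_filter.mp he
      exact mem_biUnion.mpr ⟨i, mem_univ _, mem_filter.mpr ⟨he, hi⟩⟩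
    refine le_trans (fw_mono x hx0 h1) ?_
    unfold fw
    refine le_trans (sum_biUnion_le' (fun Q => prod_nonneg fun v _ => hx0 v) _ _) (le_refl _)
  -- far pairs
  let D : Finset (V × V) := univ.filter (fun e => f e.1 ≠ f e.2 ∧ ¬ Near E p q 9 e.1 e.2)
  have hDm : ∀ e, e ∈ D ↔ (f e.1 ≠ f e.2 ∧ ¬ Near E p q 9 e.1 e.2) := by
    intro e; simp [D]
  -- the bad edges
  have hBad : fw x Bad ≤ ∑ e ∈ D, x e.1 * x e.2 * (4 * r / 1000000) ^ (r - 2) := by
    have h1 : fw x Bad ≤ ∑ Q ∈ Bad, ∑ e ∈ D, if e.1 ∈ Q ∧ e.2 ∈ Q then ∏ v ∈ Q, x v else 0 := by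
      unfold fw
      refine sum_le_sum fun Q hQ => ?_
      obtain ⟨hQE, hQ1, hQ2⟩ := mem_filter.mp hQ
      -- find a far pair
      have hcard := hE Q hQE
      obtain ⟨a, ha⟩ : Q.Nonempty := by rw [← card_pos]; omega
      obtain ⟨b, hb, hab⟩ : ∃ b ∈ Q, f b ≠ f a := by
        by_contra hcon
        push Not at hcon
        exact hQ2 ⟨f a, hcon⟩
      have h2 : (a, b) ∈ D := by
        rw [hDm]
        exact ⟨hab.symm, hQ1 a ha b hb⟩
      have h3 := single_le_sum (f := fun e : V × V => if e.1 ∈ Q ∧ e.2 ∈ Q then ∏ v ∈ Q, x v else 0)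
        (s := D) (fun e _ => by
          by_cases h : e.1 ∈ Q ∧ e.2 ∈ Q
          · simp only [if_pos h]; exact prod_nonneg fun v _ => hx0 v
          · simp only [if_neg h]; exact le_refl _) h2
      simp only [ha, hb, and_self, if_true] at h3
      exact h3
    rw [sum_comm] at h1
    refine le_trans h1 (sum_le_sum fun e he => ?_)
    rw [hDm] at he
    obtain ⟨hfe, hfar⟩ := he
    rw [← sum_filter]
    have hne : e.1 ≠ e.2 := fun h => hfe (by rw [h])
    -- map Q to Q \ {e.1, e.2}
    have h2 : ∑ Q ∈ Bad.filter (fun Q => e.1 ∈ Q ∧ e.2 ∈ Q), ∏ v ∈ Q, x v =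
        x e.1 * x e.2 * ∑ Q ∈ Bad.filter (fun Q => e.1 ∈ Q ∧ e.2 ∈ Q),
          ∏ v ∈ (Q.erase e.1).erase e.2, x v := by
      rw [mul_sum]
      refine sum_congr rfl fun Q hQ => ?_
      obtain ⟨_, h3, h4⟩ := mem_filter.mp hQ
      rw [mul_assoc, mul_prod_erase _ _ (mem_erase.mpr ⟨hne.symm, h4⟩), mul_prod_erase _ _ h3]
    rw [h2]
    refine mul_le_mul_of_nonneg_left ?_ (mul_nonneg (hx0 _) (hx0 _))
    have hinj : Set.InjOn (fun Q : Finset V => (Q.erase e.1).erase e.2)
        (Bad.filter (fun Q => e.1 ∈ Q ∧ e.2 ∈ Q)) := by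
      intro Q hQ R hR hQR
      simp only [coe_filter, Set.mem_ofPred_eq] at hQ hR
      have h3 : insert e.1 (insert e.2 ((Q.erase e.1).erase e.2)) = Q := by
        rw [insert_erase (mem_erase.mpr ⟨hne.symm, hQ.2.2⟩), insert_erase hQ.2.1]
      have h4 : insert e.1 (insert e.2 ((R.erase e.1).erase e.2)) = R := by
        rw [insert_erase (mem_erase.mpr ⟨hne.symm, hR.2.2⟩), insert_erase hR.2.1]
      have hQR' : (Q.erase e.1).erase e.2 = (R.erase e.1).erase e.2 := hQR
      rw [← h3, ← h4, hQR']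
    rw [← sum_image (f := fun Q : Finset V => ∏ v ∈ Q, x v) hinj]
    have h5 : (Bad.filter (fun Q => e.1 ∈ Q ∧ e.2 ∈ Q)).image
        (fun Q : Finset V => (Q.erase e.1).erase e.2) ⊆ powersetCard (r - 2) (D8 e.1 ∪ D8 e.2) := by
      intro C hC
      rw [mem_image] at hC
      obtain ⟨Q, hQ, rfl⟩ := hC
      obtain ⟨hQB, h3, h4⟩ := mem_filter.mp hQ
      obtain ⟨hQE, hQ1, hQ2⟩ := mem_filter.mp hQB
      rw [mem_powersetCard]
      constructor
      · intro z hz
        simp only [mem_erase] at hz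
        rw [mem_union, hD8, hD8]
        have hn1 : ¬ Near E p q 8 e.1 z := fun h =>
          hQ1 _ h3 _ hz.2.2 (near_mono (by norm_num) (by norm_num) h)
        have hn2 : ¬ Near E p q 8 e.2 z := fun h =>
          hQ1 _ h4 _ hz.2.2 (near_mono (by norm_num) (by norm_num) h)
        by_cases hz1 : f z = f e.1
        · right
          exact ⟨fun h => hfe (hz1.symm.trans h), hn2⟩
        · left
          exact ⟨hz1, hn1⟩
      · rw [card_erase_of_mem (mem_erase.mpr ⟨hne.symm, h4⟩), card_erase_of_mem h3, hE Q hQE]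
        omega
    refine le_trans (sum_le_sum_of_subset_of_nonneg h5
      (fun C _ _ => prod_nonneg fun v _ => hx0 v)) ?_
    refine le_trans (esymm_le x hx0 _ _) ?_
    refine pow_le_pow_left₀ (sum_nonneg fun v _ => hx0 v) ?_ _
    refine le_trans (sum_union_le' hx0 _ _) ?_
    have h6 := hf3 e.1
    have h7 := hf3 e.2
    have h8 : (4 * (r : ℝ)) / 1000000 = 2 * r / 1000000 + 2 * r / 1000000 := by ring
    linarith
  -- transversals
  let P : Finset (Fin r → V) := Fintype.piFinset (fun i => univ.filter (fun v => f v = i))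
  have hP : ∀ g, g ∈ P ↔ ∀ i, f (g i) = i := by
    intro g; simp [P, Fintype.mem_piFinset]
  have hPsum : ∏ i, ∑ v ∈ univ.filter (fun v => f v = i), x v = ∑ g ∈ P, ∏ i, x (g i) := by
    rw [prod_univ_sum]
  have hPinj : ∀ g ∈ P, Function.Injective g := by
    intro g hg i j hij
    rw [hP] at hg
    rw [← hg i, ← hg j, hij]
  have hPprod : ∀ g ∈ P, ∏ v ∈ univ.image g, x v = ∏ i, x (g i) := by
    intro g hg
    rw [prod_image (fun i _ j _ h => hPinj g hg h)]
  have hGood : fw x Good ≤ ∑ g ∈ P.filter (fun g => univ.image g ∈ Good), ∏ i, x (g i) := by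
    have h1 : Good ⊆ (P.filter (fun g => univ.image g ∈ Good)).image (fun g => univ.image g) := by
      intro Q hQ
      obtain ⟨hQE, a, ha, b, hb, hab⟩ := mem_filter.mp hQ
      have hinjf : ∀ c ∈ Q, ∀ d ∈ Q, f c = f d → c = d := by
        intro c hc d hd hcd
        by_contra hne
        exact hf1 c d (near_step hab hQE ha hb hc hd hne) hcd
      have hsurj : ∀ i : Fin r, ∃ c ∈ Q, f c = i := by
        have h2 : Q.image f = univ := by
          apply eq_univ_of_card
          rw [card_image_of_injOn (fun c hc d hd h => hinjf c hc d hd h), hE Q hQE,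
            Fintype.card_fin]
        intro i
        have : i ∈ Q.image f := by rw [h2]; exact mem_univ _
        rw [mem_image] at this
        exact this
      choose g hg1 hg2 using hsurj
      have hgQ : univ.image g = Q := by
        apply eq_of_subset_of_card_le
        · intro c hc
          rw [mem_image] at hc
          obtain ⟨i, _, rfl⟩ := hc
          exact hg1 i
        · rw [card_image_of_injective, card_univ, Fintype.card_fin, hE Q hQE]
          intro i j hij
          rw [← hg2 i, ← hg2 j, hij]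
      rw [mem_image]
      refine ⟨g, mem_filter.mpr ⟨(hP g).mpr hg2, ?_⟩, hgQ⟩
      rw [hgQ]; exact hQ
    refine le_trans (fw_mono x hx0 h1) ?_
    unfold fw
    rw [sum_image]
    · refine le_of_eq (sum_congr rfl fun g hg => ?_)
      exact hPprod g (mem_filter.mp hg).1
    · intro g hg h hh hgh
      have hg' := (hP g).mp (mem_filter.mp hg).1
      have hh' := (hP h).mp (mem_filter.mp hh).1
      funext i
      have h2 : g i ∈ univ.image h := by
        have hgh' : univ.image g = univ.image h := hgh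
        rw [← hgh']
        exact mem_image_of_mem g (mem_univ i)
      rw [mem_image] at h2
      obtain ⟨j, _, hj⟩ := h2
      have h3 : j = i := by
        rw [← hh' j, hj, hg' i]
      rw [← hj, h3]
  -- missing transversals
  have hMiss : ∑ e ∈ D, x e.1 * x e.2 * (1 / (r : ℝ) - 4 * r / 1000000) ^ (r - 2) ≤
      (r : ℝ) ^ 2 * ∑ g ∈ P.filter (fun g => ¬ univ.image g ∈ Good), ∏ i, x (g i) := by
    -- transversals through a far pair
    let t : V × V → Fin r → Finset V := fun e i =>
      if i = f e.1 then {e.1} else if i = f e.2 then {e.2} else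
        univ.filter (fun v => f v = i ∧ Near E p q 8 e.1 v)
    have ht : ∀ e ∈ D, x e.1 * x e.2 * (1 / (r : ℝ) - 4 * r / 1000000) ^ (r - 2) ≤
        ∏ i, ∑ v ∈ t e i, x v := by
      intro e he
      rw [hDm] at he
      obtain ⟨hfe, hfar⟩ := he
      rw [← mul_prod_erase univ _ (mem_univ (f e.1)),
        ← mul_prod_erase (univ.erase (f e.1)) _ (mem_erase.mpr ⟨hfe.symm, mem_univ (f e.2)⟩)]
      have h1 : ∑ v ∈ t e (f e.1), x v = x e.1 := by simp [t]
      have h2 : ∑ v ∈ t e (f e.2), x v = x e.2 := by simp [t, hfe.symm]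
      rw [h1, h2, mul_assoc]
      refine mul_le_mul_of_nonneg_left (mul_le_mul_of_nonneg_left ?_ (hx0 _)) (hx0 _)
      have h3 : (1 / (r : ℝ) - 4 * r / 1000000) ^ (r - 2) =
          ∏ i ∈ (univ.erase (f e.1)).erase (f e.2), (1 / (r : ℝ) - 4 * r / 1000000) := by
        rw [prod_const, card_erase_of_mem (mem_erase.mpr ⟨hfe.symm, mem_univ (f e.2)⟩),
          card_erase_of_mem (mem_univ _), card_univ, Fintype.card_fin]
        congr 1
      rw [h3]
      refine prod_le_prod (fun i _ => by subst hr; norm_num) (fun i hi => ?_)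
      simp only [mem_erase] at hi
      have h4 : t e i = univ.filter (fun v => f v = i ∧ Near E p q 8 e.1 v) := by
        simp only [t, if_neg hi.1, if_neg hi.2.1]
      rw [h4]
      have h5 := hf2 i
      have h6 : univ.filter (fun v => f v = i) ⊆
          univ.filter (fun v => f v = i ∧ Near E p q 8 e.1 v) ∪ D8 e.1 := by
        intro v hv
        simp only [mem_filter, mem_univ, true_and] at hv
        by_cases h7 : Near E p q 8 e.1 v
        · exact mem_union_left _ (by simp [hv, h7])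
        · refine mem_union_right _ ((hD8 _ _).mpr ⟨?_, h7⟩)
          rw [hv]; exact hi.2.1
      have h7 : ∑ v ∈ univ.filter (fun v => f v = i), x v ≤
          ∑ v ∈ univ.filter (fun v => f v = i ∧ Near E p q 8 e.1 v) ∪ D8 e.1, x v :=
        sum_le_sum_of_subset_of_nonneg h6 (fun v _ _ => hx0 v)
      have h8 := sum_union_le' hx0 (univ.filter (fun v => f v = i ∧ Near E p q 8 e.1 v)) (D8 e.1)
      have h9 := hf3 e.1
      have h10 : (4 * (r : ℝ)) / 1000000 = 2 * r / 1000000 + 2 * r / 1000000 := by ring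
      linarith
    have ht2 : ∀ e ∈ D, ∏ i, ∑ v ∈ t e i, x v ≤
        ∑ g ∈ P.filter (fun g => ¬ univ.image g ∈ Good),
          if e.1 ∈ univ.image g ∧ e.2 ∈ univ.image g then ∏ i, x (g i) else 0 := by
      intro e he
      rw [hDm] at he
      obtain ⟨hfe, hfar⟩ := he
      rw [prod_univ_sum, ← sum_filter]
      refine sum_le_sum_of_subset_of_nonneg ?_ (fun g _ _ => prod_nonneg fun i _ => hx0 _)
      intro g hg
      rw [Fintype.mem_piFinset] at hg
      have g1 : g (f e.1) = e.1 := by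
        have := hg (f e.1)
        simpa [t] using this
      have g2 : g (f e.2) = e.2 := by
        have := hg (f e.2)
        simpa [t, hfe.symm] using this
      have g3 : ∀ i, i ≠ f e.1 → i ≠ f e.2 → f (g i) = i ∧ Near E p q 8 e.1 (g i) := by
        intro i h1 h2
        have := hg i
        simpa [t, h1, h2] using this
      have m1 : e.1 ∈ univ.image g := by
        rw [mem_image]; exact ⟨_, mem_univ _, g1⟩
      have m2 : e.2 ∈ univ.image g := by
        rw [mem_image]; exact ⟨_, mem_univ _, g2⟩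
      rw [mem_filter, mem_filter]
      refine ⟨⟨?_, ?_⟩, m1, m2⟩
      · rw [hP]
        intro i
        by_cases h1 : i = f e.1
        · rw [h1, g1]
        · by_cases h2 : i = f e.2
          · rw [h2, g2]
          · exact (g3 i h1 h2).1
      · intro hG
        obtain ⟨hGE, _⟩ := mem_filter.mp hG
        -- a third index
        obtain ⟨i, hi⟩ : ∃ i : Fin r, i ∉ ({f e.1, f e.2} : Finset (Fin r)) := by
          by_contra hcon
          push Not at hcon
          have h1 : (univ : Finset (Fin r)) ⊆ {f e.1, f e.2} := fun i _ => hcon i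
          have h2 := card_le_card h1
          rw [card_univ, Fintype.card_fin] at h2
          have h3 := card_le_two (a := f e.1) (b := f e.2)
          omega
        simp only [mem_insert, mem_singleton, not_or] at hi
        obtain ⟨_, hn⟩ := g3 i hi.1 hi.2
        have m3 : g i ∈ univ.image g := mem_image_of_mem g (mem_univ i)
        exact hfar (near_step hn hGE m1 m3 m1 m2 (fun h => hfe (by rw [h])))
    calc ∑ e ∈ D, x e.1 * x e.2 * (1 / (r : ℝ) - 4 * r / 1000000) ^ (r - 2)
        ≤ ∑ e ∈ D, ∑ g ∈ P.filter (fun g => ¬ univ.image g ∈ Good),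
          (if e.1 ∈ univ.image g ∧ e.2 ∈ univ.image g then ∏ i, x (g i) else 0) :=
          sum_le_sum fun e he => le_trans (ht e he) (ht2 e he)
      _ = ∑ g ∈ P.filter (fun g => ¬ univ.image g ∈ Good), ∑ e ∈ D,
          (if e.1 ∈ univ.image g ∧ e.2 ∈ univ.image g then ∏ i, x (g i) else 0) := sum_comm
      _ ≤ ∑ g ∈ P.filter (fun g => ¬ univ.image g ∈ Good), (r : ℝ) ^ 2 * ∏ i, x (g i) := by
          refine sum_le_sum fun g _ => ?_
          rw [← sum_filter, sum_const, nsmul_eq_mul]
          refine mul_le_mul_of_nonneg_right ?_ (prod_nonneg fun i _ => hx0 _)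
          have h1 : D.filter (fun e => e.1 ∈ univ.image g ∧ e.2 ∈ univ.image g) ⊆
              univ.image g ×ˢ univ.image g := by
            intro e he
            rw [mem_product]
            exact (mem_filter.mp he).2
          have h2 := card_le_card h1
          rw [card_product] at h2
          have h3 : (univ.image g).card ≤ r := by
            refine le_trans card_image_le ?_
            simp
          have h4 : (D.filter (fun e => e.1 ∈ univ.image g ∧ e.2 ∈ univ.image g)).card ≤ r * r :=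
            le_trans h2 (Nat.mul_le_mul h3 h3)
          calc ((D.filter (fun e => e.1 ∈ univ.image g ∧ e.2 ∈ univ.image g)).card : ℝ)
              ≤ ((r * r : ℕ) : ℝ) := by exact_mod_cast h4
            _ = (r : ℝ) ^ 2 := by push_cast; ring
      _ = (r : ℝ) ^ 2 * ∑ g ∈ P.filter (fun g => ¬ univ.image g ∈ Good), ∏ i, x (g i) := by
          rw [mul_sum]
  -- numbers
  have hnum : (r : ℝ) ^ 2 * (4 * r / 1000000) ^ (r - 2) ≤
      (1 / (r : ℝ) - 4 * r / 1000000) ^ (r - 2) := by
    subst hr; norm_num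
  have hDD : (r : ℝ) ^ 2 * ∑ e ∈ D, x e.1 * x e.2 * (4 * r / 1000000) ^ (r - 2) ≤
      ∑ e ∈ D, x e.1 * x e.2 * (1 / (r : ℝ) - 4 * r / 1000000) ^ (r - 2) := by
    rw [mul_sum]
    refine sum_le_sum fun e _ => ?_
    have h1 := mul_le_mul_of_nonneg_left hnum (mul_nonneg (hx0 e.1) (hx0 e.2))
    linarith
  have hr2 : (0 : ℝ) < (r : ℝ) ^ 2 := by subst hr; norm_num
  have hBM : fw x Bad ≤ ∑ g ∈ P.filter (fun g => ¬ univ.image g ∈ Good), ∏ i, x (g i) := by
    have h1 := mul_le_mul_of_nonneg_left hBad hr2.le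
    have h2 := le_trans h1 (le_trans hDD hMiss)
    exact le_of_mul_le_mul_left h2 hr2
  have hfin := sum_filter_add_sum_filter_not P (fun g => univ.image g ∈ Good)
    (fun g => ∏ i, x (g i))
  rw [← hPsum] at hfin
  linarith

section

variable (hr : r = 20) (hE : ∀ e ∈ E, e.card = r) (hS : Star E r 10)
  (x : V → ℝ) (hx : ∀ v, 0 < x v) (hsum : ∑ v, x v = 1)
  (hL : ∀ v, (1 / (r : ℝ)) ^ (r - 1) < LL E x v)

include hr hE hS hx hsum hL

/-- the structure theorem -/
theorem structure_thm : ∃ f : V → Fin r,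
    (∀ i, 1 / (r : ℝ) - 2 * r / 1000000 ≤ ∑ v ∈ univ.filter (fun v => f v = i), x v) ∧
    fw x E ≤ ∏ i, ∑ v ∈ univ.filter (fun v => f v = i), x v +
      ∑ i, fw x (E.filter (fun e => ∀ v ∈ e, f v = i)) := by
  classical
  obtain ⟨p, q, hpq, ⟨e0, he0, hpe, hqe⟩, hreach⟩ := hub_reach hr hE hS x hx hsum hL
  let G : SimpleGraph V :=
    { Adj := fun a b => Near E p q 8 a b
      symm := ⟨fun a b h => near_symm (by norm_num) h⟩
      loopless := ⟨fun a h => near_ne (by norm_num) h rfl⟩ }
  let G' : SimpleGraph V :=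
    { Adj := fun a b => Near E p q 10 a b
      symm := ⟨fun a b h => near_symm (by norm_num) h⟩
      loopless := ⟨fun a h => near_ne (by norm_num) h rfl⟩ }
  have hle : G ≤ G' := fun a b h => near_mono (by norm_num) (by norm_num) h
  obtain ⟨f, hf1, hf2, hf3⟩ := partition hr G G' hle x hx hsum (by
    intro Q hQ
    exact hS p q hpq Q hQ.card_eq (fun a ha b hb hab => hQ.isClique ha hb hab)) (by
    intro v
    obtain ⟨B, hB1, hB2⟩ := hreach v
    have h1 : Disjoint B (univ.filter (fun w => ¬ G.Adj v w)) := by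
      rw [disjoint_left]
      intro w hw hw'
      exact (mem_filter.mp hw').2 (hB2 w hw)
    have h2 : ∑ w ∈ B ∪ univ.filter (fun w => ¬ G.Adj v w), x w ≤ ∑ w, x w :=
      sum_le_sum_of_subset_of_nonneg (subset_univ _) (fun w _ _ => (hx w).le)
    rw [sum_union h1, hsum] at h2
    linarith) e0 (by
    refine ⟨?_, hE e0 he0⟩
    intro a ha b hb hab
    exact near_mono (k := 1) (by norm_num) (by norm_num)
      (near_step (k := 0) ⟨rfl, rfl⟩ he0 hpe hqe ha hb hab))
  refine ⟨f, hf2, ?_⟩
  exact compare hr hE x (fun v => (hx v).le) p q f hf1 hf2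
    (fun v => univ.filter (fun w => f w ≠ f v ∧ ¬ G.Adj v w)) (by
      intro v w; simp [G]) hf3

end

end Pool.Agent.Helper45.Turan
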