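import Pool.Agent.Helper45.Turan.Blowup
import Pool.Agent.Helper45.Turan.Count
import Pool.Agent.Helper45.Turan.HGraph
import Pool.Agent.Helper45.Turan.Lagrange
import Pool.Agent.Helper45.Turan.Defs

/-! Supersaturation. -/

namespace Pool.Agent.Helper45.Turan

open Finset

/-- falling factorials are close to powers -/
lemma desc_ge (n k : ℕ) (hn : 1 ≤ n) :
    (1 - (k : ℝ) ^ 2 / n) * (n : ℝ) ^ k ≤ (n.descFactorial k : ℝ) := by
  have hn0 : (0 : ℝ) < n := by exact_mod_cast hn
  rcases Nat.lt_or_ge n k with h | h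
  · rw [Nat.descFactorial_of_lt h]
    have h1 : (n : ℝ) < k := by exact_mod_cast h
    have h2 : (1 : ℝ) ≤ (k : ℝ) ^ 2 / n := by
      rw [le_div_iff₀ hn0]
      have h3 : (1 : ℝ) ≤ k := by
        have : 1 ≤ k := by omega
        exact_mod_cast this
      nlinarith
    have h3 : (0 : ℝ) ≤ (n : ℝ) ^ k := by positivity
    push_cast
    nlinarith
  · have h1 : (((n + 1 - k : ℕ) : ℝ)) ^ k ≤ (n.descFactorial k : ℝ) := by
      exact_mod_cast Nat.pow_sub_le_descFactorial n k
    refine le_trans ?_ h1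
    have h2 : (((n + 1 - k : ℕ) : ℝ)) = n + 1 - k := by
      rw [Nat.cast_sub (by omega)]
      push_cast
      ring
    rw [h2]
    have h3 : (n : ℝ) + 1 - k = (1 + (1 - (k : ℝ)) / n) * n := by
      field_simp
      ring
    rw [h3, mul_pow]
    refine mul_le_mul_of_nonneg_right ?_ (by positivity)
    have hk : (k : ℝ) ≤ n := by exact_mod_cast h
    have h4 : (-2 : ℝ) ≤ (1 - (k : ℝ)) / n := by
      rw [le_div_iff₀ hn0]
      have : (0 : ℝ) ≤ k := Nat.cast_nonneg k
      linarith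
    refine le_trans ?_ (one_add_mul_le_pow h4 k)
    have h5 : (k : ℝ) * ((1 - (k : ℝ)) / n) = (k - (k : ℝ) ^ 2) / n := by ring
    rw [h5, sub_div]
    have : (0 : ℝ) ≤ k / n := by positivity
    linarith

section sampling

variable {m n : ℕ}

/-- the sampled graph -/
def samp (E : Finset (Finset (Fin n))) (ψ : Fin m → Fin n) : Finset (Finset (Fin m)) :=
  (powersetCard 20 univ).filter (fun e => e.image ψ ∈ E)

lemma mem_samp (E : Finset (Finset (Fin n))) (ψ : Fin m → Fin n) (e : Finset (Fin m)) :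
    e ∈ samp E ψ ↔ (e.card = 20 ∧ e.image ψ ∈ E) := by
  simp [samp, mem_powersetCard]

lemma num_image (e : Finset (Fin m)) (f : Finset (Fin n)) (he : e.card = 20)
    (hf : f.card = 20) :
    num (fun ψ : Fin m → Fin n => e.image ψ = f) * n ^ 20 = Nat.factorial 20 * n ^ m := by
  have h1 : num (fun ψ : Fin m → Fin n => e.image ψ = f) = FF e fᶜ := by
    unfold num FF
    congr 1
    ext ψ
    simp only [mem_filter, mem_univ, true_and, mem_compl, not_not]
    constructor
    · intro h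
      refine ⟨?_, ?_⟩
      · apply injOn_of_card_image_eq
        rw [h, hf, he]
      · intro i hi
        rw [← h]
        exact mem_image_of_mem ψ hi
    · rintro ⟨h1, h2⟩
      apply eq_of_subset_of_card_le
      · intro v hv
        rw [mem_image] at hv
        obtain ⟨i, hi, rfl⟩ := hv
        exact h2 i hi
      · rw [card_image_of_injOn h1, he, hf]
  have h2 := FF_eq e fᶜ
  rw [← h1, he, card_compl, Fintype.card_fin, hf, Fintype.card_fin] at h2
  have h3 : f.card ≤ n := by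
    have := card_le_univ f
    rwa [Fintype.card_fin] at this
  have h4 : n - (n - 20) = 20 := by omega
  rw [h4] at h2
  rw [h2, Nat.descFactorial_self]

lemma sum_samp (E : Finset (Finset (Fin n))) (hE : ∀ e ∈ E, e.card = 20) :
    (∑ ψ : Fin m → Fin n, (samp E ψ).card) * n ^ 20 = m.descFactorial 20 * E.card * n ^ m := by
  have h1 : ∑ ψ : Fin m → Fin n, (samp E ψ).card =
      ∑ e ∈ powersetCard 20 (univ : Finset (Fin m)), ∑ f ∈ E,
        num (fun ψ : Fin m → Fin n => e.image ψ = f) := by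
    have h2 : ∀ ψ : Fin m → Fin n, (samp E ψ).card =
        ∑ e ∈ powersetCard 20 (univ : Finset (Fin m)), ∑ f ∈ E,
          if e.image ψ = f then 1 else 0 := by
      intro ψ
      unfold samp
      rw [card_filter]
      refine sum_congr rfl fun e _ => ?_
      rw [sum_ite_eq]
    rw [sum_congr rfl (fun ψ _ => h2 ψ), sum_comm]
    refine sum_congr rfl fun e _ => ?_
    rw [sum_comm]
    refine sum_congr rfl fun f _ => ?_
    rw [num_eq_sum]
  rw [h1, sum_mul]
  have h3 : ∀ e ∈ powersetCard 20 (univ : Finset (Fin m)),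
      (∑ f ∈ E, num (fun ψ : Fin m → Fin n => e.image ψ = f)) * n ^ 20 =
        E.card * (Nat.factorial 20 * n ^ m) := by
    intro e he
    rw [sum_mul, sum_congr rfl (fun f hf => num_image e f (mem_powersetCard.mp he).2 (hE f hf)),
      sum_const, smul_eq_mul]
  rw [sum_congr rfl h3, sum_const, smul_eq_mul, card_powersetCard, card_univ, Fintype.card_fin,
    Nat.descFactorial_eq_factorial_mul_choose]
  ring

lemma samp_le (E : Finset (Finset (Fin n))) (ψ : Fin m → Fin n) :
    ((samp E ψ).card : ℝ) ≤ (m : ℝ) ^ 20 := by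
  have h1 : (samp E ψ).card ≤ m ^ 20 := by
    refine le_trans (card_filter_le _ _) ?_
    rw [card_powersetCard, card_univ, Fintype.card_fin]
    exact Nat.choose_le_pow m 20
  exact_mod_cast h1

/-- graphs without homomorphic image of `H` have few edges -/
lemma few_edges (F : Finset (Finset (Fin m))) (hF : ∀ e ∈ F, e.card = 20)
    (h : ¬ Hom HH (F : Set (Finset (Fin m)))) :
    (F.card : ℝ) ≤ 1 / ((20 : ℝ) ^ 20 - 20) * (m : ℝ) ^ 20 := by
  have h1 := lagrange (r := 20) rfl F hF (star_of_not_hom hF h) (fun _ => (1 : ℝ))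
    (fun _ => zero_le_one)
  have h2 : fw (fun _ : Fin m => (1 : ℝ)) F = F.card := by
    unfold fw
    simp
  rw [h2] at h1
  simp only [sum_const, card_univ, Fintype.card_fin, nsmul_eq_mul, mul_one] at h1
  push_cast at h1
  have hc : (0 : ℝ) < (20 : ℝ) ^ 20 - 20 := by norm_num
  rw [one_div, inv_mul_eq_div, le_div_iff₀ hc]
  linarith

lemma card_samp (E : Finset (Finset (Fin n))) (ψ : Fin m → Fin n) :
    ∀ e ∈ samp E ψ, e.card = 20 := fun e he => ((mem_samp E ψ e).mp he).1

open Classical in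
lemma many_aux {X : Type*} [Fintype X] (f : X → ℝ) (A c : ℝ) (hc : 0 ≤ c)
    (hA : ∀ x, f x ≤ A) (Q : X → Prop) (hQ : ∀ x, ¬ Q x → f x ≤ c) :
    ∑ x, f x ≤ (num Q : ℝ) * A + (Fintype.card X : ℝ) * c := by
  have h2 : ∑ x, f x ≤ ∑ x, ((if Q x then A else 0) + c) := by
    refine sum_le_sum fun x _ => ?_
    by_cases h : Q x
    · rw [if_pos h]
      have := hA x
      linarith
    · rw [if_neg h, zero_add]
      exact hQ x h
  refine le_trans h2 (le_of_eq ?_)
  rw [sum_add_distrib, sum_const, card_univ, nsmul_eq_mul]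
  congr 1
  rw [← sum_filter, sum_const, nsmul_eq_mul]
  rfl

/-- many samples contain a homomorphic image of `H` -/
lemma many_pred (hn : 1 ≤ n) (hm : 1 ≤ m) (c ε : ℝ) (hc0 : 0 ≤ c)
    (hmε : (c + ε / 2) * (m : ℝ) ^ 20 ≤ (c + ε) * (m.descFactorial 20 : ℝ))
    (E : Finset (Finset (Fin n))) (hE : ∀ e ∈ E, e.card = 20)
    (hEn : (c + ε) * (n : ℝ) ^ 20 ≤ E.card) (Q : (Fin m → Fin n) → Prop)
    (hQ : ∀ ψ, ¬ Q ψ → ((samp E ψ).card : ℝ) ≤ c * (m : ℝ) ^ 20) :
    ε / 2 * (n : ℝ) ^ m ≤ num Q := by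
  have hn0 : (0 : ℝ) < n := by exact_mod_cast hn
  have hm0 : (0 : ℝ) < m := by exact_mod_cast hm
  have hs := sum_samp (m := m) E hE
  obtain ⟨D, hD⟩ : ∃ D, D = m.descFactorial 20 := ⟨_, rfl⟩
  rw [← hD] at hs hmε
  have hD0 : (0 : ℝ) ≤ D := Nat.cast_nonneg D
  have hs' : (∑ ψ : Fin m → Fin n, ((samp E ψ).card : ℝ)) * (n : ℝ) ^ 20 =
      (D : ℝ) * E.card * (n : ℝ) ^ m := by exact_mod_cast hs
  have h1 : (c + ε / 2) * (m : ℝ) ^ 20 * (n : ℝ) ^ m ≤
      ∑ ψ : Fin m → Fin n, ((samp E ψ).card : ℝ) := by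
    have hn20 : (0 : ℝ) < (n : ℝ) ^ 20 := by positivity
    refine le_of_mul_le_mul_right ?_ hn20
    rw [hs']
    calc (c + ε / 2) * (m : ℝ) ^ 20 * (n : ℝ) ^ m * (n : ℝ) ^ 20
        ≤ ((c + ε) * (D : ℝ)) * (n : ℝ) ^ m * (n : ℝ) ^ 20 := by
          refine mul_le_mul_of_nonneg_right (mul_le_mul_of_nonneg_right hmε (by positivity))
            (by positivity)
      _ = (D : ℝ) * ((c + ε) * (n : ℝ) ^ 20) * (n : ℝ) ^ m := by ring
      _ ≤ (D : ℝ) * E.card * (n : ℝ) ^ m := by
          refine mul_le_mul_of_nonneg_right (mul_le_mul_of_nonneg_left hEn hD0)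
            (by positivity)
  have h2 := many_aux (fun ψ : Fin m → Fin n => ((samp E ψ).card : ℝ)) ((m : ℝ) ^ 20)
    (c * (m : ℝ) ^ 20) (by positivity) (fun ψ => samp_le E ψ) Q hQ
  rw [Fintype.card_pi, prod_const, card_univ, Fintype.card_fin, Fintype.card_fin] at h2
  push_cast at h2
  have hm20 : (0 : ℝ) < (m : ℝ) ^ 20 := by positivity
  refine le_of_mul_le_mul_right ?_ hm20
  linarith

end sampling

end Pool.Agent.Helper45.Turan
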