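import Pool.Agent.Helper45.Turan.Super

/-! Supersaturation, conclusion. -/

namespace Pool.Agent.Helper45.Turan

open Finset

section nums

open Classical in
lemma num_exists_le {X Φ : Type*} [Fintype X] [Fintype Φ] (R : Φ → X → Prop) :
    num (fun x => ∃ φ, R φ x) ≤ ∑ φ, num (R φ) := by
  rw [num_swap, num_eq_sum]
  refine sum_le_sum fun x _ => ?_
  by_cases h : ∃ φ, R φ x
  · rw [if_pos h]
    obtain ⟨φ, hφ⟩ := h
    exact one_le_num φ hφ
  · rw [if_neg h]
    exact Nat.zero_le _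

lemma pigeon {X Φ : Type*} [Fintype X] [Fintype Φ] [Nonempty Φ] (R : Φ → X → Prop) :
    ∃ φ, num (fun x => ∃ φ, R φ x) ≤ Fintype.card Φ * num (R φ) := by
  obtain ⟨φ, _, hφ⟩ := exists_max_image (univ : Finset Φ) (fun φ => num (R φ)) univ_nonempty
  refine ⟨φ, le_trans (num_exists_le R) ?_⟩
  refine le_trans (sum_le_sum fun ψ hψ => hφ ψ hψ) ?_
  rw [sum_const, card_univ, smul_eq_mul]

open Classical in
lemma num_disjoint {X : Type*} [Fintype X] (P Q : X → Prop) (h : ∀ x, ¬ (P x ∧ Q x)) :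
    num P + num Q ≤ Fintype.card X := by
  unfold num
  rw [← card_union_of_disjoint]
  · exact card_le_univ _
  · rw [disjoint_left]
    intro x hx hx'
    exact h x ⟨(mem_filter.mp hx).2, (mem_filter.mp hx').2⟩

open Classical in
lemma num_equiv {X Y : Type*} [Fintype X] [Fintype Y] (e : X ≃ Y) (P : Y → Prop) :
    num (fun x => P (e x)) = num P := by
  rw [num_eq_sum, num_eq_sum]
  exact e.sum_comp (fun y => if P y then 1 else 0)

open Classical in
lemma num_injective (κ : Type) [Fintype κ] [DecidableEq κ] (n : ℕ) :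
    num (fun f : κ → Fin n => Function.Injective f) = n.descFactorial (Fintype.card κ) := by
  have h1 : num (fun f : κ → Fin n => Function.Injective f) =
      Fintype.card {f : κ → Fin n // Function.Injective f} := by
    unfold num
    rw [Fintype.card_subtype]
    congr!
  rw [h1, Fintype.card_congr (Equiv.subtypeInjectiveEquivEmbedding κ (Fin n)),
    Fintype.card_embedding_eq, Fintype.card_fin]

end nums

/-- from many homomorphic images to copies -/
theorem copies {W : Type} [Fintype W] (H : Set (Finset W))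
    (hH : ∀ e ∈ H, e.card = 20) {m n b : ℕ} (hb : Fintype.card W = b + 1) (hn : 1 ≤ n)
    (hm : 1 ≤ m) (E : Finset (Finset (Fin n))) (c₀ : ℝ) (hc₀ : 0 < c₀)
    (hmany : c₀ * (n : ℝ) ^ m ≤
      num (fun ψ : Fin m → Fin n => ∃ φ : W → Fin m, ∀ e ∈ H, e.image φ ∈ samp E ψ))
    (hlarge : ((m * (b + 1) : ℕ) : ℝ) ^ 2 / n <
      (c₀ / (m : ℝ) ^ (b + 1)) ^ ((b + 1) ^ m)) : Contains H (E : Set (Finset (Fin n))) := by
  classical
  have hn0 : (0 : ℝ) < n := by exact_mod_cast hn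
  have hm0 : (0 : ℝ) < m := by exact_mod_cast hm
  have : Nonempty (Fin m) := ⟨⟨0, hm⟩⟩
  obtain ⟨φ, hφ⟩ := pigeon
    (fun (φ : W → Fin m) (ψ : Fin m → Fin n) => ∀ e ∈ H, e.image φ ∈ samp E ψ)
  rw [Fintype.card_pi, prod_const, card_univ, Fintype.card_fin, hb] at hφ
  obtain ⟨P, hP⟩ : ∃ P : (Fin m → Fin n) → Prop, P = fun ψ => ∀ e ∈ H, e.image φ ∈ samp E ψ :=
    ⟨_, rfl⟩
  rw [← hP] at hφ
  obtain ⟨c, hc⟩ : ∃ c : ℝ, c = c₀ / (m : ℝ) ^ (b + 1) := ⟨_, rfl⟩
  have hcpos : 0 < c := by rw [hc]; positivity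
  rw [← hc] at hlarge
  have hPn : c * (n : ℝ) ^ m ≤ num P := by
    have h1 : c₀ * (n : ℝ) ^ m ≤ (m : ℝ) ^ (b + 1) * num P := by
      refine le_trans hmany ?_
      exact_mod_cast hφ
    rw [hc, div_mul_eq_mul_div, div_le_iff₀ (by positivity)]
    linarith
  -- blow-up
  obtain ⟨K, hK⟩ : ∃ K, K = (b + 1) ^ m := ⟨_, rfl⟩
  have hblow := blowup (V := Fin n) b m P
  rw [← hK] at hblow hlarge
  rw [Fintype.card_fin] at hblow
  obtain ⟨Q, hQ⟩ : ∃ Q : (Fin m → Fin (b + 1) → Fin n) → Prop,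
      Q = fun Θ => ∀ s : Fin m → Fin (b + 1), P (fun i => Θ i (s i)) := ⟨_, rfl⟩
  rw [← hQ] at hblow
  have hblow' : (num P : ℝ) ^ K * (n : ℝ) ^ (m * (b + 1)) ≤ num Q * (n : ℝ) ^ (m * K) := by
    exact_mod_cast hblow
  have hQn : c ^ K * (n : ℝ) ^ (m * (b + 1)) ≤ num Q := by
    have h1 : (c * (n : ℝ) ^ m) ^ K ≤ (num P : ℝ) ^ K := pow_le_pow_left₀ (by positivity) hPn K
    have h2 : (0 : ℝ) < (n : ℝ) ^ (m * K) := by positivity
    refine le_of_mul_le_mul_right ?_ h2
    calc c ^ K * (n : ℝ) ^ (m * (b + 1)) * (n : ℝ) ^ (m * K)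
        = (c * (n : ℝ) ^ m) ^ K * (n : ℝ) ^ (m * (b + 1)) := by
          rw [mul_pow, ← pow_mul]; ring
      _ ≤ (num P : ℝ) ^ K * (n : ℝ) ^ (m * (b + 1)) :=
          mul_le_mul_of_nonneg_right h1 (by positivity)
      _ ≤ _ := hblow'
  -- injective maps
  have hinj : num (fun Θ : Fin m → Fin (b + 1) → Fin n =>
      Function.Injective (Function.uncurry Θ)) = n.descFactorial (m * (b + 1)) := by
    have h1 := num_equiv (Equiv.curry (Fin m) (Fin (b + 1)) (Fin n)).symm
      (fun f : Fin m × Fin (b + 1) → Fin n => Function.Injective f)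
    have h2 := num_injective (Fin m × Fin (b + 1)) n
    rw [Fintype.card_prod, Fintype.card_fin, Fintype.card_fin] at h2
    rw [← h2]
    exact h1
  have hex : ∃ Θ, Q Θ ∧ Function.Injective (Function.uncurry Θ) := by
    by_contra hcon
    push Not at hcon
    have h1 := num_disjoint Q (fun Θ : Fin m → Fin (b + 1) → Fin n =>
      Function.Injective (Function.uncurry Θ)) (fun Θ h => hcon Θ h.1 h.2)
    rw [hinj, Fintype.card_pi, prod_const, card_univ, Fintype.card_fin, Fintype.card_pi,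
      prod_const, card_univ, Fintype.card_fin, Fintype.card_fin, ← pow_mul] at h1
    have h2 := desc_ge n (m * (b + 1)) hn
    have h3 : (num Q : ℝ) + (n.descFactorial (m * (b + 1)) : ℝ) ≤ (n : ℝ) ^ (m * (b + 1)) := by
      rw [mul_comm m (b + 1)] at h1 ⊢
      exact_mod_cast h1
    have h4 : (0 : ℝ) < (n : ℝ) ^ (m * (b + 1)) := by positivity
    have h5 : (c ^ K + (1 - ((m * (b + 1) : ℕ) : ℝ) ^ 2 / n)) * (n : ℝ) ^ (m * (b + 1)) ≤
        1 * (n : ℝ) ^ (m * (b + 1)) := by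
      rw [add_mul]
      linarith
    have h6 := le_of_mul_le_mul_right h5 h4
    linarith
  obtain ⟨Θ, hΘ, hΘi⟩ := hex
  -- the copy
  let idx : W ≃ Fin (b + 1) := Fintype.equivFinOfCardEq hb
  have hinjφ : ∀ e ∈ H, Set.InjOn φ (e : Set W) := by
    intro e he
    rw [hQ] at hΘ
    have h1 := hΘ (fun _ => 0)
    rw [hP] at h1
    have h2 := (mem_samp E _ _).mp (h1 e he)
    apply injOn_of_card_image_eq
    rw [h2.1, hH e he]
  refine ⟨⟨fun w => Θ (φ w) (idx w), ?_⟩, ?_⟩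
  · intro w w' hww
    have h1 := hΘi (a₁ := (φ w, idx w)) (a₂ := (φ w', idx w')) hww
    exact idx.injective (Prod.mk.inj h1).2
  · intro e he
    rw [hQ] at hΘ
    have hs : ∀ i, ∃ j : Fin (b + 1), ∀ w ∈ e, φ w = i → j = idx w := by
      intro i
      by_cases h : ∃ w ∈ e, φ w = i
      · obtain ⟨w, hw, hwi⟩ := h
        refine ⟨idx w, fun w' hw' hwi' => ?_⟩
        rw [hinjφ e he hw hw' (hwi.trans hwi'.symm)]
      · exact ⟨0, fun w hw hwi => absurd ⟨w, hw, hwi⟩ h⟩
    choose s hs using hs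
    have h1 := hΘ s
    rw [hP] at h1
    have h2 := ((mem_samp E _ _).mp (h1 e he)).2
    rw [image_image] at h2
    rw [mem_coe, map_eq_image]
    convert h2 using 1
    refine image_congr fun w hw => ?_
    simp only [Function.comp]
    rw [hs (φ w) w hw rfl]
    rfl

end Pool.Agent.Helper45.Turan
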