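import Pool.Agent.Helper45.Turan.Super2
import Pool.Agent.Helper45.Turan.Lower2

/-! The upper bound. -/

namespace Pool.Agent.Helper45.Turan

open Finset

/-- graphs without a copy of `H` have few edges -/
theorem supersat (ε : ℝ) (hε : 0 < ε) : ∃ n₀ : ℕ, 1 ≤ n₀ ∧ ∀ n ≥ n₀,
    ∀ E : Finset (Finset (Fin n)), (∀ e ∈ E, e.card = 20) →
      ¬ Contains HH (E : Set (Finset (Fin n))) →
      (E.card : ℝ) ≤ (1 / ((20 : ℝ) ^ 20 - 20) + ε) * (n : ℝ) ^ 20 := by
  obtain ⟨c, hc⟩ : ∃ c : ℝ, c = 1 / ((20 : ℝ) ^ 20 - 20) := ⟨_, rfl⟩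
  have hc0 : 0 ≤ c := by rw [hc]; norm_num
  rw [← hc]
  -- the size of the samples
  obtain ⟨m, hm⟩ := exists_nat_gt (800 * (c + ε) / ε)
  have hm0 : (0 : ℝ) < m := lt_of_le_of_lt (by positivity) hm
  have hm1 : 1 ≤ m := by
    have : 0 < m := by exact_mod_cast hm0
    omega
  have hmε : (c + ε / 2) * (m : ℝ) ^ 20 ≤ (c + ε) * (m.descFactorial 20 : ℝ) := by
    have h1 := desc_ge m 20 hm1
    obtain ⟨D, hD⟩ : ∃ D, D = m.descFactorial 20 := ⟨_, rfl⟩
    rw [← hD] at h1 ⊢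
    have h2 : (c + ε) * ((1 - ((20 : ℕ) : ℝ) ^ 2 / m) * (m : ℝ) ^ 20) ≤ (c + ε) * D :=
      mul_le_mul_of_nonneg_left h1 (by linarith)
    refine le_trans ?_ h2
    rw [← mul_assoc]
    refine mul_le_mul_of_nonneg_right ?_ (by positivity)
    rw [div_lt_iff₀ hε] at hm
    have h3 : (c + ε) * (((20 : ℕ) : ℝ) ^ 2 / m) ≤ ε / 2 := by
      rw [← mul_div_assoc, div_le_iff₀ hm0]
      push_cast
      linarith
    linarith
  obtain ⟨b, hb⟩ : ∃ b, Fintype.card W = b + 1 :=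
    ⟨Fintype.card W - 1, by
      have : 0 < Fintype.card W := Fintype.card_pos_iff.mpr ⟨hub true⟩
      omega⟩
  obtain ⟨K, hK⟩ : ∃ K, K = (b + 1) ^ m := ⟨_, rfl⟩
  have hpos : 0 < (ε / 2 / (m : ℝ) ^ (b + 1)) ^ K := by positivity
  obtain ⟨n₀, hn₀⟩ := exists_nat_gt
    (((m * (b + 1) : ℕ) : ℝ) ^ 2 / (ε / 2 / (m : ℝ) ^ (b + 1)) ^ K)
  refine ⟨n₀ + 1, by omega, fun n hn E hE hfree => ?_⟩
  by_contra hcon
  push Not at hcon
  apply hfree
  have hn1 : 1 ≤ n := by omega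
  have hn0 : (0 : ℝ) < n := by exact_mod_cast hn1
  have hmany := many_pred hn1 hm1 c ε hc0 hmε E hE hcon.le
    (fun ψ : Fin m → Fin n => ∃ φ : W → Fin m, ∀ e ∈ HH, e.image φ ∈ samp E ψ) (by
      intro ψ hψ
      rw [hc]
      exact few_edges (samp E ψ) (card_samp E ψ) hψ)
  refine copies HH HH_card hb hn1 hm1 E (ε / 2) (by positivity) hmany ?_
  rw [← hK]
  rw [div_lt_iff₀ hpos] at hn₀
  rw [div_lt_iff₀ hn0]
  have h1 : (n₀ : ℝ) ≤ n := by
    have : n₀ ≤ n := by omega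
    exact_mod_cast this
  have h2 := mul_le_mul_of_nonneg_right h1 hpos.le
  linarith

lemma ell_nonneg : 0 ≤ ell := by unfold ell; norm_num [Nat.factorial]

lemma ell_fac : ell = (Nat.factorial 20 : ℝ) * (1 / ((20 : ℝ) ^ 20 - 20)) := by
  unfold ell; ring

open Classical in
/-- large densities force a copy of `H` when the number of parts is large -/
theorem upper (ε : ℝ) (hε : 0 < ε) : ∃ T : ℕ, ∀ t ≥ T, ∀ (V : Type) [Finite V]
    (part : V → Fin t) (E : Set (Finset V)), IsPartite 20 part E →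
    (∀ I : Finset (Fin t), I.card = 20 → ell + ε ≤ density part E I) → Contains HH E := by
  obtain ⟨F, hF⟩ : ∃ F : ℕ, F = Nat.factorial 20 := ⟨_, rfl⟩
  have hF0 : (0 : ℝ) < F := by
    rw [hF]; exact_mod_cast Nat.factorial_pos 20
  have hell : ell = (F : ℝ) * (1 / ((20 : ℝ) ^ 20 - 20)) := by rw [hF]; exact ell_fac
  obtain ⟨n₀, hn₀, hsup⟩ := supersat (ε / (4 * F)) (by positivity)
  obtain ⟨T, hT⟩ := exists_nat_gt (1600 * (ell + ε) / ε)
  refine ⟨max n₀ (T + 1), fun t ht V _ part E hP hden => ?_⟩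
  have ht1 : n₀ ≤ t := le_trans (le_max_left _ _) ht
  have ht2 : T + 1 ≤ t := le_trans (le_max_right _ _) ht
  have ht3 : 1 ≤ t := by omega
  have ht0 : (0 : ℝ) < t := by exact_mod_cast ht3
  have : Fintype V := Fintype.ofFinite V
  by_contra hfree
  -- the induced graphs
  let EE : (Fin t → V) → Finset (Finset (Fin t)) := fun g =>
    (powersetCard 20 univ).filter (fun I => I.image g ∈ E)
  have hEE : ∀ g ∈ Trv part, ((EE g).card : ℝ) ≤
      (1 / ((20 : ℝ) ^ 20 - 20) + ε / (4 * F)) * (t : ℝ) ^ 20 := by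
    intro g hg
    rw [mem_Trv] at hg
    have hginj : Function.Injective g := by
      intro i j hij
      rw [← hg i, ← hg j, hij]
    refine hsup t ht1 (EE g) ?_ ?_
    · intro e he
      exact (mem_powersetCard.mp (mem_filter.mp he).1).2
    · rintro ⟨φ, hφ⟩
      apply hfree
      refine ⟨φ.trans ⟨g, hginj⟩, fun e he => ?_⟩
      have h1 := (mem_filter.mp (mem_coe.mp (hφ e he))).2
      rw [← map_map, map_eq_image (⟨g, hginj⟩ : Fin t ↪ V)]
      exact h1
  -- double counting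
  have hsum : ∑ g ∈ Trv part, ((EE g).card : ℝ) =
      ∑ I ∈ powersetCard 20 (univ : Finset (Fin t)), (tcount part E I : ℝ) := by
    have h1 : ∀ g ∈ Trv part, ((EE g).card : ℝ) =
        ∑ I ∈ powersetCard 20 (univ : Finset (Fin t)), if I.image g ∈ E then (1 : ℝ) else 0 := by
      intro g _
      simp only [EE]
      rw [card_filter]
      push_cast
      rfl
    rw [sum_congr rfl h1, sum_comm]
    refine sum_congr rfl fun I _ => ?_
    unfold tcount
    rw [card_filter]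
    push_cast
    rfl
  have hlow : (t.choose 20 : ℝ) * ((ell + ε) * (Trv part).card) ≤
      ∑ g ∈ Trv part, ((EE g).card : ℝ) := by
    rw [hsum]
    have h1 : ∑ I ∈ powersetCard 20 (univ : Finset (Fin t)), ((ell + ε) * ((Trv part).card : ℝ)) ≤
        ∑ I ∈ powersetCard 20 (univ : Finset (Fin t)), (tcount part E I : ℝ) := by
      refine sum_le_sum fun I hI => ?_
      have hI' := (mem_powersetCard.mp hI).2
      rw [tcount_eq part E hP I hI']
      exact mul_le_mul_of_nonneg_right (hden I hI') (Nat.cast_nonneg _)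
    rw [sum_const, card_powersetCard, card_univ, Fintype.card_fin, nsmul_eq_mul] at h1
    exact h1
  have hup : ∑ g ∈ Trv part, ((EE g).card : ℝ) ≤ (Trv part).card *
      ((1 / ((20 : ℝ) ^ 20 - 20) + ε / (4 * F)) * (t : ℝ) ^ 20) := by
    refine le_trans (sum_le_sum hEE) (le_of_eq ?_)
    rw [sum_const, nsmul_eq_mul]
  have hTr : (0 : ℝ) < (Trv part).card := by exact_mod_cast Trv_pos part hP.1
  have h1 : (t.choose 20 : ℝ) * (ell + ε) ≤
      (1 / ((20 : ℝ) ^ 20 - 20) + ε / (4 * F)) * (t : ℝ) ^ 20 := by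
    refine le_of_mul_le_mul_right ?_ hTr
    linarith
  -- conclusion
  have h2 := desc_ge t 20 ht3
  rw [Nat.descFactorial_eq_factorial_mul_choose, ← hF] at h2
  push_cast at h2
  have h3 : (F : ℝ) * ((t.choose 20 : ℝ) * (ell + ε)) ≤
      (ell + ε / 4) * (t : ℝ) ^ 20 := by
    have h4 := mul_le_mul_of_nonneg_left h1 hF0.le
    refine le_trans h4 (le_of_eq ?_)
    rw [hell]
    field_simp
  have hle0 : 0 < ell + ε := by have := ell_nonneg; linarith
  have h5 : (ell + ε) * ((1 - (20 : ℝ) ^ 2 / t) * (t : ℝ) ^ 20) ≤ (ell + ε / 4) * (t : ℝ) ^ 20 := by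
    refine le_trans (mul_le_mul_of_nonneg_left h2 hle0.le) ?_
    linarith
  have h6 : (ell + ε) * (1 - (20 : ℝ) ^ 2 / t) ≤ ell + ε / 4 := by
    have h7 : (0 : ℝ) < (t : ℝ) ^ 20 := by positivity
    refine le_of_mul_le_mul_right ?_ h7
    linarith
  have h8 : (ell + ε) * ((20 : ℝ) ^ 2 / t) ≤ ε / 4 := by
    rw [div_lt_iff₀ hε] at hT
    rw [← mul_div_assoc, div_le_iff₀ ht0]
    have h9 : (T : ℝ) ≤ t := by
      have : T ≤ t := by omega
      exact_mod_cast this
    have h10 := mul_le_mul_of_nonneg_right h9 hε.le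
    linarith
  linarith

end Pool.Agent.Helper45.Turan
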